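import Pool.Agent.AVH.St

/-!
# AVH, module Alt (helper26): alternation
-/

set_option autoImplicit false

noncomputable section

namespace Pool.Agent.AVH

open Matrix

/-- The sum over the permutations which fix `0`. -/
def alt_L (n q : ℕ) (R : Type) [CommRing R] [Algebra ℂ R] :
    Ten n (q + 1) R →ₗ[ℂ] Ten n (q + 1) R where
  toFun F := fun i j => ∑ τ : Equiv.Perm (Fin (q + 1)),
    if τ 0 = 0 then ((Equiv.Perm.sign τ : ℤ) : R) * F i (j ∘ τ) else 0
  map_add' F G := by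
    funext i j
    show _ = (∑ τ : Equiv.Perm (Fin (q + 1)),
      if τ 0 = 0 then ((Equiv.Perm.sign τ : ℤ) : R) * F i (j ∘ τ) else 0) +
      ∑ τ : Equiv.Perm (Fin (q + 1)),
      if τ 0 = 0 then ((Equiv.Perm.sign τ : ℤ) : R) * G i (j ∘ τ) else 0
    rw [← Finset.sum_add_distrib]
    refine Finset.sum_congr rfl fun τ _ => ?_
    split_ifs
    · exact mul_add _ _ _
    · rw [add_zero]
  map_smul' c F := by
    funext i j
    show _ = c • (∑ τ : Equiv.Perm (Fin (q + 1)),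
      if τ 0 = 0 then ((Equiv.Perm.sign τ : ℤ) : R) * F i (j ∘ τ) else 0)
    rw [Finset.smul_sum]
    refine Finset.sum_congr rfl fun τ _ => ?_
    split_ifs
    · exact mul_smul_comm _ _ _
    · rw [smul_zero]

theorem alt_L_apply (n q : ℕ) (R : Type) [CommRing R] [Algebra ℂ R] (F : Ten n (q + 1) R)
    (i j : Fin (q + 1) → Fin n) : alt_L n q R F i j = ∑ τ : Equiv.Perm (Fin (q + 1)),
      if τ 0 = 0 then ((Equiv.Perm.sign τ : ℤ) : R) * F i (j ∘ τ) else 0 := rfl

theorem alt_sign {q : ℕ} {R : Type} [CommRing R] (τ : Equiv.Perm (Fin q)) :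
    ((Equiv.Perm.sign τ : ℤ) : R) * ((Equiv.Perm.sign τ : ℤ) : R) = 1 := by
  rw [← Int.cast_mul, ← Units.val_mul, Int.units_mul_self]
  simp

/-- The value of the operator at an alternating tensor. -/
theorem alt_avg {n q : ℕ} {R : Type} [CommRing R] [Algebra ℂ R] {F : Ten n (q + 1) R}
    (h : AltIn F) : alt_L n q R F = (((Finset.univ : Finset (Equiv.Perm (Fin (q + 1)))).filter
      (fun τ => τ 0 = 0)).card : ℂ) • F := by
  funext i j
  rw [alt_L_apply]
  have e : ∀ τ : Equiv.Perm (Fin (q + 1)), (if τ 0 = 0 then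
      ((Equiv.Perm.sign τ : ℤ) : R) * F i (j ∘ τ) else 0) = if τ 0 = 0 then F i j else 0 := by
    intro τ
    by_cases h0 : τ 0 = 0
    · rw [if_pos h0, if_pos h0, h τ h0 i j, ← mul_assoc, alt_sign, one_mul]
    · rw [if_neg h0, if_neg h0]
  rw [Finset.sum_congr rfl fun τ _ => e τ, ← Finset.sum_filter, Finset.sum_const]
  show _ = (((Finset.univ : Finset (Equiv.Perm (Fin (q + 1)))).filter
      (fun τ => τ 0 = 0)).card : ℂ) • F i j
  rw [Nat.cast_smul_eq_nsmul]

/-- The cofactor as a sum over permutations. -/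
theorem alt_CO {n q : ℕ} {R : Type} [CommRing R] (m : Fin (q + 1) → Matrix (Fin n) (Fin n) R)
    (i j : Fin (q + 1) → Fin n) (s₀ : Fin (q + 1)) :
    GT s₀ (fun t : Fin 0 => t.elim0) m i j = ∑ ρ : Equiv.Perm (Fin (q + 1)),
      if ρ 0 = s₀ then ((Equiv.Perm.sign ρ : ℤ) : R) * ∏ c, m (ρ c) (i (ρ c)) (j c) else 0 := by
  unfold GT CO
  rw [Fintype.sum_unique, ← Matrix.det_submatrix_equiv_self (Equiv.emptySum (Fin 0) (Fin (q + 1))).symm,
    Matrix.det_apply', Finset.mul_sum]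
  refine Finset.sum_congr rfl fun ρ _ => ?_
  have h1 : ∀ r : Fin (q + 1), (Equiv.emptySum (Fin 0) (Fin (q + 1))).symm r = Sum.inr r :=
    fun _ => rfl
  have h2 : ∏ c : Fin (q + 1), (((Mt (fun t : Fin 0 => (t.elim0 : Matrix (Fin n) (Fin n) R)) m i
      (bs j) default).updateCol (Sum.inr 0) (Pi.single (Sum.inr s₀) 1)).submatrix
      (Equiv.emptySum (Fin 0) (Fin (q + 1))).symm (Equiv.emptySum (Fin 0) (Fin (q + 1))).symm)
      (ρ c) c = (if ρ 0 = s₀ then 1 else 0) *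
        ∏ c : Fin q, m (ρ c.succ) (i (ρ c.succ)) (j c.succ) := by
    rw [Fin.prod_univ_succ]
    congr 1
    · rw [Matrix.submatrix_apply, h1, h1, Matrix.updateCol_self, Pi.single_apply]
      simp only [Sum.inr.injEq]
    · refine Finset.prod_congr rfl fun c _ => ?_
      rw [Matrix.submatrix_apply, h1, h1, Matrix.updateCol_ne (by simp)]
      show (m (ρ c.succ) *ᵥ Pi.single (j c.succ) 1) (i (ρ c.succ)) = _
      rw [Matrix.mulVec_single_one]
      rfl
  rw [h2]
  by_cases h0 : ρ 0 = s₀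
  · rw [if_pos h0, if_pos h0, Fin.prod_univ_succ, h0]
    ring
  · rw [if_neg h0, if_neg h0]
    ring

theorem thm_Alt : St_Alt := by
  intro n q R _ _ X Y F hF hA
  have hcard : (((Finset.univ : Finset (Equiv.Perm (Fin (q + 1)))).filter
      (fun τ => τ 0 = 0)).card : ℂ) ≠ 0 := by
    rw [Nat.cast_ne_zero]
    refine Finset.card_ne_zero_of_mem (a := (1 : Equiv.Perm (Fin (q + 1)))) ?_
    rw [Finset.mem_filter]
    exact ⟨Finset.mem_univ _, rfl⟩
  have e1 : F = (((Finset.univ : Finset (Equiv.Perm (Fin (q + 1)))).filter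
      (fun τ => τ 0 = 0)).card : ℂ)⁻¹ • alt_L n q R F := by
    rw [alt_avg hA, smul_smul, inv_mul_cancel₀ hcard, one_smul]
  rw [e1]
  refine Submodule.smul_mem _ _ ?_
  have h2 : Submodule.map (alt_L n q R) (Submodule.span ℂ (PsiSet X Y (q + 1))) ≤
      Submodule.span ℂ {G : Ten n (q + 1) R | ∃ (ts : List (ℕ × ℕ)) (s : Fin (q + 1))
        (m : Fin (q + 1) → ℕ × ℕ), G = fun i j => trs X Y ts *
          GT s (fun t : Fin 0 => t.elim0) (fun r => mon X Y (m r)) i j} := by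
    rw [Submodule.map_span_le]
    rintro _ ⟨ts, σ, m, rfl⟩
    have e2 : alt_L n q R (fun i j => trs X Y ts * ∏ s, mon X Y (m s) (i s) (j (σ s))) =
        ((Equiv.Perm.sign σ : ℤ) : ℂ) • (fun i j => trs X Y ts *
          GT (σ⁻¹ 0) (fun t : Fin 0 => t.elim0) (fun r => mon X Y (m r)) i j :
            Ten n (q + 1) R) := by
      funext i j
      rw [alt_L_apply]
      show _ = ((Equiv.Perm.sign σ : ℤ) : ℂ) • (trs X Y ts *
          GT (σ⁻¹ 0) (fun t : Fin 0 => t.elim0) (fun r => mon X Y (m r)) i j)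
      rw [alt_CO, Int.cast_smul_eq_zsmul, zsmul_eq_mul, Finset.mul_sum, Finset.mul_sum]
      refine Fintype.sum_equiv ((Equiv.inv _).trans (Equiv.mulLeft σ⁻¹)) _ _ fun τ => ?_
      have e3 : ((Equiv.inv _).trans (Equiv.mulLeft σ⁻¹)) τ = σ⁻¹ * τ⁻¹ := rfl
      rw [e3]
      by_cases h0 : τ 0 = 0
      · have h3 : (σ⁻¹ * τ⁻¹) 0 = σ⁻¹ 0 := by
          rw [Equiv.Perm.mul_apply]
          congr 1
          rw [Equiv.Perm.inv_eq_iff_eq, h0]
        rw [if_pos h0, if_pos h3]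
        have h4 : ∏ s, mon X Y (m s) (i s) ((j ∘ τ) (σ s)) =
            ∏ c, mon X Y (m ((σ⁻¹ * τ⁻¹) c)) (i ((σ⁻¹ * τ⁻¹) c)) (j c) := by
          refine Fintype.prod_equiv (τ * σ) _ _ fun s => ?_
          have e4 : (σ⁻¹ * τ⁻¹) ((τ * σ) s) = s := by
            rw [← Equiv.Perm.mul_apply]
            simp
          rw [e4]
          rfl
        have h5 : ((Equiv.Perm.sign (σ⁻¹ * τ⁻¹) : ℤ) : R) =
            ((Equiv.Perm.sign σ : ℤ) : R) * ((Equiv.Perm.sign τ : ℤ) : R) := by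
          rw [Equiv.Perm.sign_mul, Equiv.Perm.sign_inv, Equiv.Perm.sign_inv, Units.val_mul,
            Int.cast_mul]
        rw [h4, h5]
        have h6 := alt_sign (R := R) σ
        calc ((Equiv.Perm.sign τ : ℤ) : R) * (trs X Y ts *
              ∏ c, mon X Y (m ((σ⁻¹ * τ⁻¹) c)) (i ((σ⁻¹ * τ⁻¹) c)) (j c))
            = 1 * (((Equiv.Perm.sign τ : ℤ) : R) * (trs X Y ts *
              ∏ c, mon X Y (m ((σ⁻¹ * τ⁻¹) c)) (i ((σ⁻¹ * τ⁻¹) c)) (j c))) := by rw [one_mul]
          _ = _ := by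
            rw [← h6]
            ring
      · have h3 : ¬ (σ⁻¹ * τ⁻¹) 0 = σ⁻¹ 0 := by
          intro h3
          apply h0
          rw [Equiv.Perm.mul_apply] at h3
          have h4 := (σ⁻¹).injective h3
          rw [Equiv.Perm.inv_eq_iff_eq] at h4
          exact h4.symm
        rw [if_neg h0, if_neg h3, mul_zero, mul_zero]
    rw [e2]
    exact Submodule.smul_mem _ _ (Submodule.subset_span ⟨ts, σ⁻¹ 0, m, rfl⟩)
  exact h2 (Submodule.mem_map_of_mem hF)

end Pool.Agent.AVH
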