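import Pool.Agent.AVH.St
import Pool.Agent.Helper71.W4.FFTgl

/-!
# AVH: Cd

A matrix commuting with all `g^{⊗ κ}`, `g` invertible, is a combination of permutations: the derivative at
`τ = 0` for `g = 1 + τ E`, and the first fundamental theorem in infinitesimal form.
-/

set_option autoImplicit false

noncomputable section

namespace Pool.Agent.AVH

open Matrix Filter Topology

/-- the matrix `1 + τ E` -/
def cd_g {n : ℕ} (i j : Fin n) (τ : ℂ) : Matrix (Fin n) (Fin n) ℂ := 1 + τ • Matrix.single j i (1 : ℂ)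

theorem cd_g_apply {n : ℕ} (i j : Fin n) (τ : ℂ) (a b : Fin n) :
    cd_g i j τ a b = (if a = b then 1 else 0) + τ * (if a = j ∧ b = i then 1 else 0) := by
  unfold cd_g
  rw [Matrix.add_apply, Matrix.one_apply, Matrix.smul_apply, Matrix.single_apply, smul_eq_mul]
  congr 2
  by_cases h : j = a ∧ i = b
  · rw [if_pos h, if_pos ⟨h.1.symm, h.2.symm⟩]
  · rw [if_neg h, if_neg fun h' => h ⟨h'.1.symm, h'.2.symm⟩]

theorem cd_inv {n : ℕ} (i j : Fin n) :
    ∀ᶠ τ in 𝓝 (0 : ℂ), ∃ h : Matrix (Fin n) (Fin n) ℂ, cd_g i j τ * h = 1 := by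
  have h1 : Continuous fun τ : ℂ => (cd_g i j τ).det := by
    apply Continuous.matrix_det
    unfold cd_g
    fun_prop
  have h2 : (cd_g i j 0).det ≠ 0 := by
    unfold cd_g
    rw [zero_smul, add_zero, Matrix.det_one]
    exact one_ne_zero
  filter_upwards [h1.continuousAt.eventually_ne h2] with τ hτ
  exact ⟨(cd_g i j τ)⁻¹, Matrix.mul_nonsing_inv _ (isUnit_iff_ne_zero.2 hτ)⟩

theorem cd_deriv {m n : ℕ} (i j : Fin n) (a b : Fin m → Fin n) :
    HasDerivAt (fun τ : ℂ => ∏ r, cd_g i j τ (a r) (b r))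
      (∑ r, (∏ r' ∈ Finset.univ.erase r, if a r' = b r' then (1 : ℂ) else 0) *
        (if a r = j ∧ b r = i then 1 else 0)) 0 := by
  have h1 : ∀ r, HasDerivAt (fun τ : ℂ => cd_g i j τ (a r) (b r))
      (if a r = j ∧ b r = i then 1 else 0) 0 := by
    intro r
    have h2 : (fun τ : ℂ => cd_g i j τ (a r) (b r)) = fun τ : ℂ =>
        (if a r = b r then 1 else 0) + τ * (if a r = j ∧ b r = i then 1 else 0) := by
      funext τ
      exact cd_g_apply i j τ (a r) (b r)
    rw [h2]
    have h3 := ((hasDerivAt_id (0 : ℂ)).mul_const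
      (if a r = j ∧ b r = i then (1 : ℂ) else 0)).const_add (if a r = b r then (1 : ℂ) else 0)
    rw [one_mul] at h3
    exact h3
  have h4 := HasDerivAt.fun_finsetProd (u := Finset.univ) fun r _ => h1 r
  refine h4.congr_deriv ?_
  refine Finset.sum_congr rfl fun r _ => ?_
  rw [smul_eq_mul]
  congr 1
  refine Finset.prod_congr rfl fun r' _ => ?_
  rw [cd_g_apply, zero_mul, add_zero]

/-- only one index survives -/
theorem cd_single {m n : ℕ} (i j : Fin n) (b : Fin m → Fin n) (F : (Fin m → Fin n) → ℂ)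
    (r : Fin m) : ∑ a : Fin m → Fin n, F a *
      ((∏ r' ∈ Finset.univ.erase r, if a r' = b r' then (1 : ℂ) else 0) *
        (if a r = j ∧ b r = i then 1 else 0)) =
      if b r = i then F (Function.update b r j) else 0 := by
  rw [Finset.sum_eq_single (Function.update b r j)]
  · rw [Finset.prod_eq_one, Function.update_self]
    · by_cases h : b r = i
      · rw [if_pos ⟨rfl, h⟩, if_pos h, mul_one, mul_one]
      · rw [if_neg fun h' => h h'.2, if_neg h, mul_zero, mul_zero]
    · intro r' hr'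
      rw [Function.update_of_ne (Finset.ne_of_mem_erase hr'), if_pos rfl]
  · intro a _ ha
    by_cases h : ∀ r' ∈ Finset.univ.erase r, a r' = b r'
    · rw [if_neg, mul_zero, mul_zero]
      rintro ⟨h1, -⟩
      apply ha
      funext r'
      by_cases hr : r' = r
      · rw [hr, Function.update_self, h1]
      · rw [Function.update_of_ne hr, h r' (Finset.mem_erase.2 ⟨hr, Finset.mem_univ _⟩)]
    · push Not at h
      obtain ⟨r', hr', h⟩ := h
      rw [Finset.prod_eq_zero hr' (if_neg h), zero_mul, mul_zero]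
  · intro h
    exact absurd (Finset.mem_univ _) h

theorem cd_single' {m n : ℕ} (i j : Fin n) (a : Fin m → Fin n) (F : (Fin m → Fin n) → ℂ)
    (r : Fin m) : ∑ b : Fin m → Fin n,
      ((∏ r' ∈ Finset.univ.erase r, if a r' = b r' then (1 : ℂ) else 0) *
        (if a r = j ∧ b r = i then 1 else 0)) * F b =
      if a r = j then F (Function.update a r i) else 0 := by
  rw [← cd_single j i a F r]
  refine Finset.sum_congr rfl fun b _ => ?_
  rw [mul_comm]
  congr 2
  · refine Finset.prod_congr rfl fun r' _ => ?_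
    by_cases h : a r' = b r'
    · rw [if_pos h, if_pos h.symm]
    · rw [if_neg h, if_neg fun h' => h h'.symm]
  · by_cases h : a r = j ∧ b r = i
    · rw [if_pos h, if_pos ⟨h.2, h.1⟩]
    · rw [if_neg h, if_neg fun h' => h ⟨h'.2, h'.1⟩]

theorem cd_fin {m n : ℕ} (G : (Fin m → Fin n) → (Fin m → Fin n) → ℂ)
    (hG : ∀ g h : Matrix (Fin n) (Fin n) ℂ, g * h = 1 → ∀ s t' : Fin m → Fin n,
      ∑ t : Fin m → Fin n, G s t * ∏ r, g (t r) (t' r) =
        ∑ s' : Fin m → Fin n, (∏ r, g (s r) (s' r)) * G s' t') :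
    ∃ c : Equiv.Perm (Fin m) → ℂ, ∀ s t, G s t =
      ∑ π : Equiv.Perm (Fin m), c π * ∏ r, (if s r = t (π r) then 1 else 0) := by
  apply Pool.Agent.Helper7.fft_gl
  intro i j s t
  have h1 : HasDerivAt (fun τ : ℂ => ∑ a : Fin m → Fin n, G s a * ∏ r, cd_g i j τ (a r) (t r))
      (∑ a : Fin m → Fin n, G s a * ∑ r,
        (∏ r' ∈ Finset.univ.erase r, if a r' = t r' then (1 : ℂ) else 0) *
        (if a r = j ∧ t r = i then 1 else 0)) 0 :=
    HasDerivAt.fun_sum fun a _ => (cd_deriv i j a t).const_mul (G s a)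
  have h2 : HasDerivAt (fun τ : ℂ => ∑ b : Fin m → Fin n, (∏ r, cd_g i j τ (s r) (b r)) * G b t)
      (∑ b : Fin m → Fin n, (∑ r,
        (∏ r' ∈ Finset.univ.erase r, if s r' = b r' then (1 : ℂ) else 0) *
        (if s r = j ∧ b r = i then 1 else 0)) * G b t) 0 :=
    HasDerivAt.fun_sum fun b _ => (cd_deriv i j s b).mul_const (G b t)
  have h3 : (fun τ : ℂ => ∑ b : Fin m → Fin n, (∏ r, cd_g i j τ (s r) (b r)) * G b t) =ᶠ[𝓝 0]
      (fun τ : ℂ => ∑ a : Fin m → Fin n, G s a * ∏ r, cd_g i j τ (a r) (t r)) := by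
    filter_upwards [cd_inv i j] with τ hτ
    obtain ⟨h, hh⟩ := hτ
    exact (hG _ h hh s t).symm
  have h4 := h2.unique (h1.congr_of_eventuallyEq h3)
  simp only [Finset.sum_mul, Finset.mul_sum] at h4
  rw [Finset.sum_comm, Finset.sum_congr rfl fun r _ => cd_single' i j s (fun b => G b t) r] at h4
  rw [h4, Finset.sum_comm, Finset.sum_congr rfl fun r _ => cd_single i j t (fun a => G s a) r]

theorem thm_Cd : St_Cd := by
  intro κ _ _ n G hG
  set e := Fintype.equivFin κ with he
  have h1 := cd_fin (m := Fintype.card κ) (fun s t => G (s ∘ e) (t ∘ e)) (by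
    intro g h hgh s t'
    have h2 := hG g h hgh (s ∘ e) (t' ∘ e)
    rw [← Equiv.sum_comp (Equiv.arrowCongr e (Equiv.refl (Fin n)))]
    rw [← Equiv.sum_comp (Equiv.arrowCongr e (Equiv.refl (Fin n)))
      (fun s' => (∏ r, g (s r) (s' r)) * G (s' ∘ e) (t' ∘ e))]
    have e1 : ∀ t : κ → Fin n, (Equiv.arrowCongr e (Equiv.refl (Fin n))) t ∘ e = t := by
      intro t
      funext x
      simp
    have e2 : ∀ t : κ → Fin n, ∏ r, g ((Equiv.arrowCongr e (Equiv.refl (Fin n))) t r) (t' r) =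
        ∏ x, g (t x) ((t' ∘ e) x) := by
      intro t
      rw [← Equiv.prod_comp e]
      refine Finset.prod_congr rfl fun x _ => ?_
      simp
    have e3 : ∀ t : κ → Fin n, ∏ r, g (s r) ((Equiv.arrowCongr e (Equiv.refl (Fin n))) t r) =
        ∏ x, g ((s ∘ e) x) (t x) := by
      intro t
      rw [← Equiv.prod_comp e]
      refine Finset.prod_congr rfl fun x _ => ?_
      simp
    simp only [e1, e2, e3]
    exact h2)
  obtain ⟨c, hc⟩ := h1
  refine ⟨fun π => c (e.permCongr π), fun s t => ?_⟩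
  have h2 := hc (s ∘ e.symm) (t ∘ e.symm)
  have e4 : ∀ t : κ → Fin n, (t ∘ e.symm) ∘ e = t := by
    intro t
    funext x
    simp
  simp only [e4] at h2
  rw [h2, ← Equiv.sum_comp e.permCongr]
  refine Finset.sum_congr rfl fun π _ => ?_
  congr 1
  rw [← Equiv.prod_comp e]
  refine Finset.prod_congr rfl fun x _ => ?_
  simp

end Pool.Agent.AVH
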