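import Pool.Agent.AVH.St

/-!
# AVH: the symmetric lift commutes with the tensor powers
-/

set_option autoImplicit false

noncomputable section

namespace Pool.Agent.AVH

open Matrix

theorem cm_sum_pi {n D : ℕ} (f : Fin D → Fin n → ℂ) :
    ∑ p : Fin D → Fin n, ∏ r, f r (p r) = ∏ r, ∑ x, f r x := by
  rw [Finset.prod_univ_sum, Fintype.piFinset_univ]

theorem cm_delta {n D : ℕ} (g h : Matrix (Fin n) (Fin n) ℂ) (hg : g * h = 1)
    (a b : Fin D → Fin n) :
    ∑ p : Fin D → Fin n, ((∏ r, g (a r) (p r)) * ∏ r, h (p r) (b r)) =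
      if a = b then 1 else 0 := by
  have e : ∀ p : Fin D → Fin n, ((∏ r, g (a r) (p r)) * ∏ r, h (p r) (b r)) =
      ∏ r, (g (a r) (p r) * h (p r) (b r)) := fun p => Finset.prod_mul_distrib.symm
  simp only [e]
  rw [cm_sum_pi (fun r x => g (a r) x * h x (b r))]
  have e2 : ∀ r, ∑ x, g (a r) x * h x (b r) = if a r = b r then (1 : ℂ) else 0 := by
    intro r
    rw [← Matrix.mul_apply, hg, Matrix.one_apply]
  simp only [e2]
  split_ifs with hab
  · subst hab
    simp
  · obtain ⟨r, hr⟩ := Function.ne_iff.1 hab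
    exact Finset.prod_eq_zero (Finset.mem_univ r) (if_neg hr)

theorem cm_swap {α β γ δ : Type} [Fintype α] [Fintype β] [Fintype γ] [Fintype δ]
    (f : α → β → γ → δ → ℂ) :
    ∑ a, ∑ b, ∑ c, ∑ d, f a b c d = ∑ c, ∑ d, ∑ a, ∑ b, f a b c d := by
  calc ∑ a, ∑ b, ∑ c, ∑ d, f a b c d = ∑ a, ∑ c, ∑ b, ∑ d, f a b c d :=
        Finset.sum_congr rfl fun a _ => Finset.sum_comm
    _ = ∑ c, ∑ a, ∑ b, ∑ d, f a b c d := Finset.sum_comm
    _ = ∑ c, ∑ a, ∑ d, ∑ b, f a b c d :=
        Finset.sum_congr rfl fun c _ => Finset.sum_congr rfl fun a _ => Finset.sum_comm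
    _ = ∑ c, ∑ d, ∑ a, ∑ b, f a b c d := Finset.sum_congr rfl fun c _ => Finset.sum_comm

/-- families of variables as triples of families -/
def cm_E (n D : ℕ) : ((Fin D → Fin 2) × (Fin D → Fin n) × (Fin D → Fin n)) ≃ (Fin D → Vr n) where
  toFun p r := (p.1 r, p.2.1 r, p.2.2 r)
  invFun u := (fun r => (u r).1, fun r => (u r).2.1, fun r => (u r).2.2)
  left_inv _ := rfl
  right_inv _ := rfl

theorem cm_sumE {n D : ℕ} (f : (Fin D → Vr n) → ℂ) :
    ∑ u, f u = ∑ c : Fin D → Fin 2, ∑ b : Fin D → Fin n, ∑ a : Fin D → Fin n,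
      f (fun r => (c r, b r, a r)) := by
  rw [← Equiv.sum_comp (cm_E n D), Fintype.sum_prod_type]
  refine Finset.sum_congr rfl fun c _ => ?_
  rw [Fintype.sum_prod_type]
  rfl

/-- the values of the conjugated matrices -/
def cm_w {n : ℕ} (g h : Matrix (Fin n) (Fin n) ℂ) (v : Vr n → ℂ) (t : Vr n) : ℂ :=
  ∑ x, ∑ y, g t.2.1 x * v (t.1, x, y) * h y t.2.2

theorem cm_conj {n : ℕ} (g h A : Matrix (Fin n) (Fin n) ℂ) (b a : Fin n) :
    (g * A * h) b a = ∑ x, ∑ y, g b x * A x y * h y a := by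
  rw [Matrix.mul_apply, Finset.sum_comm]
  refine Finset.sum_congr rfl fun y _ => ?_
  rw [Matrix.mul_apply, Finset.sum_mul]

theorem cm_ev {n : ℕ} (g h : Matrix (Fin n) (Fin n) ℂ) (v : Vr n → ℂ) (f : Sn n) :
    evR (g * (Matrix.of fun x y => v (0, x, y)) * h) (g * (Matrix.of fun x y => v (1, x, y)) * h) f =
      MvPolynomial.eval (cm_w g h v) f := by
  unfold evR
  rw [MvPolynomial.aeval_def, MvPolynomial.eval₂_eq_eval_map, Algebra.algebraMap_self,
    MvPolynomial.map_id]
  have e : (fun t : Vr n => if t.1 = 0 then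
      (g * (Matrix.of fun x y => v (0, x, y)) * h) t.2.1 t.2.2 else
      (g * (Matrix.of fun x y => v (1, x, y)) * h) t.2.1 t.2.2) = cm_w g h v := by
    funext t
    obtain ⟨c, b, a⟩ := t
    fin_cases c
    · simp only [cm_w, cm_conj, Matrix.of_apply]
      rfl
    · simp only [cm_w, cm_conj, Matrix.of_apply]
      rfl
  rw [e]

theorem cm_ev0 {n : ℕ} (v : Vr n → ℂ) (f : Sn n) :
    evR (Matrix.of fun x y => v (0, x, y)) (Matrix.of fun x y => v (1, x, y)) f =
      MvPolynomial.eval v f := by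
  unfold evR
  rw [MvPolynomial.aeval_def, MvPolynomial.eval₂_eq_eval_map, Algebra.algebraMap_self,
    MvPolynomial.map_id]
  have e : (fun t : Vr n => if t.1 = 0 then
      (Matrix.of fun x y => v (0, x, y)) t.2.1 t.2.2 else
      (Matrix.of fun x y => v (1, x, y)) t.2.1 t.2.2) = v := by
    funext t
    obtain ⟨c, b, a⟩ := t
    fin_cases c
    · rfl
    · rfl
  rw [e]

/-- the transformed coefficients -/
def cm_T1 {n D : ℕ} (g h : Matrix (Fin n) (Fin n) ℂ) (T : (Fin D → Vr n) → ℂ)
    (u : Fin D → Vr n) : ℂ :=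
  ∑ b : Fin D → Fin n, ∑ a : Fin D → Fin n, T (fun r => ((u r).1, b r, a r)) *
    ((∏ r, g (b r) (u r).2.1) * ∏ r, h (u r).2.2 (a r))

theorem cm_T1_symm {n D : ℕ} (g h : Matrix (Fin n) (Fin n) ℂ) (T : (Fin D → Vr n) → ℂ)
    (hT : ∀ (π : Equiv.Perm (Fin D)) (u : Fin D → Vr n), T (u ∘ π) = T u)
    (π : Equiv.Perm (Fin D)) (u : Fin D → Vr n) : cm_T1 g h T (u ∘ π) = cm_T1 g h T u := by
  unfold cm_T1
  rw [← Equiv.sum_comp (Equiv.arrowCongr π.symm (Equiv.refl (Fin n)))]
  refine Finset.sum_congr rfl fun b _ => ?_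
  rw [← Equiv.sum_comp (Equiv.arrowCongr π.symm (Equiv.refl (Fin n)))]
  refine Finset.sum_congr rfl fun a _ => ?_
  have e1 : (fun r => (((u ∘ π) r).1, (Equiv.arrowCongr π.symm (Equiv.refl (Fin n))) b r,
      (Equiv.arrowCongr π.symm (Equiv.refl (Fin n))) a r)) =
      (fun r => ((u r).1, b r, a r)) ∘ π := rfl
  rw [e1, hT]
  congr 2
  · exact Equiv.prod_comp π (fun r => g (b r) (u r).2.1)
  · exact Equiv.prod_comp π (fun r => h (u r).2.2 (a r))

theorem cm_val1 {n D : ℕ} (g h : Matrix (Fin n) (Fin n) ℂ) (T : (Fin D → Vr n) → ℂ)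
    (v : Vr n → ℂ) :
    ∑ u : Fin D → Vr n, T u * ∏ r, cm_w g h v (u r) =
      ∑ u : Fin D → Vr n, cm_T1 g h T u * ∏ r, v (u r) := by
  rw [cm_sumE, cm_sumE]
  refine Finset.sum_congr rfl fun c _ => ?_
  have e1 : ∀ b a : Fin D → Fin n, ∏ r, cm_w g h v (c r, b r, a r) =
      ∑ b' : Fin D → Fin n, ∑ a' : Fin D → Fin n,
        ∏ r, (g (b r) (b' r) * v (c r, b' r, a' r) * h (a' r) (a r)) := by
    intro b a
    unfold cm_w
    rw [← cm_sum_pi (fun r x => ∑ y, g (b r) x * v (c r, x, y) * h y (a r))]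
    refine Finset.sum_congr rfl fun b' _ => ?_
    rw [← cm_sum_pi (fun r y => g (b r) (b' r) * v (c r, b' r, y) * h y (a r))]
  calc ∑ b : Fin D → Fin n, ∑ a : Fin D → Fin n, T (fun r => (c r, b r, a r)) *
        ∏ r, cm_w g h v (c r, b r, a r)
      = ∑ b : Fin D → Fin n, ∑ a : Fin D → Fin n, ∑ b' : Fin D → Fin n, ∑ a' : Fin D → Fin n,
          T (fun r => (c r, b r, a r)) *
            ∏ r, (g (b r) (b' r) * v (c r, b' r, a' r) * h (a' r) (a r)) := by
        refine Finset.sum_congr rfl fun b _ => Finset.sum_congr rfl fun a _ => ?_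
        rw [e1, Finset.mul_sum]
        refine Finset.sum_congr rfl fun b' _ => ?_
        rw [Finset.mul_sum]
    _ = ∑ b' : Fin D → Fin n, ∑ a' : Fin D → Fin n, ∑ b : Fin D → Fin n, ∑ a : Fin D → Fin n,
          T (fun r => (c r, b r, a r)) *
            ∏ r, (g (b r) (b' r) * v (c r, b' r, a' r) * h (a' r) (a r)) := cm_swap _
    _ = _ := by
        refine Finset.sum_congr rfl fun b' _ => Finset.sum_congr rfl fun a' _ => ?_
        unfold cm_T1
        rw [Finset.sum_mul]
        refine Finset.sum_congr rfl fun b _ => ?_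
        rw [Finset.sum_mul]
        refine Finset.sum_congr rfl fun a _ => ?_
        rw [Finset.prod_mul_distrib, Finset.prod_mul_distrib]
        ring

theorem cm_evF {n D : ℕ} (T : (Fin D → Vr n) → ℂ) (v : Vr n → ℂ) :
    MvPolynomial.eval v (∑ u : Fin D → Vr n, MvPolynomial.C (T u) *
      ∏ r, (MvPolynomial.X (u r) : Sn n)) = ∑ u : Fin D → Vr n, T u * ∏ r, v (u r) := by
  rw [map_sum]
  refine Finset.sum_congr rfl fun u _ => ?_
  rw [map_mul, MvPolynomial.eval_C, map_prod]
  simp only [MvPolynomial.eval_X]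

theorem thm_Cm (hLfb : St_Lfb) : St_Cm := by
  intro n l D T hT hE g h hgh c i j' a b'
  have hhg : h * g = 1 := mul_eq_one_comm.1 hgh
  -- the two symmetric functions agree
  have key : ∀ (j : Fin l → Fin n) (u : Fin D → Vr n), cm_T1 g h (T i j) u =
      ∑ i' : Fin l → Fin n, ∑ k : Fin l → Fin n,
        (∏ s, g (i s) (i' s)) * T i' k u * ∏ s, h (k s) (j s) := by
    intro j
    have h0 : ∀ u, cm_T1 g h (T i j) u - ∑ i' : Fin l → Fin n, ∑ k : Fin l → Fin n,
        (∏ s, g (i s) (i' s)) * T i' k u * ∏ s, h (k s) (j s) = 0 := by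
      refine hLfb (Vr n) D _ ?_ ?_
      · intro π u
        rw [cm_T1_symm g h _ (hT i j)]
        simp only [hT]
      · apply MvPolynomial.funext
        intro v
        have hv := hE g h (Matrix.of fun x y => v (0, x, y)) (Matrix.of fun x y => v (1, x, y))
          hgh i j
        simp only [cm_ev, cm_ev0, cm_evF] at hv
        rw [cm_val1] at hv
        rw [cm_evF, map_zero]
        simp only [sub_mul, Finset.sum_sub_distrib]
        rw [hv, sub_eq_zero]
        calc ∑ i' : Fin l → Fin n, ∑ k : Fin l → Fin n,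
              (∏ s, g (i s) (i' s)) * (∑ u : Fin D → Vr n, T i' k u * ∏ r, v (u r)) *
                ∏ s, h (k s) (j s)
            = ∑ i' : Fin l → Fin n, ∑ k : Fin l → Fin n, ∑ u : Fin D → Vr n,
                (∏ s, g (i s) (i' s)) * T i' k u * (∏ s, h (k s) (j s)) * ∏ r, v (u r) := by
              refine Finset.sum_congr rfl fun i' _ => Finset.sum_congr rfl fun k _ => ?_
              rw [Finset.mul_sum, Finset.sum_mul]
              refine Finset.sum_congr rfl fun u _ => ?_
              ring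
          _ = ∑ i' : Fin l → Fin n, ∑ u : Fin D → Vr n, ∑ k : Fin l → Fin n,
                (∏ s, g (i s) (i' s)) * T i' k u * (∏ s, h (k s) (j s)) * ∏ r, v (u r) :=
              Finset.sum_congr rfl fun i' _ => Finset.sum_comm
          _ = ∑ u : Fin D → Vr n, ∑ i' : Fin l → Fin n, ∑ k : Fin l → Fin n,
                (∏ s, g (i s) (i' s)) * T i' k u * (∏ s, h (k s) (j s)) * ∏ r, v (u r) :=
              Finset.sum_comm
          _ = _ := by
              refine Finset.sum_congr rfl fun u _ => ?_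
              rw [Finset.sum_mul]
              refine Finset.sum_congr rfl fun i' _ => ?_
              rw [Finset.sum_mul]
    intro u
    exact sub_eq_zero.1 (h0 u)
  -- first summation
  have step1 : ∀ j : Fin l → Fin n,
      ∑ b : Fin D → Fin n, T i j (fun r => (c r, b r, a r)) * ∏ r, g (b r) (b' r) =
      ∑ a' : Fin D → Fin n, ∑ i' : Fin l → Fin n, ∑ k : Fin l → Fin n,
        (∏ r, g (a r) (a' r)) * ((∏ s, g (i s) (i' s)) *
          T i' k (fun r => (c r, b' r, a' r)) * ∏ s, h (k s) (j s)) := by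
    intro j
    have e1 : ∀ a' : Fin D → Fin n, (∏ r, g (a r) (a' r)) *
        cm_T1 g h (T i j) (fun r => (c r, b' r, a' r)) =
        ∑ i' : Fin l → Fin n, ∑ k : Fin l → Fin n,
        (∏ r, g (a r) (a' r)) * ((∏ s, g (i s) (i' s)) *
          T i' k (fun r => (c r, b' r, a' r)) * ∏ s, h (k s) (j s)) := by
      intro a'
      rw [key, Finset.mul_sum]
      refine Finset.sum_congr rfl fun i' _ => ?_
      rw [Finset.mul_sum]
    simp only [← e1]
    calc ∑ b : Fin D → Fin n, T i j (fun r => (c r, b r, a r)) * ∏ r, g (b r) (b' r)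
        = ∑ b : Fin D → Fin n, ∑ x : Fin D → Fin n, T i j (fun r => (c r, b r, x r)) *
            (∏ r, g (b r) (b' r)) * (if a = x then 1 else 0) := by
          refine Finset.sum_congr rfl fun b _ => ?_
          simp only [mul_ite, mul_one, mul_zero]
          rw [Finset.sum_ite_eq Finset.univ a]
          simp
      _ = ∑ b : Fin D → Fin n, ∑ x : Fin D → Fin n, ∑ a' : Fin D → Fin n,
            (∏ r, g (a r) (a' r)) * (T i j (fun r => (c r, b r, x r)) *
              ((∏ r, g (b r) (b' r)) * ∏ r, h (a' r) (x r))) := by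
          refine Finset.sum_congr rfl fun b _ => Finset.sum_congr rfl fun x _ => ?_
          rw [← cm_delta g h hgh a x, Finset.mul_sum]
          refine Finset.sum_congr rfl fun a' _ => ?_
          ring
      _ = ∑ b : Fin D → Fin n, ∑ a' : Fin D → Fin n, ∑ x : Fin D → Fin n,
            (∏ r, g (a r) (a' r)) * (T i j (fun r => (c r, b r, x r)) *
              ((∏ r, g (b r) (b' r)) * ∏ r, h (a' r) (x r))) :=
          Finset.sum_congr rfl fun b _ => Finset.sum_comm
      _ = ∑ a' : Fin D → Fin n, ∑ b : Fin D → Fin n, ∑ x : Fin D → Fin n,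
            (∏ r, g (a r) (a' r)) * (T i j (fun r => (c r, b r, x r)) *
              ((∏ r, g (b r) (b' r)) * ∏ r, h (a' r) (x r))) := Finset.sum_comm
      _ = _ := by
          refine Finset.sum_congr rfl fun a' _ => ?_
          unfold cm_T1
          rw [Finset.mul_sum]
          refine Finset.sum_congr rfl fun b _ => ?_
          rw [Finset.mul_sum]
  -- second summation
  calc ∑ b : Fin D → Fin n, ∑ j : Fin l → Fin n,
        T i j (fun r => (c r, b r, a r)) * ((∏ r, g (b r) (b' r)) * ∏ s, g (j s) (j' s))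
      = ∑ j : Fin l → Fin n, ∑ b : Fin D → Fin n,
        T i j (fun r => (c r, b r, a r)) * ((∏ r, g (b r) (b' r)) * ∏ s, g (j s) (j' s)) :=
        Finset.sum_comm
    _ = ∑ j : Fin l → Fin n, ∑ a' : Fin D → Fin n, ∑ i' : Fin l → Fin n, ∑ k : Fin l → Fin n,
          ((∏ r, g (a r) (a' r)) * (∏ s, g (i s) (i' s)) *
            T i' k (fun r => (c r, b' r, a' r))) * ((∏ s, h (k s) (j s)) * ∏ s, g (j s) (j' s)) := by
        refine Finset.sum_congr rfl fun j _ => ?_
        have e2 : ∑ b : Fin D → Fin n,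
            T i j (fun r => (c r, b r, a r)) * ((∏ r, g (b r) (b' r)) * ∏ s, g (j s) (j' s)) =
            (∑ b : Fin D → Fin n, T i j (fun r => (c r, b r, a r)) * ∏ r, g (b r) (b' r)) *
              ∏ s, g (j s) (j' s) := by
          rw [Finset.sum_mul]
          refine Finset.sum_congr rfl fun b _ => ?_
          ring
        rw [e2, step1, Finset.sum_mul]
        refine Finset.sum_congr rfl fun a' _ => ?_
        rw [Finset.sum_mul]
        refine Finset.sum_congr rfl fun i' _ => ?_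
        rw [Finset.sum_mul]
        refine Finset.sum_congr rfl fun k _ => ?_
        ring
    _ = ∑ a' : Fin D → Fin n, ∑ i' : Fin l → Fin n, ∑ k : Fin l → Fin n, ∑ j : Fin l → Fin n,
          ((∏ r, g (a r) (a' r)) * (∏ s, g (i s) (i' s)) *
            T i' k (fun r => (c r, b' r, a' r))) * ((∏ s, h (k s) (j s)) * ∏ s, g (j s) (j' s)) := by
        rw [Finset.sum_comm]
        refine Finset.sum_congr rfl fun a' _ => ?_
        rw [Finset.sum_comm]
        refine Finset.sum_congr rfl fun i' _ => ?_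
        rw [Finset.sum_comm]
    _ = _ := by
        refine Finset.sum_congr rfl fun a' _ => Finset.sum_congr rfl fun i' _ => ?_
        simp only [← Finset.mul_sum, cm_delta h g hhg]
        simp only [mul_ite, mul_one, mul_zero]
        rw [Finset.sum_ite_eq' Finset.univ j']
        simp

end Pool.Agent.AVH
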