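import Pool.Agent.AVH.St

/-!
# AVH: values at diagonal pairs
-/

set_option autoImplicit false

noncomputable section

namespace Pool.Agent.AVH

open Matrix

/-- two proportional rows -/
theorem ev_prop {ι : Type} [Fintype ι] [DecidableEq ι] (M : Matrix ι ι ℂ) (v : ι → ℂ) (x y : ℂ)
    (r1 r2 : ι) (h : r1 ≠ r2) (h1 : M r1 = x • v) (h2 : M r2 = y • v) : M.det = 0 := by
  have e : M = ((M.updateRow r1 (x • v)).updateRow r2 (y • v)) := by
    rw [← h1, Matrix.updateRow_eq_self, ← h2, Matrix.updateRow_eq_self]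
  rw [e, Matrix.det_updateRow_smul, Matrix.updateRow_comm _ h, Matrix.det_updateRow_smul]
  rw [Matrix.det_zero_of_row_eq h, mul_zero, mul_zero]
  rw [Matrix.updateRow_self, Matrix.updateRow_ne h.symm, Matrix.updateRow_self]

/-- the matrix -/
def ev_mat {ι β : Type} [DecidableEq ι] [DecidableEq β] (ρ : ι → β) (D : ι → ℂ)
    (τ : Equiv.Perm ι) (c0 : ι) : Matrix ι ι ℂ :=
  fun r c => if c = c0 then (if r = τ c0 then 1 else 0) else
    D r * (if ρ r = ρ (τ c) then 1 else 0)

/-- the determinant, if the indices are different -/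
theorem ev_det1 {ι β : Type} [Fintype ι] [DecidableEq ι] [DecidableEq β] (ρ : ι → β) (D : ι → ℂ)
    (τ : Equiv.Perm ι) (c0 : ι)
    (h : ∀ r r', r ≠ τ c0 → r' ≠ τ c0 → ρ r = ρ r' → r = r') :
    (ev_mat ρ D τ c0).det =
      ((Equiv.Perm.sign τ : ℤ) : ℂ) * ∏ r ∈ Finset.univ.erase (τ c0), D r := by
  rw [Matrix.det_apply', Finset.sum_eq_single τ]
  · congr 1
    rw [← Finset.mul_prod_erase Finset.univ _ (Finset.mem_univ c0)]
    have h1 : ev_mat ρ D τ c0 (τ c0) c0 = 1 := by
      simp [ev_mat]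
    rw [h1, one_mul]
    refine Finset.prod_bij (fun c _ => τ c) ?_ ?_ ?_ ?_
    · intro c hc
      rw [Finset.mem_erase] at hc ⊢
      exact ⟨fun e => hc.1 (τ.injective e), Finset.mem_univ _⟩
    · intro c _ c' _ e
      exact τ.injective e
    · intro r hr
      rw [Finset.mem_erase] at hr
      refine ⟨τ.symm r, ?_, τ.apply_symm_apply r⟩
      rw [Finset.mem_erase]
      refine ⟨fun e => hr.1 ?_, Finset.mem_univ _⟩
      rw [← e, τ.apply_symm_apply]
    · intro c hc
      rw [Finset.mem_erase] at hc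
      simp [ev_mat, hc.1]
  · intro σ _ hσ
    by_contra hne
    have h0 := right_ne_zero_of_mul hne
    rw [Finset.prod_ne_zero_iff] at h0
    apply hσ
    have h1 : σ c0 = τ c0 := by
      by_contra h2
      apply h0 c0 (Finset.mem_univ _)
      simp [ev_mat, h2]
    ext c
    by_cases hc : c = c0
    · rw [hc, h1]
    · have h2 := h0 c (Finset.mem_univ _)
      have h3 : ρ (σ c) = ρ (τ c) := by
        by_contra h4
        apply h2
        simp [ev_mat, hc, h4]
      refine h _ _ ?_ ?_ h3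
      · rw [← h1]
        exact fun e => hc (σ.injective e)
      · exact fun e => hc (τ.injective e)
  · intro h1
    exact absurd (Finset.mem_univ _) h1

/-- the determinant, if two indices are equal -/
theorem ev_det0 {ι β : Type} [Fintype ι] [DecidableEq ι] [DecidableEq β] (ρ : ι → β) (D : ι → ℂ)
    (τ : Equiv.Perm ι) (c0 : ι) (r r' : ι) (h1 : r ≠ τ c0) (h2 : r' ≠ τ c0) (h3 : ρ r = ρ r')
    (h4 : r ≠ r') : (ev_mat ρ D τ c0).det = 0 := by
  refine ev_prop _ (fun c => if c = c0 then 0 else if ρ r = ρ (τ c) then 1 else 0) (D r) (D r')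
    r r' h4 ?_ ?_
  · funext c
    by_cases hc : c = c0
    · simp [ev_mat, hc, h1]
    · simp [ev_mat, hc]
  · funext c
    by_cases hc : c = c0
    · simp [ev_mat, hc, h2]
    · simp [ev_mat, hc, h3]

/-- the monomials of diagonal matrices -/
theorem ev_mon {n : ℕ} (P : Fin n → Fin 2 → ℂ) (e : ℕ × ℕ) :
    mon (dg P 0) (dg P 1) e = Matrix.diagonal fun x => P x 0 ^ e.1 * P x 1 ^ e.2 := by
  unfold mon dg
  rw [Matrix.diagonal_pow, Matrix.diagonal_pow, Matrix.diagonal_mul_diagonal]
  rfl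

/-- the value of `GG` at a monomial -/
theorem ev_GG {n K q : ℕ} {R : Type} [CommRing R] [Algebra ℂ R] (X Y : Matrix (Fin n) (Fin n) R)
    (s : Fin (q + 1)) (d : (Fin K ⊕ Fin (q + 1)) × Fin 2 →₀ ℕ) :
    GG X Y s (MvPolynomial.monomial d 1 : Cf K (q + 1)) =
      GT s (fun t => mon X Y (d (Sum.inl t, 0), d (Sum.inl t, 1)))
        (fun r => mon X Y (d (Sum.inr r, 0), d (Sum.inr r, 1))) := by
  have h := (MvPolynomial.basisMonomials ((Fin K ⊕ Fin (q + 1)) × Fin 2) ℂ).constr_basis ℂ
    (fun d : (Fin K ⊕ Fin (q + 1)) × Fin 2 →₀ ℕ =>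
      GT s (fun t => mon X Y (d (Sum.inl t, 0), d (Sum.inl t, 1)))
        (fun r => mon X Y (d (Sum.inr r, 0), d (Sum.inr r, 1)))) d
  rw [MvPolynomial.coe_basisMonomials] at h
  exact h

/-- the points of `b` and the other points of `i` are all points -/
theorem ev_surj {n K q : ℕ} (hn : K + q = n) (s : Fin (q + 1)) (i : Fin (q + 1) → Fin n)
    (b : Fin K → Fin n) (hi : ∀ r r', r ≠ s → r' ≠ s → i r = i r' → r = r')
    (hb : Function.Injective b) (hbi : ∀ p r, r ≠ s → b p ≠ i r) (x : Fin n)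
    (hx : ∀ r, r ≠ s → x ≠ i r) : ∃ p, b p = x := by
  let f : Fin K ⊕ {r : Fin (q + 1) // r ≠ s} → Fin n := Sum.elim b fun r => i r
  have hf : Function.Injective f := by
    rintro (p | r) (p' | r') e
    · exact congrArg Sum.inl (hb e)
    · exact absurd e (hbi p r' r'.2)
    · exact absurd e.symm (hbi p' r r.2)
    · exact congrArg Sum.inr (Subtype.ext (hi _ _ r.2 r'.2 e))
  have hc : Fintype.card (Fin K ⊕ {r : Fin (q + 1) // r ≠ s}) = Fintype.card (Fin n) := by
    rw [Fintype.card_sum, Fintype.card_fin, Fintype.card_fin, Fintype.card_subtype_compl,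
      Fintype.card_fin, Fintype.card_subtype_eq]
    omega
  obtain ⟨y, hy⟩ := ((Fintype.bijective_iff_injective_and_card f).2 ⟨hf, hc⟩).2 x
  rcases y with p | r
  · exact ⟨p, hy⟩
  · exact absurd hy.symm (hx r r.2)

/-- the sum over the permutations -/
theorem ev_sum {n K q : ℕ} (hn : K + q = n) (s : Fin (q + 1)) (i : Fin (q + 1) → Fin n)
    (b : Fin K → Fin n) (hi : ∀ r r', r ≠ s → r' ≠ s → i r = i r' → r = r')
    (hb : Function.Injective b) (hbi : ∀ p r, r ≠ s → b p ≠ i r)
    (g : (Fin K → Fin n) → ℂ)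
    (h0 : ∀ α, (¬ ∀ r r' : Fin K ⊕ Fin (q + 1), r ≠ Sum.inr s → r' ≠ Sum.inr s →
        Sum.elim α i r = Sum.elim α i r' → r = r') → g α = 0) :
    ∑ α : Fin K → Fin n, g α = ∑ π : Equiv.Perm (Fin K), g (b ∘ π) := by
  symm
  refine Finset.sum_of_injOn (fun π : Equiv.Perm (Fin K) => b ∘ π) ?_ ?_ ?_ ?_
  · intro π _ π' _ e
    ext t
    have := congrFun e t
    exact congrArg Fin.val (hb this)
  · intro π _
    simp
  · intro α _ hα
    apply h0
    intro hc
    apply hα
    have h1 : ∀ t, ∃ p, b p = α t := fun t =>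
      ev_surj hn s i b hi hb hbi (α t) fun r hr e => by
        have := hc (Sum.inl t) (Sum.inr r) (by simp) (by simpa using hr) e
        exact absurd this (by simp)
    choose π hπ using h1
    have h2 : Function.Injective π := by
      intro t t' e
      have h3 : α t = α t' := by rw [← hπ, ← hπ, e]
      have := hc (Sum.inl t) (Sum.inl t') (by simp) (by simp) h3
      simpa using this
    refine ⟨Equiv.ofBijective π (Finite.injective_iff_bijective.1 h2), by simp, ?_⟩
    funext t
    exact hπ t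
  · intro π _
    rfl

/-- the indices `b ∘ π`, `i` are different -/
theorem ev_inj {n K q : ℕ} (s : Fin (q + 1)) (i : Fin (q + 1) → Fin n)
    (b : Fin K → Fin n) (hi : ∀ r r', r ≠ s → r' ≠ s → i r = i r' → r = r')
    (hb : Function.Injective b) (hbi : ∀ p r, r ≠ s → b p ≠ i r) (π : Equiv.Perm (Fin K)) :
    ∀ r r' : Fin K ⊕ Fin (q + 1), r ≠ Sum.inr s → r' ≠ Sum.inr s →
        Sum.elim (b ∘ π) i r = Sum.elim (b ∘ π) i r' → r = r' := by
  rintro (t | r) (t' | r') h1 h2 e
  · exact congrArg Sum.inl (π.injective (hb e))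
  · exact absurd e (hbi _ _ fun h => h2 (by rw [h]))
  · exact absurd e.symm (hbi _ _ fun h => h1 (by rw [h]))
  · exact congrArg Sum.inr (hi _ _ (fun h => h1 (by rw [h])) (fun h => h2 (by rw [h])) e)

/-- the value of a tensor with monomial matrices at a diagonal pair -/
theorem ev_val {n K q : ℕ} (hn : K + q = n) (s : Fin (q + 1)) (i : Fin (q + 1) → Fin n)
    (b : Fin K → Fin n) (hi : ∀ r r', r ≠ s → r' ≠ s → i r = i r' → r = r')
    (hb : Function.Injective b) (hbi : ∀ p r, r ≠ s → b p ≠ i r) (P : Fin n → Fin 2 → ℂ)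
    (d : (Fin K ⊕ Fin (q + 1)) × Fin 2 →₀ ℕ) :
    GG (dg P 0) (dg P 1) s (MvPolynomial.monomial d 1 : Cf K (q + 1)) i
        (fun r => i (Equiv.swap 0 s r)) =
      ((Equiv.Perm.sign (Equiv.sumCongr (Equiv.refl (Fin K)) (Equiv.swap 0 s)) : ℤ) : ℂ) *
        ∑ π : Equiv.Perm (Fin K), MvPolynomial.eval (fun o => P (Sum.elim (b ∘ π) i o.1) o.2)
          (MvPolynomial.monomial d 1 : Cf K (q + 1)) := by
  classical
  rw [ev_GG]
  unfold GT CO
  set τ : Equiv.Perm (Fin K ⊕ Fin (q + 1)) :=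
    Equiv.sumCongr (Equiv.refl (Fin K)) (Equiv.swap 0 s) with hτ
  have hτ0 : τ (Sum.inr 0) = Sum.inr s := by simp [hτ]
  let D : Fin K ⊕ Fin (q + 1) → Fin n → ℂ := fun r x => P x 0 ^ d (r, 0) * P x 1 ^ d (r, 1)
  have hM : ∀ α : Fin K → Fin n, (Mt (fun t => mon (dg P 0) (dg P 1)
      (d (Sum.inl t, 0), d (Sum.inl t, 1))) (fun r => mon (dg P 0) (dg P 1)
        (d (Sum.inr r, 0), d (Sum.inr r, 1))) i
      (bs fun r => i (Equiv.swap 0 s r)) α).updateCol (Sum.inr 0) (Pi.single (Sum.inr s) 1) =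
      ev_mat (Sum.elim α i) (fun r => D r (Sum.elim α i r)) τ (Sum.inr 0) := by
    intro α
    ext r c
    by_cases hc : c = Sum.inr 0
    · subst hc
      rw [Matrix.updateCol_self]
      unfold ev_mat
      rw [if_pos rfl, hτ0, Pi.single_apply]
    · rw [Matrix.updateCol_ne hc]
      unfold ev_mat
      rw [if_neg hc]
      unfold Mt
      have h1 : (Sum.elim (fun t => mon (dg P 0) (dg P 1)
          (d (Sum.inl t, 0), d (Sum.inl t, 1))) (fun r => mon (dg P 0) (dg P 1)
          (d (Sum.inr r, 0), d (Sum.inr r, 1))) r) = Matrix.diagonal (D r) := by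
        rcases r with t | r
        · exact ev_mon P _
        · exact ev_mon P _
      have h2 : (Sum.elim (fun t => Pi.single (α t) 1) (bs fun r => i (Equiv.swap 0 s r)) c :
          Fin n → ℂ) = Pi.single (Sum.elim α i (τ c)) 1 := by
        rcases c with t | c
        · rfl
        · rfl
      rw [h1, h2, Matrix.mulVec_diagonal, Pi.single_apply]
  rw [ev_sum hn s i b hi hb hbi]
  · rw [Finset.mul_sum, Finset.mul_sum]
    refine Finset.sum_congr rfl fun π _ => ?_
    rw [hM, ev_det1 _ _ _ _ (by rw [hτ0]; exact ev_inj s i b hi hb hbi π), hτ0]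
    have h3 : mon (dg P 0) (dg P 1) (d (Sum.inr s, 0), d (Sum.inr s, 1)) (i s)
        (i (Equiv.swap 0 s 0)) = D (Sum.inr s) (i s) := by
      rw [ev_mon, Equiv.swap_apply_left, Matrix.diagonal_apply_eq]
    change mon (dg P 0) (dg P 1) (d (Sum.inr s, 0), d (Sum.inr s, 1)) (i s)
      (i (Equiv.swap 0 s 0)) * _ = _
    rw [h3, MvPolynomial.eval_monomial, one_mul]
    have h4 : (d.prod fun o e => (P (Sum.elim (b ∘ π) i o.1) o.2) ^ e) =
        ∏ r, D r (Sum.elim (b ∘ π) i r) := by
      rw [Finsupp.prod_fintype _ _ (fun _ => pow_zero _), Fintype.prod_prod_type]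
      refine Finset.prod_congr rfl fun r _ => ?_
      rw [Fin.prod_univ_two]
    rw [h4, ← Finset.mul_prod_erase Finset.univ _ (Finset.mem_univ (Sum.inr s))]
    simp only [Sum.elim_inr]
    ring
  · intro α hα
    rw [hM]
    push Not at hα
    obtain ⟨r, r', h1, h2, h3, h4⟩ := hα
    exact ev_det0 _ _ _ _ r r' (by rwa [hτ0]) (by rwa [hτ0]) h3 h4

/-- **Ev.** -/
theorem thm_Ev : St_Ev := by
  intro n K q hn s i b hi hb hbi
  set τ : Equiv.Perm (Fin K ⊕ Fin (q + 1)) :=
    Equiv.sumCongr (Equiv.refl (Fin K)) (Equiv.swap 0 s) with hτ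
  refine ⟨((Equiv.Perm.sign τ : ℤ) : ℂ) * (K.factorial : ℂ), ?_, fun P h hs => ?_⟩
  · refine mul_ne_zero ?_ (Nat.cast_ne_zero.2 (Nat.factorial_ne_zero K))
    rcases Int.units_eq_one_or (Equiv.Perm.sign τ) with e | e <;> rw [e] <;> norm_num
  · have h1 : ∀ h : Cf K (q + 1), GG (dg P 0) (dg P 1) s h i (fun r => i (Equiv.swap 0 s r)) =
        ((Equiv.Perm.sign τ : ℤ) : ℂ) * ∑ π : Equiv.Perm (Fin K),
          MvPolynomial.eval (fun o => P (Sum.elim (b ∘ π) i o.1) o.2) h := by
      intro h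
      induction h using MvPolynomial.induction_on' with
      | monomial d a =>
        have e : (MvPolynomial.monomial d a : Cf K (q + 1)) =
            a • MvPolynomial.monomial d 1 := by
          rw [MvPolynomial.smul_monomial, smul_eq_mul, mul_one]
        rw [e, map_smul]
        have h2 := ev_val hn s i b hi hb hbi P d
        simp only [Pi.smul_apply, smul_eq_mul, MvPolynomial.smul_eval]
        rw [h2, ← Finset.mul_sum]
        ring
      | add p p' hp hp' =>
        rw [map_add]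
        simp only [Pi.add_apply, map_add]
        rw [hp, hp', Finset.sum_add_distrib]
        ring
    rw [h1]
    have h2 : ∀ π : Equiv.Perm (Fin K),
        MvPolynomial.eval (fun o => P (Sum.elim (b ∘ π) i o.1) o.2) h =
          MvPolynomial.eval (fun o => P (Sum.elim b i o.1) o.2) h := by
      intro π
      conv_rhs => rw [← hs π]
      unfold sb
      rw [MvPolynomial.eval_rename]
      congr 2
      funext o
      obtain ⟨r, c⟩ := o
      rcases r with t | r <;> rfl
    rw [Finset.sum_congr rfl fun π _ => h2 π, Finset.sum_const, Finset.card_univ,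
      Fintype.card_perm, Fintype.card_fin, nsmul_eq_mul, mul_assoc]

end Pool.Agent.AVH
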