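import Pool.Agent.AVH.St

/-!
# AVH: expansion along the column `inr 0`
-/

set_option autoImplicit false

noncomputable section

namespace Pool.Agent.AVH

open Matrix

/-- Expansion of a determinant along a column. -/
theorem exp_col {ι R : Type} [Fintype ι] [DecidableEq ι] [CommRing R] (A : Matrix ι ι R) (c : ι) :
    A.det = ∑ r, A r c * (A.updateCol c (Pi.single r 1)).det := by
  have h1 : A.det = A.cramer (fun r => A r c) c := by
    rw [cramer_apply, updateCol_eq_self]
  have h2 : (fun r => A r c) = ∑ r, A r c • (Pi.single r 1 : ι → R) := by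
    funext s
    rw [Finset.sum_apply, Finset.sum_eq_single s]
    · simp
    · intro r _ hr
      simp [Pi.single_eq_of_ne (Ne.symm hr)]
    · intro h
      exact absurd (Finset.mem_univ s) h
  rw [h1, h2, map_sum, Finset.sum_apply]
  refine Finset.sum_congr rfl fun r _ => ?_
  rw [map_smul, Pi.smul_apply, cramer_apply, smul_eq_mul]

section

variable {n k q : ℕ} {R : Type} [CommRing R]

theorem exp_upd (a : Fin k → Matrix (Fin n) (Fin n) R)
    (m : Fin (q + 1) → Matrix (Fin n) (Fin n) R) (i : Fin (q + 1) → Fin n)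
    (v : Fin (q + 1) → Fin n → R) (w : Fin n → R) (α : Fin k → Fin n) :
    Mt a m i (Function.update v 0 w) α = (Mt a m i v α).updateCol (Sum.inr 0)
      (fun r => (Sum.elim a m r *ᵥ w) (Sum.elim α i r)) := by
  ext r c
  rcases c with c | c
  · rw [updateCol_ne (by simp)]
    rfl
  · by_cases hc : c = 0
    · subst hc
      rw [updateCol_self]
      simp [Mt]
    · rw [updateCol_ne (fun h => hc (Sum.inr_injective h))]
      simp [Mt, Function.update_of_ne hc]

/-- Linearity in the vector number `0`. -/
theorem exp_lin (a : Fin k → Matrix (Fin n) (Fin n) R)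
    (m : Fin (q + 1) → Matrix (Fin n) (Fin n) R) (i : Fin (q + 1) → Fin n)
    (v : Fin (q + 1) → Fin n → R) (w : Fin n → R) (α : Fin k → Fin n) :
    (Mt a m i (Function.update v 0 w) α).det =
      ∑ x, w x * (Mt a m i (Function.update v 0 (Pi.single x 1)) α).det := by
  have h1 : (fun r => (Sum.elim a m r *ᵥ w) (Sum.elim α i r)) =
      ∑ x, w x • fun r => (Sum.elim a m r *ᵥ (Pi.single x 1 : Fin n → R)) (Sum.elim α i r) := by
    funext r
    rw [Finset.sum_apply]
    simp only [Pi.smul_apply, smul_eq_mul, mulVec_single_one, col_apply]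
    rw [mulVec, dotProduct]
    exact Finset.sum_congr rfl fun x _ => mul_comm _ _
  rw [exp_upd, ← cramer_apply, h1, map_sum, Finset.sum_apply]
  refine Finset.sum_congr rfl fun x _ => ?_
  rw [map_smul, Pi.smul_apply, cramer_apply, smul_eq_mul, ← exp_upd]

/-- The rows: the row number `t` is separated. -/
def exp_e (k q : ℕ) (t : Fin (k + 1)) : Unit ⊕ (Fin k ⊕ Fin (q + 1)) ≃ Fin (k + 1) ⊕ Fin (q + 1) :=
  Equiv.ofBijective (Sum.elim (fun _ => Sum.inl t)
    (Sum.elim (fun t' => Sum.inl (t.succAbove t')) Sum.inr)) (by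
    constructor
    · rintro (x | x | x) (y | y | y) h
      · rfl
      · exact absurd (Sum.inl_injective h).symm (Fin.succAbove_ne t y)
      · exact absurd h (by simp)
      · exact absurd (Sum.inl_injective h) (Fin.succAbove_ne t x)
      · have h1 := Fin.succAbove_right_injective (Sum.inl_injective h)
        rw [h1]
      · exact absurd h (by simp)
      · exact absurd h (by simp)
      · exact absurd h (by simp)
      · have h1 : x = y := Sum.inr_injective h
        rw [h1]
    · rintro (x | x)
      · rcases Fin.eq_self_or_eq_succAbove t x with h | ⟨y, h⟩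
        · exact ⟨Sum.inl (), by rw [h]; rfl⟩
        · exact ⟨Sum.inr (Sum.inl y), by rw [h]; rfl⟩
      · exact ⟨Sum.inr (Sum.inr x), rfl⟩)

theorem exp_key (a : Fin (k + 1) → Matrix (Fin n) (Fin n) R)
    (m : Fin (q + 1) → Matrix (Fin n) (Fin n) R) (i : Fin (q + 1) → Fin n)
    (v : Fin (q + 1) → Fin n → R) (t : Fin (k + 1)) (x : Fin n) (α : Fin k → Fin n) :
    ((Mt a m i v (t.insertNth x α : Fin (k + 1) → Fin n)).updateCol (Sum.inr 0)
      (Pi.single (Sum.inl t) 1)).det =
    -(Mt (fun t' => a (t.succAbove t')) m i (Function.update v 0 (Pi.single x 1)) α).det := by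
  obtain ⟨β, hβ⟩ : ∃ β : Fin (k + 1) → Fin n, β = t.insertNth x α := ⟨_, rfl⟩
  have hβt : β t = x := by rw [hβ, Fin.insertNth_apply_same]
  have hβs : ∀ t', β (t.succAbove t') = α t' := fun t' => by
    rw [hβ, Fin.insertNth_apply_succAbove]
  rw [← hβ]
  clear hβ
  obtain ⟨A, hA⟩ : ∃ A, A = (Mt a m i v β).updateCol (Sum.inr 0)
      (Pi.single (Sum.inl t) 1) := ⟨_, rfl⟩
  rw [← hA]
  have hne : (Sum.inl t : Fin (k + 1) ⊕ Fin (q + 1)) ≠ Sum.inr 0 := by simp
  have h1 : (A.submatrix id (Equiv.swap (Sum.inl t) (Sum.inr 0))).det = -A.det := by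
    rw [det_permute', Equiv.Perm.sign_swap hne]
    simp
  have h2 := det_submatrix_equiv_self (exp_e k q t)
    (A.submatrix id (Equiv.swap (Sum.inl t) (Sum.inr 0)))
  have h3 : (A.submatrix id (Equiv.swap (Sum.inl t) (Sum.inr 0))).submatrix
      (exp_e k q t) (exp_e k q t) = fromBlocks (1 : Matrix Unit Unit R)
      (fun _ c => A (Sum.inl t) (Equiv.swap (Sum.inl t) (Sum.inr 0) (exp_e k q t (Sum.inr c))))
      0 (Mt (fun t' => a (t.succAbove t')) m i (Function.update v 0 (Pi.single x 1)) α) := by
    have hnone : ∀ r, A r (Equiv.swap (Sum.inl t) (Sum.inr 0) (Sum.inl t)) =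
        (Pi.single (Sum.inl t) 1 : Fin (k + 1) ⊕ Fin (q + 1) → R) r := by
      intro r
      rw [Equiv.swap_apply_left, hA, updateCol_self]
    have hrow : ∀ r (z : Fin n → R), (Sum.elim a m (exp_e k q t (Sum.inr r)) *ᵥ z)
        (Sum.elim β i (exp_e k q t (Sum.inr r))) =
        (Sum.elim (fun t' => a (t.succAbove t')) m r *ᵥ z) (Sum.elim α i r) := by
      rintro (r | r) z
      · change (a (t.succAbove r) *ᵥ z) (β (t.succAbove r)) = (a (t.succAbove r) *ᵥ z) (α r)
        rw [hβs]
      · rfl
    ext r c
    rcases c with c | c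
    · rcases r with r | r
      · change A (Sum.inl t) (Equiv.swap (Sum.inl t) (Sum.inr 0) (Sum.inl t)) = _
        rw [hnone, Pi.single_eq_same]
        simp
      · change A (exp_e k q t (Sum.inr r)) (Equiv.swap (Sum.inl t) (Sum.inr 0) (Sum.inl t)) = 0
        rw [hnone, Pi.single_eq_of_ne]
        intro h
        have h' : exp_e k q t (Sum.inr r) = exp_e k q t (Sum.inl ()) := h
        exact absurd ((exp_e k q t).injective h') (by simp)
    · rcases r with r | r
      · rfl
      · change A (exp_e k q t (Sum.inr r)) (Equiv.swap (Sum.inl t) (Sum.inr 0)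
          (exp_e k q t (Sum.inr c))) = _
        rw [fromBlocks_apply₂₂]
        rcases c with c | c
        · have e1 : Equiv.swap (Sum.inl t) (Sum.inr 0 : Fin (k + 1) ⊕ Fin (q + 1))
              (exp_e k q t (Sum.inr (Sum.inl c))) = Sum.inl (t.succAbove c) := by
            change Equiv.swap (Sum.inl t) (Sum.inr 0) (Sum.inl (t.succAbove c)) = _
            refine Equiv.swap_apply_of_ne_of_ne ?_ (by simp)
            intro h
            exact Fin.succAbove_ne t c (Sum.inl_injective h)
          rw [e1, hA, updateCol_ne (by simp)]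
          change (Sum.elim a m (exp_e k q t (Sum.inr r)) *ᵥ
            (Pi.single (β (t.succAbove c)) 1 : Fin n → R)) _ = _
          rw [hrow, hβs]
          rfl
        · by_cases hc : c = 0
          · subst hc
            have e1 : Equiv.swap (Sum.inl t) (Sum.inr 0 : Fin (k + 1) ⊕ Fin (q + 1))
                (exp_e k q t (Sum.inr (Sum.inr 0))) = Sum.inl t := by
              change Equiv.swap (Sum.inl t) (Sum.inr 0) (Sum.inr 0) = _
              exact Equiv.swap_apply_right _ _
            rw [e1, hA, updateCol_ne (by simp)]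
            change (Sum.elim a m (exp_e k q t (Sum.inr r)) *ᵥ
              (Pi.single (β t) 1 : Fin n → R)) _ = _
            rw [hrow, hβt]
            simp [Mt]
          · have e1 : Equiv.swap (Sum.inl t) (Sum.inr 0 : Fin (k + 1) ⊕ Fin (q + 1))
                (exp_e k q t (Sum.inr (Sum.inr c))) = Sum.inr c := by
              change Equiv.swap (Sum.inl t) (Sum.inr 0) (Sum.inr c) = _
              refine Equiv.swap_apply_of_ne_of_ne (by simp) ?_
              intro h
              exact hc (Sum.inr_injective h)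
            rw [e1, hA, updateCol_ne (fun h => hc (Sum.inr_injective h))]
            change (Sum.elim a m (exp_e k q t (Sum.inr r)) *ᵥ v c) _ = _
            rw [hrow]
            simp [Mt, Function.update_of_ne hc]
  rw [h3, det_fromBlocks_zero₂₁, det_one, one_mul] at h2
  rw [h2, h1, neg_neg]

end

theorem thm_Exp : St_Exp := by
  intro n k q R _ m i v
  constructor
  · intro a
    unfold XI CO
    simp only [Finset.mul_sum]
    rw [Finset.sum_comm]
    refine Finset.sum_congr rfl fun α _ => ?_
    rw [exp_col _ (Sum.inr 0), Fintype.sum_sum_type, Finset.univ_eq_empty, Finset.sum_empty,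
      zero_add]
    rfl
  · intro a
    have h1 : ∀ α : Fin (k + 1) → Fin n, (Mt a m i v α).det =
        (∑ t, (a t *ᵥ v 0) (α t) * ((Mt a m i v α).updateCol (Sum.inr 0)
          (Pi.single (Sum.inl t) 1)).det) +
        ∑ s, (m s *ᵥ v 0) (i s) * ((Mt a m i v α).updateCol (Sum.inr 0)
          (Pi.single (Sum.inr s) 1)).det := by
      intro α
      rw [exp_col _ (Sum.inr 0), Fintype.sum_sum_type]
      rfl
    have h2 : ∀ t : Fin (k + 1), ∑ α : Fin (k + 1) → Fin n, (a t *ᵥ v 0) (α t) *
        ((Mt a m i v α).updateCol (Sum.inr 0) (Pi.single (Sum.inl t) 1)).det =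
        -XI (fun t' => a (t.succAbove t')) m i (Function.update v 0 (a t *ᵥ v 0)) := by
      intro t
      rw [← (Fin.insertNthEquiv (fun _ : Fin (k + 1) => Fin n) t).sum_comp,
        Fintype.sum_prod_type_right, XI, ← Finset.sum_neg_distrib]
      refine Finset.sum_congr rfl fun α _ => ?_
      rw [exp_lin, ← Finset.sum_neg_distrib]
      refine Finset.sum_congr rfl fun x _ => ?_
      have e1 : (Fin.insertNthEquiv (fun _ : Fin (k + 1) => Fin n) t) (x, α) =
          t.insertNth x α := rfl
      rw [e1, exp_key, Fin.insertNth_apply_same, mul_neg]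
    unfold XI at h2 ⊢
    rw [Finset.sum_congr rfl fun α _ => h1 α, Finset.sum_add_distrib, Finset.sum_comm,
      Finset.sum_congr rfl fun t _ => h2 t, Finset.sum_neg_distrib, neg_add_eq_sub]
    congr 1
    rw [Finset.sum_comm]
    refine Finset.sum_congr rfl fun s _ => ?_
    rw [CO, Finset.mul_sum]

end Pool.Agent.AVH
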