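import Pool.Agent.AVH.St

/-!
# AVH: the first fundamental theorem
-/

set_option autoImplicit false

noncomputable section

namespace Pool.Agent.AVH

open Matrix

/-- double sums -/
private theorem fft_sum {D l n : ℕ} {R : Type} [AddCommMonoid R] (f : (Fin D ⊕ Fin l → Fin n) → R) :
    ∑ t : Fin D ⊕ Fin l → Fin n, f t =
      ∑ b : Fin D → Fin n, ∑ j : Fin l → Fin n, f (Sum.elim b j) := by
  rw [← Fintype.sum_prod_type']
  refine Fintype.sum_equiv (Equiv.sumArrowEquivProdArrow (Fin D) (Fin l) (Fin n)) _ _ fun t => ?_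
  congr 1
  funext r
  cases r <;> rfl

/-- triple sums -/
private theorem fft_tri {D n : ℕ} {R : Type} [AddCommMonoid R] (f : (Fin D → Vr n) → R) :
    ∑ u : Fin D → Vr n, f u =
      ∑ c : Fin D → Fin 2, ∑ a : Fin D → Fin n, ∑ b : Fin D → Fin n, f (fun r => (c r, b r, a r)) := by
  rw [← Fintype.sum_prod_type' (f := fun (c : Fin D → Fin 2) (p : (Fin D → Fin n)) =>
    ∑ b : Fin D → Fin n, f (fun r => (c r, b r, p r)))]
  rw [← Fintype.sum_prod_type' (f := fun (x : (Fin D → Fin 2) × (Fin D → Fin n)) (b : Fin D → Fin n) =>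
    f (fun r => (x.1 r, b r, x.2 r)))]
  symm
  refine Fintype.sum_equiv ⟨fun x => fun r => (x.1.1 r, x.2 r, x.1.2 r),
    fun u => ((fun r => (u r).1, fun r => (u r).2.2), fun r => (u r).2.1), fun x => rfl, fun u => rfl⟩
    _ _ fun x => rfl

/-- the contraction as a sum over `a` and `b` -/
private theorem fft_gam {D l n : ℕ} (π : Equiv.Perm (Fin D ⊕ Fin l)) (c : Fin D → Fin 2)
    (i j : Fin l → Fin n) :
    ∑ a : Fin D → Fin n, ∑ b : Fin D → Fin n,
      (∏ r, (if (Sum.elim a i : Fin D ⊕ Fin l → Fin n) r = (Sum.elim b j : Fin D ⊕ Fin l → Fin n) (π r)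
        then (1 : Sn n) else 0)) * ∏ r, (MvPolynomial.X (c r, b r, a r) : Sn n) =
    Gam π⁻¹ (Sum.elim (fun r => zM n (c r)) fun _ => 1) i j := by
  unfold Gam
  refine Finset.sum_congr rfl fun a _ => ?_
  have h1 : ∀ b : Fin D → Fin n,
      (∏ r, (if (Sum.elim a i : Fin D ⊕ Fin l → Fin n) r = (Sum.elim b j : Fin D ⊕ Fin l → Fin n) (π r)
        then (1 : Sn n) else 0)) =
      (∏ r, (if (Sum.elim a i : Fin D ⊕ Fin l → Fin n) (π⁻¹ (Sum.inl r)) = b r
        then (1 : Sn n) else 0)) *
      ∏ s, (if (Sum.elim a i : Fin D ⊕ Fin l → Fin n) (π⁻¹ (Sum.inr s)) = j s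
        then (1 : Sn n) else 0) := by
    intro b
    rw [← Equiv.prod_comp π⁻¹, Fintype.prod_sum_type]
    simp
  have h2 : ∀ b : Fin D → Fin n,
      (∏ r, (if (Sum.elim a i : Fin D ⊕ Fin l → Fin n) r = (Sum.elim b j : Fin D ⊕ Fin l → Fin n) (π r)
        then (1 : Sn n) else 0)) * ∏ r, (MvPolynomial.X (c r, b r, a r) : Sn n) =
      (∏ r, ((if (Sum.elim a i : Fin D ⊕ Fin l → Fin n) (π⁻¹ (Sum.inl r)) = b r
        then (1 : Sn n) else 0) * MvPolynomial.X (c r, b r, a r))) *
      ∏ s, (if (Sum.elim a i : Fin D ⊕ Fin l → Fin n) (π⁻¹ (Sum.inr s)) = j s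
        then (1 : Sn n) else 0) := by
    intro b
    rw [h1, Finset.prod_mul_distrib]
    ring
  rw [Finset.sum_congr rfl fun b _ => h2 b, ← Finset.sum_mul, Fintype.prod_sum_type]
  congr 1
  · have h3 := Finset.prod_univ_sum (fun _ : Fin D => (Finset.univ : Finset (Fin n)))
      (fun r x => (if (Sum.elim a i : Fin D ⊕ Fin l → Fin n) (π⁻¹ (Sum.inl r)) = x
        then (1 : Sn n) else 0) * MvPolynomial.X (c r, x, a r))
    rw [Fintype.piFinset_univ] at h3
    rw [← h3]
    refine Finset.prod_congr rfl fun r _ => ?_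
    simp [zM]

theorem thm_Fft (hLfa : St_Lfa) (hHc : St_Hc) (hCm : St_Cm) (hCd : St_Cd) : St_Fft := by
  intro n l F hF
  set S : Set (Ten n l (Sn n)) := {G : Ten n l (Sn n) | ∃ (D : ℕ) (π : Equiv.Perm (Fin D ⊕ Fin l))
    (c : Fin D → Fin 2), G = Gam π (Sum.elim (fun r => zM n (c r)) fun _ => 1)} with hS
  -- homogeneous families
  have key : ∀ (D : ℕ) (F : Ten n l (Sn n)), Equi F → (∀ i j, (F i j).IsHomogeneous D) →
      F ∈ Submodule.span ℂ S := by
    intro D F hF hD
    have h1 := fun i j => hLfa (Vr n) D (F i j) (hD i j)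
    choose T hT1 hT2 using h1
    have hF' : Equi fun i j => ∑ u : Fin D → Vr n, MvPolynomial.C (T i j u) * ∏ r, MvPolynomial.X (u r) := by
      have : F = fun i j => ∑ u : Fin D → Vr n, MvPolynomial.C (T i j u) * ∏ r, MvPolynomial.X (u r) := by
        funext i j
        exact hT2 i j
      rw [← this]
      exact hF
    have h2 := hCm n l D T hT1 hF'
    have h3 : ∀ c : Fin D → Fin 2, ∃ cc : Equiv.Perm (Fin D ⊕ Fin l) → ℂ,
        ∀ s t : Fin D ⊕ Fin l → Fin n,
        T (s ∘ Sum.inr) (t ∘ Sum.inr) (fun r => (c r, t (Sum.inl r), s (Sum.inl r))) =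
          ∑ π : Equiv.Perm (Fin D ⊕ Fin l), cc π * ∏ r, (if s r = t (π r) then 1 else 0) := by
      intro c
      refine hCd (Fin D ⊕ Fin l) n (fun s t => T (s ∘ Sum.inr) (t ∘ Sum.inr)
        (fun r => (c r, t (Sum.inl r), s (Sum.inl r)))) ?_
      intro g h hgh s t'
      have h4 := h2 g h hgh c (s ∘ Sum.inr) (t' ∘ Sum.inr) (s ∘ Sum.inl) (t' ∘ Sum.inl)
      rw [fft_sum, fft_sum]
      simp only [Fintype.prod_sum_type, Sum.elim_inl, Sum.elim_inr, Sum.elim_comp_inr]
      exact h4
    choose cc hcc using h3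
    have h5 : F = ∑ c : Fin D → Fin 2, ∑ π : Equiv.Perm (Fin D ⊕ Fin l),
        cc c π • Gam π⁻¹ (Sum.elim (fun r => zM n (c r)) fun _ => 1) := by
      funext i j
      rw [hT2 i j, fft_tri]
      rw [Finset.sum_apply, Finset.sum_apply]
      refine Finset.sum_congr rfl fun c _ => ?_
      rw [Finset.sum_apply, Finset.sum_apply]
      have h6 : ∀ a b : Fin D → Fin n, T i j (fun r => (c r, b r, a r)) =
          ∑ π : Equiv.Perm (Fin D ⊕ Fin l), cc c π * ∏ r,
            (if (Sum.elim a i : Fin D ⊕ Fin l → Fin n) r = (Sum.elim b j : Fin D ⊕ Fin l → Fin n) (π r)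
              then 1 else 0) := by
        intro a b
        have := hcc c (Sum.elim a i) (Sum.elim b j)
        simpa using this
      have h7 : ∀ a b : Fin D → Fin n,
          MvPolynomial.C (T i j (fun r => (c r, b r, a r))) * ∏ r, (MvPolynomial.X (c r, b r, a r) : Sn n) =
          ∑ π : Equiv.Perm (Fin D ⊕ Fin l), MvPolynomial.C (cc c π) * ((∏ r,
            (if (Sum.elim a i : Fin D ⊕ Fin l → Fin n) r = (Sum.elim b j : Fin D ⊕ Fin l → Fin n) (π r)
              then (1 : Sn n) else 0)) * ∏ r, (MvPolynomial.X (c r, b r, a r) : Sn n)) := by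
        intro a b
        rw [h6, map_sum, Finset.sum_mul]
        refine Finset.sum_congr rfl fun π _ => ?_
        rw [map_mul, map_prod, mul_assoc]
        congr 2
        refine Finset.prod_congr rfl fun r _ => ?_
        split_ifs
        · exact map_one _
        · exact map_zero _
      have h8 : ∀ a : Fin D → Fin n, ∑ b : Fin D → Fin n,
          MvPolynomial.C (T i j (fun r => (c r, b r, a r))) * ∏ r, (MvPolynomial.X (c r, b r, a r) : Sn n) =
          ∑ π : Equiv.Perm (Fin D ⊕ Fin l), ∑ b : Fin D → Fin n, MvPolynomial.C (cc c π) * ((∏ r,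
            (if (Sum.elim a i : Fin D ⊕ Fin l → Fin n) r = (Sum.elim b j : Fin D ⊕ Fin l → Fin n) (π r)
              then (1 : Sn n) else 0)) * ∏ r, (MvPolynomial.X (c r, b r, a r) : Sn n)) := by
        intro a
        rw [Finset.sum_congr rfl fun b _ => h7 a b, Finset.sum_comm]
      rw [Finset.sum_congr rfl fun a _ => h8 a, Finset.sum_comm]
      refine Finset.sum_congr rfl fun π _ => ?_
      have h9 : (cc c π • Gam π⁻¹ (Sum.elim (fun r => zM n (c r)) fun _ => 1)) i j =
          MvPolynomial.C (cc c π) * Gam π⁻¹ (Sum.elim (fun r => zM n (c r)) fun _ => 1) i j := by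
        rw [Pi.smul_apply, Pi.smul_apply, MvPolynomial.smul_eq_C_mul]
      rw [h9, ← fft_gam]
      simp only [Finset.mul_sum]
    rw [h5]
    refine Submodule.sum_mem _ fun c _ => Submodule.sum_mem _ fun π _ => Submodule.smul_mem _ _ ?_
    exact Submodule.subset_span ⟨D, π⁻¹, c, rfl⟩
  -- all families
  obtain ⟨N, hN⟩ : ∃ N : ℕ, ∀ i j, (F i j).totalDegree < N := by
    refine ⟨(Finset.univ.sup fun i => Finset.univ.sup fun j => (F i j).totalDegree) + 1, fun i j => ?_⟩
    have h1 : (F i j).totalDegree ≤ Finset.univ.sup fun j => (F i j).totalDegree :=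
      Finset.le_sup (f := fun j => (F i j).totalDegree) (Finset.mem_univ j)
    have h2 : (Finset.univ.sup fun j => (F i j).totalDegree) ≤
        Finset.univ.sup fun i => Finset.univ.sup fun j => (F i j).totalDegree :=
      Finset.le_sup (f := fun i => Finset.univ.sup fun j => (F i j).totalDegree) (Finset.mem_univ i)
    omega
  have h1 : F = ∑ D ∈ Finset.range N, fun i j => MvPolynomial.homogeneousComponent D (F i j) := by
    funext i j
    rw [Finset.sum_apply, Finset.sum_apply]
    have h2 := MvPolynomial.sum_homogeneousComponent (F i j)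
    conv_lhs => rw [← h2]
    refine Finset.sum_subset ?_ ?_
    · intro D hD
      rw [Finset.mem_range] at hD ⊢
      have := hN i j
      omega
    · intro D _ hD
      rw [Finset.mem_range] at hD
      exact MvPolynomial.homogeneousComponent_eq_zero _ _ (by omega)
  rw [h1]
  refine Submodule.sum_mem _ fun D _ => key D _ (hHc n l D F hF) fun i j => ?_
  exact MvPolynomial.homogeneousComponent_isHomogeneous D (F i j)

end Pool.Agent.AVH
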