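import Pool.Agent.AVH.St

/-!
# AVH, Hc: homogeneous components of equivariant families are equivariant
-/

set_option autoImplicit false

noncomputable section

namespace Pool.Agent.AVH

open Matrix

theorem hc_coeff {σ : Type} (a : σ → ℂ) (f : MvPolynomial σ ℂ) (D : ℕ) :
    (MvPolynomial.aeval (fun s => Polynomial.C (a s) * (Polynomial.X : Polynomial ℂ)) f).coeff D =
      MvPolynomial.aeval a (MvPolynomial.homogeneousComponent D f) := by
  induction f using MvPolynomial.induction_on' with
  | monomial d c =>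
    rw [MvPolynomial.homogeneousComponent_of_mem
      (MvPolynomial.isHomogeneous_monomial c rfl : (MvPolynomial.monomial d c).IsHomogeneous _),
      MvPolynomial.aeval_monomial]
    have e1 : (d.prod fun i k => (Polynomial.C (a i) * (Polynomial.X : Polynomial ℂ)) ^ k) =
        Polynomial.C (d.prod fun i k => a i ^ k) * Polynomial.X ^ d.degree := by
      rw [Finsupp.prod, Finsupp.prod, map_prod, Finsupp.degree_apply,
        ← Finset.prod_pow_eq_pow_sum, ← Finset.prod_mul_distrib]
      refine Finset.prod_congr rfl fun i _ => ?_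
      rw [mul_pow, map_pow]
    rw [e1, Polynomial.algebraMap_eq, Polynomial.coeff_C_mul, Polynomial.coeff_C_mul,
      Polynomial.coeff_X_pow]
    by_cases h : D = d.degree
    · rw [if_pos h, if_pos h, MvPolynomial.aeval_monomial, mul_one]
      rfl
    · rw [if_neg h, if_neg h, map_zero, mul_zero, mul_zero]
  | add p q hp hq => rw [map_add, Polynomial.coeff_add, hp, hq, map_add, map_add]

/-- The polynomial in `t` whose value is `evR (t A) (t B) f`. -/
def hc_P {n : ℕ} (A B : Matrix (Fin n) (Fin n) ℂ) (f : Sn n) : Polynomial ℂ :=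
  MvPolynomial.aeval (fun s : Vr n =>
    Polynomial.C (if s.1 = 0 then A s.2.1 s.2.2 else B s.2.1 s.2.2) *
      (Polynomial.X : Polynomial ℂ)) f

theorem hc_P_coeff {n : ℕ} (A B : Matrix (Fin n) (Fin n) ℂ) (f : Sn n) (D : ℕ) :
    (hc_P A B f).coeff D = evR A B (MvPolynomial.homogeneousComponent D f) :=
  hc_coeff _ f D

theorem hc_P_eval {n : ℕ} (A B : Matrix (Fin n) (Fin n) ℂ) (f : Sn n) (t : ℂ) :
    (hc_P A B f).eval t = evR (t • A) (t • B) f := by
  rw [← Polynomial.coe_aeval_eq_eval]
  unfold hc_P evR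
  rw [MvPolynomial.comp_aeval_apply]
  congr 2
  funext s
  rw [map_mul, Polynomial.aeval_X, Polynomial.aeval_C]
  by_cases h : s.1 = 0
  · rw [if_pos h, if_pos h, Matrix.smul_apply, smul_eq_mul, mul_comm]
    rfl
  · rw [if_neg h, if_neg h, Matrix.smul_apply, smul_eq_mul, mul_comm]
    rfl

theorem thm_Hc : St_Hc := by
  intro n l D F hF g h A B hgh i j
  have key : hc_P (g * A * h) (g * B * h) (F i j) =
      ∑ i', ∑ j', Polynomial.C (∏ s, g (i s) (i' s)) * hc_P A B (F i' j') *
        Polynomial.C (∏ s, h (j' s) (j s)) := by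
    refine Polynomial.funext fun t => ?_
    rw [hc_P_eval]
    have h1 := hF g h (t • A) (t • B) hgh i j
    rw [Matrix.mul_smul, Matrix.mul_smul, Matrix.smul_mul, Matrix.smul_mul] at h1
    rw [h1, Polynomial.eval_finset_sum]
    refine Finset.sum_congr rfl fun i' _ => ?_
    rw [Polynomial.eval_finset_sum]
    refine Finset.sum_congr rfl fun j' _ => ?_
    rw [Polynomial.eval_mul, Polynomial.eval_mul, Polynomial.eval_C, Polynomial.eval_C,
      hc_P_eval]
  have h2 := congrArg (fun p : Polynomial ℂ => p.coeff D) key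
  simp only [Polynomial.finset_sum_coeff, Polynomial.coeff_mul_C, Polynomial.coeff_C_mul,
    hc_P_coeff] at h2
  exact h2

end Pool.Agent.AVH
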