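import Pool.Agent.AVH.St

/-!
# AVH, block Ind
-/

set_option autoImplicit false

noncomputable section

namespace Pool.Agent.AVH

open Matrix

theorem ind_swap {ι R : Type} [Fintype ι] [DecidableEq ι] [CommRing R] (A : Matrix ι ι R)
    (r c : ι) : (A.updateCol c (Pi.single r 1)).det = (A.updateRow r (Pi.single c 1)).det := by
  have h1 : A.adjugate c r = (A.updateRow r (Pi.single c 1)).det := adjugate_apply A c r
  have h2 : Aᵀ.adjugate r c = (Aᵀ.updateRow c (Pi.single r 1)).det := adjugate_apply Aᵀ r c
  rw [← h1, ← det_transpose, ← updateRow_transpose, ← h2, ← adjugate_transpose, transpose_apply]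

theorem ind_gen {ι R : Type} [Fintype ι] [DecidableEq ι] [CommRing R] (A B : Matrix ι ι R)
    (r0 c0 : ι) (h : ∀ r c, r ≠ r0 → c ≠ c0 → A r c = B r c) :
    (A.updateCol c0 (Pi.single r0 1)).det = (B.updateCol c0 (Pi.single r0 1)).det := by
  have key : ∀ M : Matrix ι ι R, (M.updateCol c0 (Pi.single r0 1)).det =
      ((M.updateCol c0 (Pi.single r0 1)).updateRow r0 (Pi.single c0 1)).det := by
    intro M
    rw [← ind_swap, updateCol_idem]
  rw [key A, key B]
  congr 1
  ext r c
  by_cases hr : r = r0
  · subst hr
    simp [updateRow_self]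
  · rw [updateRow_ne hr, updateRow_ne hr]
    by_cases hc : c = c0
    · subst hc
      simp [updateCol_self]
    · rw [updateCol_ne hc, updateCol_ne hc]
      exact h r c hr hc

theorem thm_Ind : St_Ind := by
  intro n k q R _ a m m' i v v' s hm hv
  unfold CO
  refine Finset.sum_congr rfl fun α _ => ?_
  apply ind_gen
  intro r c hr hc
  unfold Mt
  have e1 : (Sum.elim a m r : Matrix (Fin n) (Fin n) R) = Sum.elim a m' r := by
    rcases r with t | r
    · rfl
    · exact hm r fun h => hr (by rw [h])
  have e2 : (Sum.elim (fun t => Pi.single (α t) 1) v c : Fin n → R) =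
      Sum.elim (fun t => Pi.single (α t) 1) v' c := by
    rcases c with t | c
    · rfl
    · exact hv c fun h => hc (by rw [h])
  rw [e1, e2]

end Pool.Agent.AVH
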