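import Pool.Agent.AVH.St

/-!
# AVH: symmetric lifts, uniqueness

Helper2, for MP_c67a3f_ag (statement of helper40).
-/

set_option autoImplicit false

noncomputable section

namespace Pool.Agent.AVH

open Matrix

/-- the exponent of the monomial of `u` -/
def lfb_d {V : Type} {D : ℕ} (u : Fin D → V) : V →₀ ℕ := ∑ r, Finsupp.single (u r) 1

theorem lfb_perm {V : Type} [DecidableEq V] {D : ℕ} (u u' : Fin D → V)
    (h : lfb_d u = lfb_d u') : ∃ π : Equiv.Perm (Fin D), u ∘ π = u' := by
  have hc : ∀ (w : Fin D → V) (v : V), lfb_d w v = Fintype.card {r // w r = v} := by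
    intro w v
    unfold lfb_d
    rw [Finsupp.finsetSum_apply]
    simp only [Finsupp.single_apply]
    rw [Finset.sum_boole, Fintype.card_subtype]
    simp
  have e : ∀ v, Nonempty ({r // u' r = v} ≃ {r // u r = v}) := by
    intro v
    apply Fintype.card_eq.1
    rw [← hc, ← hc, h]
  refine ⟨Equiv.ofFiberEquiv fun v => (e v).some, ?_⟩
  funext r
  exact Equiv.ofFiberEquiv_map _ r

theorem lfb_mon {V : Type} {D : ℕ} (t : ℂ) (u : Fin D → V) :
    MvPolynomial.C t * ∏ r, (MvPolynomial.X (u r) : MvPolynomial V ℂ) =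
      MvPolynomial.monomial (lfb_d u) t := by
  have e : ∏ r, (MvPolynomial.X (u r) : MvPolynomial V ℂ) =
      MvPolynomial.monomial (lfb_d u) 1 := by
    unfold lfb_d
    rw [MvPolynomial.monomial_sum_one]
    rfl
  rw [e, MvPolynomial.C_mul_monomial, mul_one]

theorem thm_Lfb : St_Lfb := by
  intro V _ _ D T hT hsum u0
  have h1 := congrArg (MvPolynomial.coeff (lfb_d u0)) hsum
  rw [MvPolynomial.coeff_sum, MvPolynomial.coeff_zero] at h1
  have h2 : ∀ u : Fin D → V, MvPolynomial.coeff (lfb_d u0)
      (MvPolynomial.C (T u) * ∏ r, (MvPolynomial.X (u r) : MvPolynomial V ℂ)) =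
      if lfb_d u = lfb_d u0 then T u0 else 0 := by
    intro u
    rw [lfb_mon, MvPolynomial.coeff_monomial]
    split_ifs with h
    · obtain ⟨π, rfl⟩ := lfb_perm u u0 h
      exact (hT π u).symm
    · rfl
  rw [Finset.sum_congr rfl fun u _ => h2 u, ← Finset.sum_filter, Finset.sum_const,
    nsmul_eq_mul] at h1
  rcases mul_eq_zero.1 h1 with h | h
  · exfalso
    have h3 : (Finset.univ.filter fun u : Fin D → V => lfb_d u = lfb_d u0).card = 0 := by
      exact_mod_cast h
    rw [Finset.card_eq_zero, Finset.filter_eq_empty_iff] at h3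
    exact h3 (Finset.mem_univ u0) rfl
  · exact h

end Pool.Agent.AVH

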