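import Pool.Agent.AVH.St

/-!
# AVH, module Mai: the main theorem (helper14)
-/

set_option autoImplicit false

noncomputable section

namespace Pool.Agent.AVH

open Matrix

/-- the quotient by the ideal of the commutator -/
abbrev mai_R (n : ℕ) : Type := Sn n ⧸ comI n

/-- the projection -/
def mai_mk (n : ℕ) : Sn n →ₐ[ℂ] mai_R n := Ideal.Quotient.mkₐ ℂ (comI n)

theorem mai_mk_eq_zero {n : ℕ} (f : Sn n) : mai_mk n f = 0 ↔ f ∈ comI n :=
  Ideal.Quotient.eq_zero_iff_mem

/-- the generic commuting matrices -/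
def mai_Z (n : ℕ) (c : Fin 2) : Matrix (Fin n) (Fin n) (mai_R n) := (zM n c).map (mai_mk n)

theorem mai_comm (n : ℕ) : mai_Z n 0 * mai_Z n 1 = mai_Z n 1 * mai_Z n 0 := by
  unfold mai_Z
  rw [← Matrix.map_mul, ← Matrix.map_mul]
  ext a b
  rw [Matrix.map_apply, Matrix.map_apply, ← sub_eq_zero, ← map_sub, mai_mk_eq_zero]
  exact Ideal.subset_span ⟨a, b, rfl⟩

/-- if `n < q` alternating tensors vanish -/
theorem mai_small {n q : ℕ} (h : n < q) (F : Ten n (q + 1) (Sn n)) (hA : AltIn F)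
    (i j : Fin (q + 1) → Fin n) : F i j = 0 := by
  obtain ⟨c, c', hcc, hj⟩ := Fintype.exists_ne_map_eq_of_card_lt (fun c : Fin q => j c.succ)
    (by simpa using h)
  have h1 := hA (Equiv.swap c.succ c'.succ)
    (Equiv.swap_apply_of_ne_of_ne (Fin.succ_ne_zero c).symm (Fin.succ_ne_zero c').symm) i j
  have hne : c.succ ≠ c'.succ := fun e => hcc (Fin.succ_injective _ e)
  have h2 : j ∘ (Equiv.swap c.succ c'.succ) = j := by
    funext x
    simp only [Function.comp]
    by_cases hx : x = c.succ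
    · subst hx
      rw [Equiv.swap_apply_left]
      exact hj.symm
    · by_cases hx' : x = c'.succ
      · subst hx'
        rw [Equiv.swap_apply_right]
        exact hj
      · rw [Equiv.swap_apply_of_ne_of_ne hx hx']
  rw [h2, Equiv.Perm.sign_swap hne] at h1
  simp only [Units.val_neg, Units.val_one, Int.cast_neg, Int.cast_one, neg_one_mul] at h1
  exact self_eq_neg.1 h1

/-- coefficientwise projection -/
def mai_P (n l : ℕ) : Ten n l (Sn n) →ₗ[ℂ] Ten n l (mai_R n) where
  toFun F := fun i j => mai_mk n (F i j)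
  map_add' F G := by
    funext i j
    exact map_add _ _ _
  map_smul' c F := by
    funext i j
    exact map_smul (mai_mk n) c (F i j)

theorem mai_P_Gam {n l D : ℕ} (π : Equiv.Perm (Fin D ⊕ Fin l))
    (M : Fin D ⊕ Fin l → Matrix (Fin n) (Fin n) (Sn n)) :
    mai_P n l (Gam π M) = Gam π fun r => (M r).map (mai_mk n) := by
  funext i j
  show mai_mk n (Gam π M i j) = _
  unfold Gam
  rw [map_sum]
  refine Finset.sum_congr rfl fun a _ => ?_
  rw [map_prod]
  rfl

theorem mai_entry {n l D : ℕ} (c : Fin D → Fin 2) : ∃ e : Fin D ⊕ Fin l → ℕ × ℕ,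
    (fun r => ((Sum.elim (fun r => zM n (c r)) (fun _ => 1) r :
      Matrix (Fin n) (Fin n) (Sn n))).map (mai_mk n)) =
      fun r => mon (mai_Z n 0) (mai_Z n 1) (e r) := by
  refine ⟨Sum.elim (fun r => if c r = 0 then (1, 0) else (0, 1)) fun _ => (0, 0), ?_⟩
  funext r
  rcases r with r | r
  · simp only [Sum.elim_inl]
    by_cases h : c r = 0
    · rw [if_pos h, h]
      unfold mon
      rw [pow_one, pow_zero, mul_one]
      rfl
    · have h1 : c r = 1 := by
        have := (c r).isLt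
        apply Fin.ext
        have h2 : (c r : ℕ) ≠ 0 := fun e => h (Fin.ext e)
        rw [Fin.val_one]
        omega
      rw [if_neg h, h1]
      unfold mon
      rw [pow_one, pow_zero, one_mul]
      rfl
  · simp only [Sum.elim_inr]
    unfold mon
    rw [pow_zero, pow_zero, one_mul, Matrix.map_one _ (map_zero _) (map_one _)]

theorem mai_GG {n K q : ℕ} {R : Type} [CommRing R] [Algebra ℂ R] (X Y : Matrix (Fin n) (Fin n) R)
    (s : Fin (q + 1)) (a : Fin K → ℕ × ℕ) (m : Fin (q + 1) → ℕ × ℕ) : ∃ h : Cf K (q + 1),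
    GG X Y s h = GT s (fun t => mon X Y (a t)) (fun r => mon X Y (m r)) := by
  refine ⟨MvPolynomial.monomial (Finsupp.equivFunOnFinite.symm
    fun o : (Fin K ⊕ Fin (q + 1)) × Fin 2 =>
      if o.2 = 0 then (Sum.elim a m o.1).1 else (Sum.elim a m o.1).2) 1, ?_⟩
  unfold GG
  have h := (MvPolynomial.basisMonomials ((Fin K ⊕ Fin (q + 1)) × Fin 2) ℂ).constr_basis ℂ
    (fun d => (GT s (fun t => mon X Y (d (Sum.inl t, 0), d (Sum.inl t, 1)))
      (fun r => mon X Y (d (Sum.inr r, 0), d (Sum.inr r, 1))) : Ten n (q + 1) R))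
    (Finsupp.equivFunOnFinite.symm fun o : (Fin K ⊕ Fin (q + 1)) × Fin 2 =>
      if o.2 = 0 then (Sum.elim a m o.1).1 else (Sum.elim a m o.1).2)
  rw [MvPolynomial.coe_basisMonomials] at h
  rw [h]
  simp

/-- the sum of the `GG` as a linear map -/
def mai_S {n K q : ℕ} {R : Type} [CommRing R] [Algebra ℂ R] (X Y : Matrix (Fin n) (Fin n) R) :
    (Fin (q + 1) → Cf K (q + 1)) →ₗ[ℂ] Ten n (q + 1) R :=
  ∑ s, (GG X Y s).comp (LinearMap.proj s)

theorem mai_S_apply {n K q : ℕ} {R : Type} [CommRing R] [Algebra ℂ R]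
    (X Y : Matrix (Fin n) (Fin n) R) (h : Fin (q + 1) → Cf K (q + 1)) :
    mai_S X Y h = ∑ s, GG X Y s (h s) := by
  unfold mai_S
  rw [LinearMap.sum_apply]
  rfl

/-- the average -/
def mai_av {K l : ℕ} (h : Cf K l) : Cf K l :=
  ((K.factorial : ℂ)⁻¹) • ∑ π : Equiv.Perm (Fin K), sb (Sum.map π id) h

theorem mai_sb_sb {K l : ℕ} (π π' : Equiv.Perm (Fin K)) (h : Cf K l) :
    sb (Sum.map π id) (sb (Sum.map π' id) h) = sb (Sum.map (π * π' : Equiv.Perm (Fin K)) id) h := by
  unfold sb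
  rw [MvPolynomial.rename_rename]
  congr 2
  funext o
  obtain ⟨o | o, c⟩ := o
  · rfl
  · rfl

theorem mai_av_sym {K l : ℕ} (h : Cf K l) : SymR (mai_av h) := by
  intro π
  unfold mai_av
  rw [map_smul, map_sum]
  congr 1
  simp only [mai_sb_sb]
  exact Fintype.sum_equiv (Equiv.mulLeft π) _ _ fun _ => rfl

theorem mai_av_GG (hSym : St_Sym) {n K q : ℕ} {R : Type} [CommRing R] [Algebra ℂ R]
    (X Y : Matrix (Fin n) (Fin n) R) (s : Fin (q + 1)) (h : Cf K (q + 1)) :
    GG X Y s (mai_av h) = GG X Y s h := by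
  unfold mai_av
  rw [map_smul, map_sum]
  have h1 : ∑ π : Equiv.Perm (Fin K), GG X Y s (sb (Sum.map π id) h) =
      ∑ _π : Equiv.Perm (Fin K), GG X Y s h :=
    Finset.sum_congr rfl fun π _ => hSym n K q R X Y s h π
  rw [h1, Finset.sum_const, Finset.card_univ, Fintype.card_perm, Fintype.card_fin,
    ← Nat.cast_smul_eq_nsmul ℂ, smul_smul,
    inv_mul_cancel₀ (Nat.cast_ne_zero.2 (Nat.factorial_ne_zero K)), one_smul]

/-- evaluation at a commuting pair factors over the quotient -/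
theorem mai_ev {n : ℕ} (A B : Matrix (Fin n) (Fin n) ℂ) (h : A * B = B * A) :
    ∃ φ : mai_R n →ₐ[ℂ] ℂ, (∀ f, φ (mai_mk n f) = evR A B f) ∧ (mai_Z n 0).map φ = A ∧
      (mai_Z n 1).map φ = B := by
  have hA : (zM n 0).map (evR A B) = A := by
    ext a b
    rw [Matrix.map_apply]
    unfold evR zM
    rw [MvPolynomial.aeval_X]
    simp
  have hB : (zM n 1).map (evR A B) = B := by
    ext a b
    rw [Matrix.map_apply]
    unfold evR zM
    rw [MvPolynomial.aeval_X]
    simp
  have hk : ∀ f ∈ comI n, evR A B f = 0 := by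
    intro f hf
    have h1 : comI n ≤ RingHom.ker (evR A B) := by
      unfold comI
      rw [Ideal.span_le]
      rintro _ ⟨a, b, rfl⟩
      show evR A B _ = 0
      have h2 : (zM n 0 * zM n 1 - zM n 1 * zM n 0).map (evR A B) = 0 := by
        rw [Matrix.map_sub _ (map_sub _), Matrix.map_mul, Matrix.map_mul, hA, hB, h, sub_self]
      have h3 := congrFun (congrFun h2 a) b
      rw [Matrix.map_apply] at h3
      exact h3
    exact h1 hf
  refine ⟨Ideal.Quotient.liftₐ (comI n) (evR A B) hk, fun f => rfl, ?_, ?_⟩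
  · conv_rhs => rw [← hA]
    rfl
  · conv_rhs => rw [← hB]
    rfl

theorem thm_Mai (hFft : St_Fft) (hRed : St_Red) (hAlt : St_Alt) (hSpn : St_Spn) (hSym : St_Sym)
    (hNat : St_Nat) (hElm : St_Elm) : St_Mai := by
  intro n q F hE hA hV i j
  rcases lt_or_ge n q with hnq | hnq
  · rw [mai_small hnq F hA i j]
    exact (comI n).zero_mem
  obtain ⟨K, hK⟩ : ∃ K, K + q = n := ⟨n - q, by omega⟩
  have hXY := mai_comm n
  -- the image of `F`
  have h1 : mai_P n (q + 1) F ∈
      Submodule.span ℂ (PsiSet (mai_Z n 0) (mai_Z n 1) (q + 1)) := by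
    have h2 := Submodule.mem_map_of_mem (f := mai_P n (q + 1)) (hFft n (q + 1) F hE)
    rw [Submodule.map_span] at h2
    refine Submodule.span_mono ?_ h2
    rintro _ ⟨_, ⟨D, π, c, rfl⟩, rfl⟩
    rw [mai_P_Gam]
    obtain ⟨e, he⟩ := mai_entry (n := n) (l := q + 1) c
    rw [he]
    exact hRed n (q + 1) D (mai_R n) _ _ hXY π e
  have h2 : AltIn (mai_P n (q + 1) F) := by
    intro σ hσ i j
    show mai_mk n (F i (j ∘ σ)) = _ * mai_mk n (F i j)
    rw [hA σ hσ, map_mul, map_intCast]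
  have h3 := hAlt n q (mai_R n) _ _ _ h1 h2
  have h4 : mai_P n (q + 1) F ∈
      LinearMap.range (mai_S (K := K) (q := q) (mai_Z n 0) (mai_Z n 1)) := by
    refine (Submodule.span_le.2 ?_ : Submodule.span ℂ _ ≤ _) h3
    rintro _ ⟨ts, s, m, rfl⟩
    refine (Submodule.span_le.2 ?_ : Submodule.span ℂ _ ≤ _)
      (hSpn n K q hK (mai_R n) _ _ hXY ts s m)
    rintro _ ⟨a, m', rfl⟩
    obtain ⟨h, hh⟩ := mai_GG (mai_Z n 0) (mai_Z n 1) s a m'
    refine ⟨Pi.single s h, ?_⟩
    rw [mai_S_apply, ← hh, Finset.sum_eq_single s, Pi.single_eq_same]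
    · intro s' _ hs'
      rw [Pi.single_eq_of_ne hs', map_zero]
    · intro hs
      exact absurd (Finset.mem_univ s) hs
  obtain ⟨h, hh⟩ := h4
  rw [mai_S_apply] at hh
  have h5 : ∑ s, GG (mai_Z n 0) (mai_Z n 1) s (mai_av (h s)) = mai_P n (q + 1) F := by
    rw [← hh]
    exact Finset.sum_congr rfl fun s _ => mai_av_GG hSym _ _ s (h s)
  have h6 := hElm n K q hK (fun s => mai_av (h s)) (fun s => mai_av_sym (h s)) (by
    intro P i j
    have hc : dg P 0 * dg P 1 = dg P 1 * dg P 0 := by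
      unfold dg
      rw [Matrix.diagonal_mul_diagonal, Matrix.diagonal_mul_diagonal]
      congr 1
      funext a
      exact mul_comm _ _
    obtain ⟨φ, hφ, hφA, hφB⟩ := mai_ev (dg P 0) (dg P 1) hc
    have h7 : φ (mai_P n (q + 1) F i j) = 0 := by
      show φ (mai_mk n (F i j)) = 0
      rw [hφ]
      exact hV _ _ hc i j
    rw [← h5, Finset.sum_apply, Finset.sum_apply, map_sum] at h7
    rw [← h7]
    refine Finset.sum_congr rfl fun s _ => ?_
    rw [hNat n K q (mai_R n) ℂ φ, hφA, hφB]) (mai_R n) _ _ hXY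
  rw [h5] at h6
  have h7 : mai_mk n (F i j) = 0 := congrFun (congrFun h6 i) j
  exact (mai_mk_eq_zero _).1 h7

end Pool.Agent.AVH
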