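import Pool.Agent.AVH.St

/-!
# AVH: naturality of `GG`
-/

set_option autoImplicit false

noncomputable section

namespace Pool.Agent.AVH

open Matrix

variable {n : ℕ} {R S : Type} [CommRing R] [CommRing S]

lemma nat_mon (φ : R →+* S) (X Y : Matrix (Fin n) (Fin n) R) (e : ℕ × ℕ) :
    (mon X Y e).map φ = mon (X.map φ) (Y.map φ) e := by
  have h1 : ∀ Z : Matrix (Fin n) (Fin n) R, Z.map φ = φ.mapMatrix Z := fun Z => rfl
  simp only [mon]
  rw [h1, h1, h1, map_mul, map_pow, map_pow]

lemma nat_single (φ : R →+* S) {ι : Type} [DecidableEq ι] (a : ι) :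
    (fun b => φ ((Pi.single a (1 : R) : ι → R) b)) = (Pi.single a (1 : S) : ι → S) := by
  funext b
  by_cases hb : b = a
  · subst hb; simp
  · simp [Pi.single_eq_of_ne hb]

lemma nat_CO (φ : R →+* S) {k q : ℕ} (a : Fin k → Matrix (Fin n) (Fin n) R)
    (m : Fin (q + 1) → Matrix (Fin n) (Fin n) R) (i : Fin (q + 1) → Fin n)
    (v : Fin (q + 1) → Fin n → R) (s : Fin (q + 1)) :
    φ (CO a m i v s) = CO (fun t => (a t).map φ) (fun t => (m t).map φ) i
      (fun r b => φ (v r b)) s := by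
  simp only [CO]
  rw [map_sum]
  refine Finset.sum_congr rfl fun α _ => ?_
  rw [RingHom.map_det]
  congr 1
  ext r c
  by_cases hc : c = Sum.inr 0
  · subst hc
    rw [RingHom.mapMatrix_apply, Matrix.map_apply, Matrix.updateCol_self, Matrix.updateCol_self]
    exact congrFun (nat_single φ (Sum.inr s)) r
  · rw [RingHom.mapMatrix_apply, Matrix.map_apply, Matrix.updateCol_ne hc, Matrix.updateCol_ne hc]
    simp only [Mt, Matrix.mulVec, dotProduct]
    rw [map_sum]
    refine Finset.sum_congr rfl fun b _ => ?_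
    rw [map_mul]
    congr 1
    · rcases r with r | r <;> simp
    · rcases c with c | c
      · exact congrFun (nat_single φ (α c)) b
      · rfl

lemma nat_GT (φ : R →+* S) {k q : ℕ} (s : Fin (q + 1)) (a : Fin k → Matrix (Fin n) (Fin n) R)
    (m : Fin (q + 1) → Matrix (Fin n) (Fin n) R) (i j : Fin (q + 1) → Fin n) :
    φ (GT s a m i j) = GT s (fun t => (a t).map φ) (fun t => (m t).map φ) i j := by
  simp only [GT]
  rw [map_mul, nat_CO]
  congr 1
  congr 1
  funext r
  exact nat_single φ (j r)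

/-- The entry `i j` as a linear map. -/
def nat_ev (T : Type) [CommRing T] [Algebra ℂ T] {l : ℕ} (i j : Fin l → Fin n) :
    Ten n l T →ₗ[ℂ] T where
  toFun F := F i j
  map_add' _ _ := rfl
  map_smul' _ _ := rfl

theorem thm_Nat : St_Nat := by
  intro n K q R S _ _ _ _ φ X Y s h i j
  have key : (φ.toLinearMap ∘ₗ nat_ev R i j) ∘ₗ (GG X Y s : Cf K (q + 1) →ₗ[ℂ] _) =
      nat_ev S i j ∘ₗ (GG (X.map φ) (Y.map φ) s : Cf K (q + 1) →ₗ[ℂ] _) := by
    refine (MvPolynomial.basisMonomials _ ℂ).ext fun d => ?_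
    simp only [LinearMap.comp_apply, GG, Module.Basis.constr_basis]
    have hm : ∀ e, (mon X Y e).map (φ : R →+* S) = mon (X.map φ) (Y.map φ) e := fun e =>
      nat_mon (φ : R →+* S) X Y e
    have h1 := nat_GT (φ : R →+* S) s (fun t : Fin K => mon X Y (d (Sum.inl t, 0), d (Sum.inl t, 1)))
      (fun r : Fin (q + 1) => mon X Y (d (Sum.inr r, 0), d (Sum.inr r, 1))) i j
    simp only [hm] at h1
    exact h1
  exact congrArg (fun L : Cf K (q + 1) →ₗ[ℂ] S => L h) key

end Pool.Agent.AVH
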