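import Pool.Agent.AVH.St

/-!
# AVH, module P0 (helper26): the sums of determinants vanish if the size is bigger than `n`
-/

set_option autoImplicit false

noncomputable section

namespace Pool.Agent.AVH

open Matrix

/-- A product through a smaller set has determinant zero. -/
theorem p0_det {R : Type} [CommRing R] {p o : Type} [Fintype p] [DecidableEq p] [Fintype o]
    [DecidableEq o] (h : Fintype.card o < Fintype.card p) (A : Matrix p o R) (B : Matrix o p R) :
    (A * B).det = 0 := by
  obtain ⟨f⟩ : Nonempty (o ↪ p) := Function.Embedding.nonempty_of_card_le h.le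
  have hs : ¬ Function.Surjective f := by
    intro hs
    have := Fintype.card_le_of_surjective f hs
    omega
  obtain ⟨c₀, hc₀⟩ := not_forall.1 hs
  obtain ⟨E, hE⟩ : ∃ E : Matrix o p R, E = Matrix.of fun b c => if f b = c then (1 : R) else 0 :=
    ⟨_, rfl⟩
  have hEE : E * E.transpose = 1 := by
    ext b b'
    rw [Matrix.mul_apply, Matrix.one_apply, hE]
    simp [Matrix.of_apply, Matrix.transpose_apply, eq_comm]
  have e : A * B = (A * E) * (E.transpose * B) := by
    calc A * B = A * (E * E.transpose) * B := by rw [hEE, Matrix.mul_one]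
      _ = (A * E) * (E.transpose * B) := by simp only [Matrix.mul_assoc]
  rw [e, Matrix.det_mul, Matrix.det_eq_zero_of_column_eq_zero c₀, zero_mul]
  intro r
  rw [Matrix.mul_apply]
  refine Finset.sum_eq_zero fun b _ => ?_
  rw [hE, Matrix.of_apply, if_neg (fun hb => hc₀ ⟨b, hb⟩), mul_zero]

theorem thm_P0 : St_P0 := by
  intro n k R _ a
  constructor
  · intro l m i v h
    unfold XI
    refine Finset.sum_eq_zero fun α _ => ?_
    have e : Mt a m i v α = (Matrix.of fun (r : Fin k ⊕ Fin l) (b : Fin n) =>
        (Sum.elim a m r) (Sum.elim α i r) b) *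
        (Matrix.of fun (b : Fin n) (c : Fin k ⊕ Fin l) =>
          (Sum.elim (fun t => Pi.single (α t) 1) v c : Fin n → R) b) := by
      ext r c
      rw [Matrix.mul_apply]
      rfl
    rw [e]
    refine p0_det ?_ _ _
    rw [Fintype.card_sum, Fintype.card_fin, Fintype.card_fin, Fintype.card_fin]
    exact h
  · intro q m i v s h
    unfold CO
    refine Finset.sum_eq_zero fun α _ => ?_
    have e : (Mt a m i v α).updateCol (Sum.inr 0) (Pi.single (Sum.inr s) 1) =
        (Matrix.of fun (r : Fin k ⊕ Fin (q + 1)) (b : Fin n ⊕ Unit) =>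
          (Sum.elim (fun b' => (Sum.elim a m r) (Sum.elim α i r) b')
            (fun _ => (Pi.single (Sum.inr s) 1 : Fin k ⊕ Fin (q + 1) → R) r) b : R)) *
        (Matrix.of fun (b : Fin n ⊕ Unit) (c : Fin k ⊕ Fin (q + 1)) =>
          (Sum.elim (fun b' => if c = Sum.inr 0 then 0 else
            (Sum.elim (fun t => Pi.single (α t) 1) v c : Fin n → R) b')
            (fun _ => if c = Sum.inr 0 then 1 else 0) b : R)) := by
      ext r c
      rw [Matrix.mul_apply, Fintype.sum_sum_type]
      by_cases hc : c = Sum.inr 0
      · subst hc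
        rw [Matrix.updateCol_self]
        simp [Matrix.of_apply]
      · rw [Matrix.updateCol_ne hc]
        simp only [Matrix.of_apply, Sum.elim_inl, Sum.elim_inr, if_neg hc, mul_zero,
          Finset.sum_const_zero, add_zero]
        rfl
    rw [e]
    refine p0_det ?_ _ _
    rw [Fintype.card_sum, Fintype.card_sum, Fintype.card_fin, Fintype.card_fin, Fintype.card_fin,
      Fintype.card_unit]
    omega

end Pool.Agent.AVH
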