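import Pool.Agent.AVH.St

/-!
# AVH, block Pts
-/

set_option autoImplicit false

noncomputable section

namespace Pool.Agent.AVH

open Matrix

theorem pts_gen (hEv : St_Ev) (n K q : ℕ) (hn : K + q = n) (s : Fin (q + 1)) (h : Cf K (q + 1))
    (hh : SymR h)
    (hv : ∀ (P : Fin n → Fin 2 → ℂ) (i : Fin (q + 1) → Fin n),
      (∀ r r', r ≠ s → r' ≠ s → i r = i r' → r = r') → (∀ s', s < s' → i s' ≠ i s) →
      GG (dg P 0) (dg P 1) s h i (fun r => i (Equiv.swap 0 s r)) = 0)
    (x0 : Fin K ⊕ Fin (q + 1)) (hx0 : x0 ≠ Sum.inr s) (hx1 : ∀ s', s < s' → x0 ≠ Sum.inr s') :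
    sb (fun x : Fin K ⊕ Fin (q + 1) => if x = Sum.inr s then x0 else x) h = 0 := by
  set g : Fin K ⊕ Fin (q + 1) → Fin K ⊕ Fin (q + 1) :=
    fun x => if x = Sum.inr s then x0 else x with hg
  have hg1 : ∀ x, g x ≠ Sum.inr s := by
    intro x
    rw [hg]
    by_cases hx : x = Sum.inr s
    · simp only [hx, if_true]
      exact hx0
    · simp only [hx, if_false]
      exact fun h => hx h
  have hg2 : ∀ x, x ≠ Sum.inr s → g x = x := by
    intro x hx
    rw [hg]
    simp only [hx, if_false]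
  have hg3 : g (Sum.inr s) = x0 := by
    rw [hg]
    simp
  have hcard : Fintype.card {x : Fin K ⊕ Fin (q + 1) // x ≠ Sum.inr s} = Fintype.card (Fin n) := by
    rw [Fintype.card_subtype_compl, Fintype.card_subtype_eq, Fintype.card_sum, Fintype.card_fin,
      Fintype.card_fin, Fintype.card_fin]
    omega
  set e := Fintype.equivOfCardEq hcard with he
  set f : Fin K ⊕ Fin (q + 1) → Fin n := fun x => e ⟨g x, hg1 x⟩ with hf
  have hf1 : ∀ x x', x ≠ Sum.inr s → x' ≠ Sum.inr s → f x = f x' → x = x' := by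
    intro x x' hx hx' hxx
    have h1 := e.injective hxx
    have h2 : g x = g x' := congrArg Subtype.val h1
    rwa [hg2 x hx, hg2 x' hx'] at h2
  have hne : ∀ r : Fin (q + 1), r ≠ s → (Sum.inr r : Fin K ⊕ Fin (q + 1)) ≠ Sum.inr s :=
    fun r hr h => hr (Sum.inr_injective h)
  have c1 : ∀ r r', r ≠ s → r' ≠ s → f (Sum.inr r) = f (Sum.inr r') → r = r' :=
    fun r r' hr hr' h => Sum.inr_injective (hf1 _ _ (hne r hr) (hne r' hr') h)
  have c2 : Function.Injective fun p : Fin K => f (Sum.inl p) :=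
    fun p p' h => Sum.inl_injective (hf1 _ _ Sum.inl_ne_inr Sum.inl_ne_inr h)
  have c3 : ∀ p r, r ≠ s → f (Sum.inl p) ≠ f (Sum.inr r) :=
    fun p r hr h => Sum.inl_ne_inr (hf1 _ _ Sum.inl_ne_inr (hne r hr) h)
  have c4 : ∀ s', s < s' → f (Sum.inr s') ≠ f (Sum.inr s) := by
    intro s' hs' h
    have h1 := e.injective h
    have h2 : g (Sum.inr s') = g (Sum.inr s) := congrArg Subtype.val h1
    rw [hg2 _ (hne s' hs'.ne'), hg3] at h2
    exact hx1 s' hs' h2.symm
  obtain ⟨c, hc, hE⟩ := hEv n K q hn s (fun r => f (Sum.inr r)) (fun p => f (Sum.inl p)) c1 c2 c3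
  have hfe : (Sum.elim (fun p => f (Sum.inl p)) fun r => f (Sum.inr r)) = f :=
    Sum.elim_comp_inl_inr f
  have hz : sb f h = 0 := by
    apply MvPolynomial.funext
    intro Q
    have h1 := hE (fun a c => Q (a, c)) h hh
    rw [hv (fun a c => Q (a, c)) (fun r => f (Sum.inr r)) c1 c4, hfe] at h1
    have h2 := (mul_eq_zero.mp h1.symm).resolve_left hc
    rw [map_zero, ← h2]
    unfold sb
    rw [MvPolynomial.eval_rename]
    rfl
  have hcomp : sb g h = sb (fun a => (e.symm a).1) (sb f h) := by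
    unfold sb
    rw [MvPolynomial.rename_rename]
    congr 2
    funext o
    have : (e.symm (f o.1)).1 = g o.1 := by
      rw [hf]
      simp
    simp only [Function.comp_apply, this]
  rw [hcomp, hz, map_zero]

theorem thm_Pts (hEv : St_Ev) : St_Pts := by
  intro n K q hn s h hh hv
  refine ⟨fun p => ?_, fun s' hs' => ?_⟩
  · exact pts_gen hEv n K q hn s h hh hv (Sum.inl p) Sum.inl_ne_inr fun _ _ => Sum.inl_ne_inr
  · refine pts_gen hEv n K q hn s h hh hv (Sum.inr s') ?_ ?_
    · exact fun h => hs'.ne (Sum.inr_injective h)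
    · intro s'' hs'' h
      have := Sum.inr_injective h
      subst this
      exact absurd (hs'.trans hs'') (lt_irrefl _)

end Pool.Agent.AVH
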