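import Pool.Agent.AVH.St

/-!
# AVH: contractions of monomials
-/

set_option autoImplicit false

noncomputable section

namespace Pool.Agent.AVH

open Matrix

/-- The first index is split off. -/
def red_E (K l : ℕ) : Fin (K + 1) ⊕ Fin l ≃ Option (Fin K ⊕ Fin l) where
  toFun := Sum.elim (Fin.cases none (fun t => some (Sum.inl t))) (fun s => some (Sum.inr s))
  invFun := fun o => o.elim (Sum.inl 0) (Sum.map Fin.succ id)
  left_inv := by
    rintro (t | s)
    · refine Fin.cases ?_ (fun t => ?_) t <;> rfl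
    · rfl
  right_inv := by
    rintro (_ | (t | s)) <;> rfl

theorem red_fix {S : Type} [Fintype S] {n : ℕ} {R : Type} [CommRing R]
    (σ : Equiv.Perm (Option S)) (N : Option S → Matrix (Fin n) (Fin n) R) (h : σ none = none)
    (row col : S → Fin n) :
    ∑ b, ∏ o, N o ((σ o).elim b row) (o.elim b col) =
      (N none).trace * ∏ s, N (some s) (row (Equiv.removeNone σ s)) (col s) := by
  rw [Matrix.trace, Finset.sum_mul]
  refine Finset.sum_congr rfl fun b _ => ?_
  rw [Fintype.prod_option, h]
  refine congrArg₂ (· * ·) rfl (Finset.prod_congr rfl fun s _ => ?_)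
  have h1 : ∃ x', σ (some s) = some x' := by
    rw [← Option.ne_none_iff_exists']
    intro h2
    have := σ.injective (h2.trans h.symm)
    simp at this
  rw [← Equiv.removeNone_some σ h1]
  rfl

theorem red_mov {S : Type} [Fintype S] [DecidableEq S] {n : ℕ} {R : Type} [CommRing R]
    (σ : Equiv.Perm (Option S)) (N : Option S → Matrix (Fin n) (Fin n) R) (r' : S)
    (h : σ (some r') = none) (row col : S → Fin n) :
    ∑ b, ∏ o, N o ((σ o).elim b row) (o.elim b col) =
      ∏ s, (if s = r' then N none * N (some r') else N (some s))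
        (row (Equiv.removeNone σ s)) (col s) := by
  rw [← Finset.mul_prod_erase Finset.univ _ (Finset.mem_univ r'), if_pos rfl, Matrix.mul_apply,
    Finset.sum_mul]
  refine Finset.sum_congr rfl fun b _ => ?_
  rw [Fintype.prod_option, ← Finset.mul_prod_erase Finset.univ _ (Finset.mem_univ r'), h,
    ← Equiv.removeNone_none σ h, ← mul_assoc]
  refine congrArg₂ (· * ·) rfl (Finset.prod_congr rfl fun s hs => ?_)
  have hsr : s ≠ r' := Finset.ne_of_mem_erase hs
  have h1 : ∃ x', σ (some s) = some x' := by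
    rw [← Option.ne_none_iff_exists']
    intro h2
    have := σ.injective (h2.trans h.symm)
    exact hsr (Option.some_injective _ this)
  rw [if_neg hsr, ← Equiv.removeNone_some σ h1]
  rfl

theorem red_split {n K l : ℕ} {R : Type} [CommRing R] (π : Equiv.Perm (Fin (K + 1) ⊕ Fin l))
    (M : Fin (K + 1) ⊕ Fin l → Matrix (Fin n) (Fin n) R) (i j : Fin l → Fin n) :
    Gam π M i j = ∑ a : Fin K → Fin n, ∑ b, ∏ o, M ((red_E K l).symm o)
      (((((red_E K l).symm.trans π).trans (red_E K l)) o).elim b (Sum.elim a i))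
      (o.elim b (Sum.elim a j)) := by
  unfold Gam
  rw [← Equiv.sum_comp (Fin.consEquiv (fun _ : Fin (K + 1) => Fin n)), Fintype.sum_prod_type_right]
  refine Finset.sum_congr rfl fun a _ => Finset.sum_congr rfl fun b _ => ?_
  rw [← Equiv.prod_comp (red_E K l).symm]
  refine Finset.prod_congr rfl fun o _ => ?_
  have h1 : ∀ (x : Fin l → Fin n) (o : Option (Fin K ⊕ Fin l)),
      Sum.elim (Fin.consEquiv (fun _ : Fin (K + 1) => Fin n) (b, a)) x ((red_E K l).symm o) =
        o.elim b (Sum.elim a x) := by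
    rintro x (_ | (t | s)) <;> rfl
  rw [h1 j o]
  have h2 : π ((red_E K l).symm o) =
      (red_E K l).symm ((((red_E K l).symm.trans π).trans (red_E K l)) o) := by
    simp
  rw [h2, h1 i]

theorem red_mon {n : ℕ} {R : Type} [CommRing R] (X Y : Matrix (Fin n) (Fin n) R)
    (hXY : X * Y = Y * X) (e f : ℕ × ℕ) : mon X Y e * mon X Y f = mon X Y (e + f) := by
  have h : Commute (Y ^ e.2) (X ^ f.1) := by
    have : Commute Y X := hXY.symm
    exact (this.pow_left _).pow_right _
  unfold mon
  rw [Prod.fst_add, Prod.snd_add, pow_add, pow_add]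
  calc X ^ e.1 * Y ^ e.2 * (X ^ f.1 * Y ^ f.2)
      = X ^ e.1 * (Y ^ e.2 * X ^ f.1) * Y ^ f.2 := by noncomm_ring
    _ = X ^ e.1 * (X ^ f.1 * Y ^ e.2) * Y ^ f.2 := by rw [h.eq]
    _ = X ^ e.1 * X ^ f.1 * (Y ^ e.2 * Y ^ f.2) := by noncomm_ring

theorem red_zero {n l : ℕ} {R : Type} [CommRing R] (X Y : Matrix (Fin n) (Fin n) R)
    (π : Equiv.Perm (Fin 0 ⊕ Fin l)) (e : Fin 0 ⊕ Fin l → ℕ × ℕ) :
    Gam π (fun r => mon X Y (e r)) ∈ PsiSet X Y l := by
  set E : Fin 0 ⊕ Fin l ≃ Fin l := Equiv.emptySum (Fin 0) (Fin l) with hE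
  set τ : Equiv.Perm (Fin l) := (E.symm.trans π).trans E with hτ
  refine ⟨[], τ.symm, fun s => e (E.symm (τ.symm s)), ?_⟩
  funext i j
  unfold Gam
  rw [Fintype.sum_unique, ← Equiv.prod_comp E.symm, ← Equiv.prod_comp τ.symm]
  have h0 : trs X Y [] = 1 := by simp [trs]
  rw [h0, one_mul]
  refine Finset.prod_congr rfl fun s _ => ?_
  have h1 : ∀ (x : Fin l → Fin n) (a : Fin 0 → Fin n) (t : Fin l),
      Sum.elim a x (E.symm t) = x t := fun _ _ _ => rfl
  have h2 : π (E.symm (τ.symm s)) = E.symm s := by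
    have h3 : E.symm (τ (τ.symm s)) = π (E.symm (τ.symm s)) := by
      rw [hτ]
      simp
    rw [← h3, Equiv.apply_symm_apply]
  rw [h2, h1, h1]

theorem thm_Red : St_Red := by
  intro n l K
  induction K with
  | zero =>
    intro R _ X Y _ π e
    exact red_zero X Y π e
  | succ K ih =>
    intro R _ X Y hXY π e
    classical
    set σ : Equiv.Perm (Option (Fin K ⊕ Fin l)) :=
      ((red_E K l).symm.trans π).trans (red_E K l) with hσ
    by_cases h : σ none = none
    · obtain ⟨ts, τ, m, hm⟩ := ih R X Y hXY (Equiv.removeNone σ)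
        (fun s => e ((red_E K l).symm (some s)))
      refine ⟨e ((red_E K l).symm none) :: ts, τ, m, ?_⟩
      funext i j
      rw [red_split]
      have h1 : ∀ a : Fin K → Fin n, _ := fun a =>
        red_fix σ (fun o => mon X Y (e ((red_E K l).symm o))) h (Sum.elim a i) (Sum.elim a j)
      rw [Finset.sum_congr rfl fun a _ => h1 a, ← Finset.mul_sum]
      have h2 := congrFun (congrFun hm i) j
      have h3 : trs X Y (e ((red_E K l).symm none) :: ts) =
          (mon X Y (e ((red_E K l).symm none))).trace * trs X Y ts := by simp [trs]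
      rw [h3, mul_assoc]
      exact congrArg _ h2
    · obtain ⟨r, hr⟩ : ∃ r, σ r = none := ⟨σ.symm none, by simp⟩
      obtain ⟨r', rfl⟩ : ∃ r', r = some r' := by
        cases r with
        | none => exact absurd hr h
        | some r' => exact ⟨r', rfl⟩
      obtain ⟨ts, τ, m, hm⟩ := ih R X Y hXY (Equiv.removeNone σ)
        (fun s => if s = r' then e ((red_E K l).symm none) + e ((red_E K l).symm (some r'))
          else e ((red_E K l).symm (some s)))
      refine ⟨ts, τ, m, ?_⟩
      rw [← hm]
      funext i j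
      rw [red_split]
      have h1 : ∀ a : Fin K → Fin n, _ := fun a =>
        red_mov σ (fun o => mon X Y (e ((red_E K l).symm o))) r' hr (Sum.elim a i) (Sum.elim a j)
      rw [Finset.sum_congr rfl fun a _ => h1 a]
      unfold Gam
      refine Finset.sum_congr rfl fun a _ => Finset.prod_congr rfl fun s _ => ?_
      by_cases hs : s = r'
      · beta_reduce
        rw [if_pos hs, if_pos hs, red_mon X Y hXY]
      · beta_reduce
        rw [if_neg hs, if_neg hs]

end Pool.Agent.AVH
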