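import Pool.Agent.AVH.St

/-!
# AVH: the relation between the tensors `GG s`
-/

set_option autoImplicit false

noncomputable section

namespace Pool.Agent.AVH

open Matrix

theorem rel_mon {n : ℕ} {R : Type} [CommRing R] {X Y : Matrix (Fin n) (Fin n) R}
    (h : X * Y = Y * X) (e e' : ℕ × ℕ) : mon X Y (e + e') = mon X Y e * mon X Y e' := by
  have h1 : Commute (Y ^ e.2) (X ^ e'.1) := (Commute.pow_pow (show Commute X Y from h) _ _).symm
  unfold mon
  rw [Prod.fst_add, Prod.snd_add, pow_add, pow_add, mul_assoc (X ^ e.1), ← mul_assoc (X ^ e'.1),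
    ← h1.eq, mul_assoc, mul_assoc]

theorem rel_GG {n K q : ℕ} {R : Type} [CommRing R] [Algebra ℂ R]
    (X Y : Matrix (Fin n) (Fin n) R) (s : Fin (q + 1))
    (d : (Fin K ⊕ Fin (q + 1)) × Fin 2 →₀ ℕ) :
    GG X Y s (MvPolynomial.monomial d 1) =
      GT s (fun t => mon X Y (d (Sum.inl t, 0), d (Sum.inl t, 1)))
        (fun r => mon X Y (d (Sum.inr r, 0), d (Sum.inr r, 1))) := by
  unfold GG
  have h := (MvPolynomial.basisMonomials ((Fin K ⊕ Fin (q + 1)) × Fin 2) ℂ).constr_basis ℂ
    (fun d => GT s (fun t => mon X Y (d (Sum.inl t, 0), d (Sum.inl t, 1)))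
      (fun r => mon X Y (d (Sum.inr r, 0), d (Sum.inr r, 1)))) d
  rw [MvPolynomial.coe_basisMonomials] at h
  exact h

theorem rel_md {ι κ : Type} [Fintype ι] [DecidableEq κ] (f : ι → κ) (d : ι × Fin 2 →₀ ℕ) (y : κ)
    (c : Fin 2) : (d.mapDomain fun o => (f o.1, o.2)) (y, c) =
      ∑ o : ι, if f o = y then d (o, c) else 0 := by
  rw [Finsupp.mapDomain, Finsupp.sum_fintype _ _ (fun _ => by simp), Finsupp.finsetSum_apply,
    Fintype.sum_prod_type]
  refine Finset.sum_congr rfl fun o _ => ?_
  rw [Finset.sum_eq_single c]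
  · rw [Finsupp.single_apply]
    simp
  · intro c' _ hc
    rw [Finsupp.single_apply, if_neg]
    intro h
    exact hc (congrArg Prod.snd h)
  · simp

theorem rel_sb {ι κ : Type} (f : ι → κ) (d : ι × Fin 2 →₀ ℕ) :
    sb f (MvPolynomial.monomial d 1) =
      MvPolynomial.monomial (d.mapDomain fun o => (f o.1, o.2)) 1 :=
  MvPolynomial.rename_monomial _ _ _

/-- exponents of a point -/
def rel_ex {ι : Type} (D : ι × Fin 2 →₀ ℕ) (o : ι) : ℕ × ℕ := (D (o, 0), D (o, 1))

theorem rel_Q {K q : ℕ} (s : Fin (q + 1)) (D : Option (Fin K ⊕ Fin (q + 1)) × Fin 2 →₀ ℕ)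
    (y : Fin K ⊕ Fin (q + 1)) :
    rel_ex (D.mapDomain fun o => (o.1.getD (Sum.inr s), o.2)) y =
      rel_ex D (some y) + if y = Sum.inr s then rel_ex D none else 0 := by
  have h : ∀ c, (D.mapDomain fun o => (o.1.getD (Sum.inr s), o.2)) (y, c) =
      D (some y, c) + if y = Sum.inr s then D (none, c) else 0 := by
    intro c
    rw [rel_md (fun o : Option (Fin K ⊕ Fin (q + 1)) => o.getD (Sum.inr s)) D y c,
      Fintype.sum_option]
    simp only [Option.getD_none, Option.getD_some, Finset.sum_ite_eq', Finset.mem_univ, if_true]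
    rw [add_comm]
    congr 1
    by_cases hy : y = Sum.inr s
    · rw [if_pos hy, if_pos hy.symm]
    · rw [if_neg hy, if_neg (Ne.symm hy)]
  unfold rel_ex
  rw [h 0, h 1]
  split_ifs <;> simp

theorem rel_R {K l : ℕ} (p : Fin K) (D : Option (Fin K ⊕ Fin l) × Fin 2 →₀ ℕ)
    (y : Option (Fin K ⊕ Fin l)) (hy : y ≠ some (Sum.inl p)) :
    rel_ex (D.mapDomain fun o => (if o.1 = some (Sum.inl p) then none else o.1, o.2)) y =
      rel_ex D y + if y = none then rel_ex D (some (Sum.inl p)) else 0 := by
  have h : ∀ c, (D.mapDomain fun o => (if o.1 = some (Sum.inl p) then none else o.1, o.2)) (y, c) =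
      D (y, c) + if y = none then D (some (Sum.inl p), c) else 0 := by
    intro c
    rw [rel_md (fun o : Option (Fin K ⊕ Fin l) => if o = some (Sum.inl p) then none else o) D y c]
    have e : ∀ o : Option (Fin K ⊕ Fin l),
        (if (if o = some (Sum.inl p) then none else o) = y then D (o, c) else 0) =
        (if o = y then D (o, c) else 0) +
          if o = some (Sum.inl p) then (if y = none then D (some (Sum.inl p), c) else 0) else 0 := by
      intro o
      by_cases ho : o = some (Sum.inl p)
      · rw [if_pos ho, if_pos ho, ho, if_neg (Ne.symm hy), zero_add]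
        by_cases hn : y = none
        · rw [if_pos hn.symm, if_pos hn]
        · rw [if_neg (Ne.symm hn), if_neg hn]
      · rw [if_neg ho, if_neg ho, add_zero]
    rw [Finset.sum_congr rfl fun o _ => e o, Finset.sum_add_distrib]
    simp
  unfold rel_ex
  rw [h 0, h 1]
  split_ifs <;> simp

theorem rel_GT {n k q : ℕ} {R : Type} [CommRing R] (hInd : St_Ind) (s : Fin (q + 1))
    (a : Fin k → Matrix (Fin n) (Fin n) R) (m m' : Fin (q + 1) → Matrix (Fin n) (Fin n) R)
    (C : Matrix (Fin n) (Fin n) R) (h1 : ∀ r, r ≠ s → m' r = m r) (h2 : m' s = m s * C)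
    (i j : Fin (q + 1) → Fin n) :
    GT s a m' i j =
      (m s *ᵥ (Function.update (bs j) 0 (C *ᵥ Pi.single (j 0) 1) : Fin (q + 1) → Fin n → R) 0) (i s) *
        CO a m i (Function.update (bs j) 0 (C *ᵥ Pi.single (j 0) 1)) s := by
  unfold GT
  rw [hInd n k q R a m' m i (bs j) (Function.update (bs j) 0 (C *ᵥ Pi.single (j 0) 1)) s h1
    (fun r hr => (Function.update_of_ne hr _ _).symm), Function.update_self, h2,
    Matrix.mulVec_mulVec]
  congr 1
  rw [Matrix.mulVec_single_one]
  rfl

theorem thm_Rel (hP0 : St_P0) (hInd : St_Ind) (hExp : St_Exp) : St_Rel := by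
  intro n K q hK R _ _ X Y hXY H hH
  funext i j
  -- the linear map on the left
  set A : MvPolynomial (Option (Fin K ⊕ Fin (q + 1)) × Fin 2) ℂ →ₗ[ℂ] R :=
    ∑ s : Fin (q + 1), ((LinearMap.proj j).comp (LinearMap.proj i)).comp
      ((GG X Y s).comp
        (sb (fun o : Option (Fin K ⊕ Fin (q + 1)) => o.getD (Sum.inr s))).toLinearMap) with hA
  have hAH : (∑ s : Fin (q + 1), GG X Y s
      (sb (fun o : Option (Fin K ⊕ Fin (q + 1)) => o.getD (Sum.inr s)) H)) i j = A H := by
    rw [hA, LinearMap.sum_apply, Finset.sum_apply, Finset.sum_apply]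
    rfl
  rw [hAH]
  change A H = 0
  -- the value at a monomial
  have hAm : ∀ D : Option (Fin K ⊕ Fin (q + 1)) × Fin 2 →₀ ℕ, A (MvPolynomial.monomial D 1) =
      ∑ s, ((mon X Y (rel_ex D (some (Sum.inr s)))) *ᵥ
        (Function.update (bs j) 0 (mon X Y (rel_ex D none) *ᵥ Pi.single (j 0) 1) :
          Fin (q + 1) → Fin n → R) 0) (i s) *
        CO (fun t => mon X Y (rel_ex D (some (Sum.inl t))))
          (fun r => mon X Y (rel_ex D (some (Sum.inr r)))) i
          (Function.update (bs j) 0 (mon X Y (rel_ex D none) *ᵥ Pi.single (j 0) 1)) s := by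
    intro D
    rw [hA, LinearMap.sum_apply]
    refine Finset.sum_congr rfl fun s _ => ?_
    change GG X Y s (sb (fun o : Option (Fin K ⊕ Fin (q + 1)) => o.getD (Sum.inr s))
      (MvPolynomial.monomial D 1)) i j = _
    rw [rel_sb, rel_GG]
    have ea : (fun t : Fin K => mon X Y
        ((D.mapDomain fun o => (o.1.getD (Sum.inr s), o.2)) (Sum.inl t, 0),
          (D.mapDomain fun o => (o.1.getD (Sum.inr s), o.2)) (Sum.inl t, 1))) =
        fun t => mon X Y (rel_ex D (some (Sum.inl t))) := by
      funext t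
      have h := rel_Q s D (Sum.inl t)
      rw [if_neg (by simp), add_zero] at h
      exact congrArg (mon X Y) h
    rw [ea]
    refine rel_GT hInd s _ (fun r => mon X Y (rel_ex D (some (Sum.inr r)))) _
      (mon X Y (rel_ex D none)) (fun r hr => ?_) ?_ i j
    · have h := rel_Q s D (Sum.inr r)
      rw [if_neg (by simpa using hr), add_zero] at h
      exact congrArg (mon X Y) h
    · have h := rel_Q s D (Sum.inr s)
      rw [if_pos rfl] at h
      exact (congrArg (mon X Y) h).trans (rel_mon hXY _ _)
  rcases K with _ | k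
  · -- no points `R_p`
    have h0 : A = 0 := by
      refine (MvPolynomial.basisMonomials _ ℂ).ext fun D => ?_
      rw [MvPolynomial.coe_basisMonomials, LinearMap.zero_apply, hAm D,
        ← (hExp n 0 q R _ i _).1, (hP0 n 0 R _).1 (q + 1) _ i _ (by omega)]
    rw [h0, LinearMap.zero_apply]
  · set L : Fin (k + 1) → MvPolynomial (Option (Fin (k + 1) ⊕ Fin (q + 1)) × Fin 2) ℂ →ₗ[ℂ] R :=
      fun t => (MvPolynomial.basisMonomials _ ℂ).constr ℂ fun D =>
        XI (fun t' => mon X Y (rel_ex D (some (Sum.inl (t.succAbove t')))))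
          (fun r => mon X Y (rel_ex D (some (Sum.inr r)))) i
          (Function.update (bs j) 0 (mon X Y (rel_ex D none) *ᵥ Pi.single (j 0) 1)) with hL
    have hLm : ∀ t D, L t (MvPolynomial.monomial D 1) =
        XI (fun t' => mon X Y (rel_ex D (some (Sum.inl (t.succAbove t')))))
          (fun r => mon X Y (rel_ex D (some (Sum.inr r)))) i
          (Function.update (bs j) 0 (mon X Y (rel_ex D none) *ᵥ Pi.single (j 0) 1)) := by
      intro t D
      have h := (MvPolynomial.basisMonomials
        (Option (Fin (k + 1) ⊕ Fin (q + 1)) × Fin 2) ℂ).constr_basis ℂ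
        (fun D => XI (fun t' => mon X Y (rel_ex D (some (Sum.inl (t.succAbove t')))))
          (fun r => mon X Y (rel_ex D (some (Sum.inr r)))) i
          (Function.update (bs j) 0 (mon X Y (rel_ex D none) *ᵥ Pi.single (j 0) 1))) D
      rw [MvPolynomial.coe_basisMonomials] at h
      exact h
    have h0 : A = ∑ t : Fin (k + 1), (L t).comp (sb (fun o : Option (Fin (k + 1) ⊕ Fin (q + 1)) =>
        if o = some (Sum.inl t) then none else o)).toLinearMap := by
      refine (MvPolynomial.basisMonomials _ ℂ).ext fun D => ?_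
      rw [MvPolynomial.coe_basisMonomials, hAm D, LinearMap.sum_apply]
      have h1 := (hExp n k q R (fun r => mon X Y (rel_ex D (some (Sum.inr r)))) i
        (Function.update (bs j) 0 (mon X Y (rel_ex D none) *ᵥ Pi.single (j 0) 1))).2
        (fun t => mon X Y (rel_ex D (some (Sum.inl t))))
      rw [(hP0 n (k + 1) R _).1 (q + 1) _ i _ (by omega)] at h1
      rw [eq_comm, sub_eq_zero] at h1
      rw [h1]
      refine Finset.sum_congr rfl fun t _ => ?_
      change _ = L t (sb (fun o : Option (Fin (k + 1) ⊕ Fin (q + 1)) =>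
        if o = some (Sum.inl t) then none else o) (MvPolynomial.monomial D 1))
      rw [rel_sb, hLm]
      have e1 : ∀ t' : Fin k, rel_ex (D.mapDomain fun o =>
          (if o.1 = some (Sum.inl t) then none else o.1, o.2)) (some (Sum.inl (t.succAbove t'))) =
          rel_ex D (some (Sum.inl (t.succAbove t'))) := by
        intro t'
        rw [rel_R t D _ (by simp), if_neg (by simp), add_zero]
      have e2 : ∀ r : Fin (q + 1), rel_ex (D.mapDomain fun o =>
          (if o.1 = some (Sum.inl t) then none else o.1, o.2)) (some (Sum.inr r)) =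
          rel_ex D (some (Sum.inr r)) := by
        intro r
        rw [rel_R t D _ (by simp), if_neg (by simp), add_zero]
      have e3 : rel_ex (D.mapDomain fun o =>
          (if o.1 = some (Sum.inl t) then none else o.1, o.2)) none =
          rel_ex D (some (Sum.inl t)) + rel_ex D none := by
        rw [rel_R t D _ (by simp), if_pos rfl, add_comm]
      simp only [e1, e2, e3]
      rw [Function.update_self, Function.update_idem, rel_mon hXY, Matrix.mulVec_mulVec]
    rw [h0, LinearMap.sum_apply]
    refine Finset.sum_eq_zero fun t _ => ?_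
    change L t (sb (fun o : Option (Fin (k + 1) ⊕ Fin (q + 1)) =>
        if o = some (Sum.inl t) then none else o) H) = 0
    rw [hH t, map_zero]

end Pool.Agent.AVH
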