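import Pool.Agent.AVH.St

/-!
# AVH / Spn: all traces can be absorbed (helper21)
-/

set_option autoImplicit false

noncomputable section

namespace Pool.Agent.AVH

open Matrix

theorem spn_mon_mul {n : ℕ} {R : Type} [CommRing R] {X Y : Matrix (Fin n) (Fin n) R}
    (h : X * Y = Y * X) (e e' : ℕ × ℕ) : mon X Y e * mon X Y e' = mon X Y (e + e') := by
  have hc : Commute X Y := h
  simp only [mon, Prod.fst_add, Prod.snd_add, pow_add]
  calc X ^ e.1 * Y ^ e.2 * (X ^ e'.1 * Y ^ e'.2) = X ^ e.1 * (Y ^ e.2 * X ^ e'.1) * Y ^ e'.2 := by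
        noncomm_ring
    _ = X ^ e.1 * (X ^ e'.1 * Y ^ e.2) * Y ^ e'.2 := by rw [(hc.symm.pow_pow e.2 e'.1).eq]
    _ = X ^ e.1 * X ^ e'.1 * (Y ^ e.2 * Y ^ e'.2) := by noncomm_ring

theorem spn_mon_zero {n : ℕ} {R : Type} [CommRing R] (X Y : Matrix (Fin n) (Fin n) R) :
    mon X Y (0, 0) = 1 := by
  simp [mon]

/-- the tensors with `k` matrices `a` -/
def spn_S {n q : ℕ} {R : Type} [CommRing R] [Algebra ℂ R] (X Y : Matrix (Fin n) (Fin n) R)
    (s : Fin (q + 1)) (k : ℕ) : Submodule ℂ (Ten n (q + 1) R) :=
  Submodule.span ℂ {G : Ten n (q + 1) R | ∃ (a : Fin k → ℕ × ℕ) (m' : Fin (q + 1) → ℕ × ℕ),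
      G = GT s (fun t => mon X Y (a t)) (fun r => mon X Y (m' r))}

theorem spn_step {n q : ℕ} {R : Type} [CommRing R] [Algebra ℂ R]
    (X Y : Matrix (Fin n) (Fin n) R) (s : Fin (q + 1)) (k : ℕ) (hTr : St_Tr) (hk : k + q < n) :
    spn_S X Y s k ≤ spn_S X Y s (k + 1) := by
  rw [spn_S, Submodule.span_le]
  rintro _ ⟨a, m, rfl⟩
  have hne : ((n : ℂ) - k - q) ≠ 0 := by
    have : (((n - k - q : ℕ) : ℕ) : ℂ) ≠ 0 := by
      rw [Nat.cast_ne_zero]
      omega
    rwa [Nat.cast_sub (by omega), Nat.cast_sub (by omega)] at this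
  have key : GT s (fun t => mon X Y (a t)) (fun r => mon X Y (m r)) =
      (((n : ℂ) - k - q)⁻¹) • GT s
        (fun t => mon X Y ((Fin.cons (0, 0) a : Fin (k + 1) → ℕ × ℕ) t))
        (fun r => mon X Y (m r)) := by
    funext i j
    have h1 := hTr n k q R 1 (fun t => mon X Y (a t)) (fun r => mon X Y (m r)) i (bs j) s
    simp only [mul_one, Function.update_eq_self] at h1
    rw [Finset.sum_const, Finset.sum_const, Finset.card_erase_of_mem (Finset.mem_univ s),
      Finset.card_univ, Finset.card_univ, Fintype.card_fin, Fintype.card_fin, Nat.add_sub_cancel,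
      Matrix.trace_one, Fintype.card_fin, nsmul_eq_mul, nsmul_eq_mul] at h1
    have h2 : (Fin.cons (1 : Matrix (Fin n) (Fin n) R) (fun t => mon X Y (a t)) :
        Fin (k + 1) → Matrix (Fin n) (Fin n) R) =
        fun t => mon X Y ((Fin.cons (0, 0) a : Fin (k + 1) → ℕ × ℕ) t) := by
      funext t
      refine Fin.cases ?_ (fun t => ?_) t
      · rw [Fin.cons_zero, Fin.cons_zero, spn_mon_zero]
      · rw [Fin.cons_succ, Fin.cons_succ]
    rw [h2] at h1
    simp only [GT, Pi.smul_apply]
    have h3 : CO (fun t => mon X Y ((Fin.cons (0, 0) a : Fin (k + 1) → ℕ × ℕ) t))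
        (fun r => mon X Y (m r)) i (bs j) s = ((n : ℂ) - k - q) •
        CO (fun t => mon X Y (a t)) (fun r => mon X Y (m r)) i (bs j) s := by
      rw [Algebra.smul_def, map_sub, map_sub, map_natCast, map_natCast, map_natCast]
      linear_combination -h1
    rw [h3, mul_smul_comm, smul_smul, inv_mul_cancel₀ hne, one_smul]
  rw [key]
  exact Submodule.smul_mem _ _ (Submodule.subset_span ⟨_, _, rfl⟩)

theorem spn_le {n q : ℕ} {R : Type} [CommRing R] [Algebra ℂ R]
    (X Y : Matrix (Fin n) (Fin n) R) (s : Fin (q + 1)) (hTr : St_Tr) :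
    ∀ k : ℕ, k + q ≤ n → spn_S X Y s 0 ≤ spn_S X Y s k := by
  intro k
  induction k with
  | zero => exact fun _ => le_rfl
  | succ k ih => exact fun h => (ih (by omega)).trans (spn_step X Y s k hTr (by omega))

theorem spn_trace {n q K : ℕ} (hK : K + q = n) {R : Type} [CommRing R] [Algebra ℂ R]
    (X Y : Matrix (Fin n) (Fin n) R) (hXY : X * Y = Y * X) (s : Fin (q + 1)) (hP0 : St_P0)
    (hTr : St_Tr) (e : ℕ × ℕ) {F : Ten n (q + 1) R} (hF : F ∈ spn_S X Y s K) :
    (fun i j => (mon X Y e).trace * F i j) ∈ spn_S X Y s K := by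
  rw [spn_S] at hF
  induction hF using Submodule.span_induction with
  | mem G hG =>
    obtain ⟨a, m, rfl⟩ := hG
    have key : (fun i j => (mon X Y e).trace *
        GT s (fun t => mon X Y (a t)) (fun r => mon X Y (m r)) i j) =
        ∑ t : Fin K, GT s (fun t' => mon X Y (Function.update a t (a t + e) t'))
          (fun r => mon X Y (m r)) +
        ∑ r ∈ Finset.univ.erase s, GT s (fun t => mon X Y (a t))
          (fun r' => mon X Y (Function.update m r (m r + e) r')) := by
      funext i j
      have h1 := hTr n K q R (mon X Y e) (fun t => mon X Y (a t)) (fun r => mon X Y (m r)) i (bs j)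
        s
      rw [(hP0 n (K + 1) R _).2 q _ i (bs j) s (by omega), zero_add] at h1
      have e1 : ∀ t : Fin K, Function.update (fun t => mon X Y (a t)) t
          (mon X Y (a t) * mon X Y e) =
          fun t' => mon X Y (Function.update a t (a t + e) t') := by
        intro t
        funext t'
        by_cases h : t' = t
        · subst h
          rw [Function.update_self, Function.update_self, spn_mon_mul hXY]
        · rw [Function.update_of_ne h, Function.update_of_ne h]
      have e2 : ∀ r : Fin (q + 1), Function.update (fun r => mon X Y (m r)) r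
          (mon X Y (m r) * mon X Y e) =
          fun r' => mon X Y (Function.update m r (m r + e) r') := by
        intro r
        funext r'
        by_cases h : r' = r
        · subst h
          rw [Function.update_self, Function.update_self, spn_mon_mul hXY]
        · rw [Function.update_of_ne h, Function.update_of_ne h]
      simp only [e1, e2] at h1
      simp only [Pi.add_apply, Finset.sum_apply, GT]
      have e3 : ∀ r ∈ Finset.univ.erase s,
          mon X Y (Function.update m r (m r + e) s) (i s) (j 0) *
            CO (fun t => mon X Y (a t)) (fun r' => mon X Y (Function.update m r (m r + e) r')) i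
              (bs j) s =
          mon X Y (m s) (i s) (j 0) *
            CO (fun t => mon X Y (a t)) (fun r' => mon X Y (Function.update m r (m r + e) r')) i
              (bs j) s := by
        intro r hr
        rw [Function.update_of_ne (Finset.ne_of_mem_erase hr).symm]
      rw [Finset.sum_congr rfl e3, ← Finset.mul_sum, ← Finset.mul_sum, ← mul_add, ← h1]
      ring
    rw [key]
    apply Submodule.add_mem
    · exact Submodule.sum_mem _ fun t _ => Submodule.subset_span ⟨_, _, rfl⟩
    · exact Submodule.sum_mem _ fun r _ => Submodule.subset_span ⟨_, _, rfl⟩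
  | zero =>
    have : (fun i j => (mon X Y e).trace * (0 : Ten n (q + 1) R) i j) = 0 := by
      funext i j
      exact mul_zero _
    rw [this]
    exact Submodule.zero_mem _
  | add F G _ _ h1 h2 =>
    have : (fun i j => (mon X Y e).trace * (F + G) i j) =
        (fun i j => (mon X Y e).trace * F i j) + fun i j => (mon X Y e).trace * G i j := by
      funext i j
      exact mul_add _ _ _
    rw [this]
    exact Submodule.add_mem _ h1 h2
  | smul z F _ h1 =>
    have : (fun i j => (mon X Y e).trace * (z • F) i j) =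
        z • fun i j => (mon X Y e).trace * F i j := by
      funext i j
      exact mul_smul_comm _ _ _
    rw [this]
    exact Submodule.smul_mem _ _ h1

theorem spn_trs {n q K : ℕ} (hK : K + q = n) {R : Type} [CommRing R] [Algebra ℂ R]
    (X Y : Matrix (Fin n) (Fin n) R) (hXY : X * Y = Y * X) (s : Fin (q + 1)) (hP0 : St_P0)
    (hTr : St_Tr) {F : Ten n (q + 1) R} (hF : F ∈ spn_S X Y s K) (ts : List (ℕ × ℕ)) :
    (fun i j => trs X Y ts * F i j) ∈ spn_S X Y s K := by
  induction ts with
  | nil =>
    have : (fun i j => trs X Y [] * F i j) = F := by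
      funext i j
      simp [trs]
    rw [this]
    exact hF
  | cons e ts ih =>
    have : (fun i j => trs X Y (e :: ts) * F i j) =
        fun i j => (mon X Y e).trace * ((fun i j => trs X Y ts * F i j) : Ten n (q + 1) R) i j := by
      funext i j
      simp only [trs, List.map_cons, List.prod_cons]
      ring
    rw [this]
    exact spn_trace hK X Y hXY s hP0 hTr e ih

theorem thm_Spn (hP0 : St_P0) (hTr : St_Tr) : St_Spn := by
  intro n K q hK R _ _ X Y hXY ts s m
  apply spn_trs hK X Y hXY s hP0 hTr
  apply spn_le X Y s hTr K hK.le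
  refine Submodule.subset_span ⟨Fin.elim0, m, ?_⟩
  congr 1
  funext t
  exact t.elim0

end Pool.Agent.AVH
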