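import Pool.Agent.AVH.St

/-!
# AVH, module Sym: invariance of `GG` under permutations of the points `R_p`
-/

set_option autoImplicit false

noncomputable section

namespace Pool.Agent.AVH

open Matrix

/-- the sum of the cofactors is symmetric in the matrices `a` -/
theorem sym_CO {n k q : ℕ} {R : Type} [CommRing R] (a : Fin k → Matrix (Fin n) (Fin n) R)
    (m : Fin (q + 1) → Matrix (Fin n) (Fin n) R) (i : Fin (q + 1) → Fin n)
    (v : Fin (q + 1) → Fin n → R) (s : Fin (q + 1)) (π : Equiv.Perm (Fin k)) :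
    CO (fun t => a (π t)) m i v s = CO a m i v s := by
  unfold CO
  rw [← Equiv.sum_comp (Equiv.arrowCongr π.symm (Equiv.refl (Fin n)))]
  refine Finset.sum_congr rfl fun β _ => ?_
  rw [← Matrix.det_submatrix_equiv_self (Equiv.sumCongr π (Equiv.refl (Fin (q + 1))))
    ((Mt a m i v β).updateCol (Sum.inr 0) (Pi.single (Sum.inr s) 1))]
  congr 1
  ext r c
  rw [Matrix.submatrix_apply, Matrix.updateCol_apply, Matrix.updateCol_apply]
  rcases c with c | c
  · rw [if_neg (by simp), if_neg (by simp)]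
    rcases r with r | r <;> rfl
  · by_cases hc : c = 0
    · subst hc
      refine (if_pos rfl).trans (Eq.trans ?_ (if_pos rfl).symm)
      rcases r with r | r
      · have h2 : ∀ t : Fin k, Pi.single (M := fun _ : Fin k ⊕ Fin (q + 1) => R)
            (Sum.inr s) 1 (Sum.inl t) = 0 := fun t => Pi.single_eq_of_ne (by simp) _
        exact (h2 r).trans (h2 (π r)).symm
      · rfl
    · have h1 : (Sum.inr c : Fin k ⊕ Fin (q + 1)) ≠ Sum.inr 0 := by simpa using hc
      refine (if_neg h1).trans (Eq.trans ?_ (if_neg h1).symm)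
      rcases r with r | r <;> rfl

theorem sym_GG {n K q : ℕ} {R : Type} [CommRing R] [Algebra ℂ R]
    (X Y : Matrix (Fin n) (Fin n) R) (s : Fin (q + 1)) (d : (Fin K ⊕ Fin (q + 1)) × Fin 2 →₀ ℕ) :
    GG X Y s (MvPolynomial.monomial d 1) =
      GT s (fun t => mon X Y (d (Sum.inl t, 0), d (Sum.inl t, 1)))
        (fun r => mon X Y (d (Sum.inr r, 0), d (Sum.inr r, 1))) := by
  have h1 := (MvPolynomial.basisMonomials ((Fin K ⊕ Fin (q + 1)) × Fin 2) ℂ).constr_basis ℂ
    (fun d => GT s (fun t => mon X Y (d (Sum.inl t, 0), d (Sum.inl t, 1)))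
      (fun r => mon X Y (d (Sum.inr r, 0), d (Sum.inr r, 1)))) d
  rw [MvPolynomial.coe_basisMonomials] at h1
  exact h1

theorem thm_Sym : St_Sym := by
  intro n K q R _ _ X Y s h π
  have hlin : (GG X Y s).comp (sb (Sum.map π id) :
      Cf K (q + 1) →ₐ[ℂ] Cf K (q + 1)).toLinearMap = GG X Y s := by
    refine (MvPolynomial.basisMonomials ((Fin K ⊕ Fin (q + 1)) × Fin 2) ℂ).ext fun d => ?_
    rw [MvPolynomial.coe_basisMonomials]
    show GG X Y s (sb (Sum.map π id) (MvPolynomial.monomial d 1)) =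
      GG X Y s (MvPolynomial.monomial d 1)
    unfold sb
    rw [MvPolynomial.rename_monomial, sym_GG, sym_GG]
    have hinj : Function.Injective
        (fun o : (Fin K ⊕ Fin (q + 1)) × Fin 2 => (Sum.map π id o.1, o.2)) := by
      rintro ⟨o, c⟩ ⟨o', c'⟩ h
      have h1 : Sum.map π id o = Sum.map π id o' := congrArg Prod.fst h
      have h2 : c = c' := congrArg Prod.snd h
      rw [h2, (Sum.map_injective.2 ⟨π.injective, Function.injective_id⟩) h1]
    have hl : ∀ (t : Fin K) (c : Fin 2),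
        (Finsupp.mapDomain (fun o : (Fin K ⊕ Fin (q + 1)) × Fin 2 =>
          (Sum.map π id o.1, o.2)) d) (Sum.inl (π t), c) = d (Sum.inl t, c) := fun t c =>
      Finsupp.mapDomain_apply hinj d (Sum.inl t, c)
    have hr : ∀ (t : Fin (q + 1)) (c : Fin 2),
        (Finsupp.mapDomain (fun o : (Fin K ⊕ Fin (q + 1)) × Fin 2 =>
          (Sum.map π id o.1, o.2)) d) (Sum.inr t, c) = d (Sum.inr t, c) := fun t c =>
      Finsupp.mapDomain_apply hinj d (Sum.inr t, c)
    funext i j
    unfold GT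
    simp only [hr, ← hl]
    rw [sym_CO (fun t => mon X Y
      ((Finsupp.mapDomain (fun o : (Fin K ⊕ Fin (q + 1)) × Fin 2 =>
          (Sum.map π id o.1, o.2)) d) (Sum.inl t, 0),
        (Finsupp.mapDomain (fun o : (Fin K ⊕ Fin (q + 1)) × Fin 2 =>
          (Sum.map π id o.1, o.2)) d) (Sum.inl t, 1)))]
  exact LinearMap.congr_fun hlin h

end Pool.Agent.AVH
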