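import Pool.Agent.AVH.St

/-!
# AVH: absorption of a trace
-/

set_option autoImplicit false

noncomputable section

namespace Pool.Agent.AVH

open Matrix

/-- a determinant with a border -/
theorem tr_border {T : Type} [Fintype T] [DecidableEq T] {R : Type} [CommRing R] (x : R)
    (y z : T → R) (B : Matrix T T R) :
    (fromBlocks (fun _ _ : Unit => x) (fun _ w => y w) (fun r _ => z r) B).det =
      x * B.det - ∑ r, z r * (B.updateRow r y).det := by
  rw [det_eq_sum_mul_adjugate_col _ (Sum.inl ()), Fintype.sum_sum_type]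
  simp only [adjugate_apply, Finset.univ_unique, Finset.sum_singleton]
  rw [sub_eq_add_neg, ← Finset.sum_neg_distrib]
  congr 1
  · have h1 : (fromBlocks (fun _ _ : Unit => x) (fun _ w => y w) (fun r _ => z r) B).updateRow
        (Sum.inl default) (Pi.single (Sum.inl ()) 1) =
        fromBlocks (1 : Matrix Unit Unit R) 0 (fun r _ => z r) B := by
      ext r w
      rcases r with r | r
      · rcases w with w | w
        · simp [updateRow_apply]
        · simp [updateRow_apply]
      · rcases w with w | w
        · simp [updateRow_apply]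
        · simp [updateRow_apply]
    rw [h1, det_fromBlocks_zero₁₂, det_one, one_mul]
    rfl
  · refine Finset.sum_congr rfl fun r _ => ?_
    have h1 : ((fromBlocks (fun _ _ : Unit => x) (fun _ w => y w) (fun r _ => z r) B).updateRow
        (Sum.inr r) (Pi.single (Sum.inl ()) 1)).submatrix
          (Equiv.swap (Sum.inl ()) (Sum.inr r)) id =
        fromBlocks (1 : Matrix Unit Unit R) 0 (fun r' _ => if r' = r then x else z r')
          (B.updateRow r y) := by
      ext r' w
      rcases r' with r' | r'
      · rcases w with w | w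
        · simp [updateRow_apply]
        · simp [updateRow_apply]
      · by_cases h2 : r' = r
        · subst h2
          rcases w with w | w
          · simp [updateRow_apply]
          · simp [updateRow_apply]
        · have h3 : Equiv.swap (Sum.inl () : Unit ⊕ T) (Sum.inr r) (Sum.inr r') = Sum.inr r' :=
            Equiv.swap_apply_of_ne_of_ne (by simp) (by simpa using h2)
          rcases w with w | w
          · simp [updateRow_apply, h2, h3]
          · simp [updateRow_apply, h2, h3]
    have h4 := det_permute (Equiv.swap (Sum.inl () : Unit ⊕ T) (Sum.inr r))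
      ((fromBlocks (fun _ _ : Unit => x) (fun _ w => y w) (fun r _ => z r) B).updateRow
        (Sum.inr r) (Pi.single (Sum.inl ()) 1))
    rw [h1, det_fromBlocks_zero₁₂, det_one, one_mul,
      Equiv.Perm.sign_swap (by simp)] at h4
    have h5 : (B.updateRow r y).det = -((fromBlocks (fun _ _ : Unit => x) (fun _ w => y w)
        (fun r _ => z r) B).updateRow (Sum.inr r) (Pi.single (Sum.inl ()) 1)).det := by
      rw [h4]
      simp
    rw [h5]
    simp only [fromBlocks_apply₂₁]
    ring

section gen

variable {T : Type} [Fintype T] [DecidableEq T] {n : ℕ} {R : Type} [CommRing R]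

/-- the matrix of the rows `(M_r; ρ_r)` and the columns `W_w`, the column `w0` is replaced by `e_(s0)` -/
def tr_G (M : T → Matrix (Fin n) (Fin n) R) (ρ : T → Fin n) (W : T → Fin n → R) (w0 s0 : T) :
    Matrix T T R :=
  fun r w => if w = w0 then (Pi.single s0 1 : T → R) r else (M r *ᵥ W w) (ρ r)

theorem tr_det_sum (B : Matrix T T R) (r : T) (y : Fin n → T → R) :
    (B.updateRow r (∑ a, y a)).det = ∑ a, (B.updateRow r (y a)).det :=
  AlternatingMap.map_update_sum (detRowAlternating : (T → R) [⋀^T]→ₗ[R] R) Finset.univ r y B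

theorem tr_row (M : T → Matrix (Fin n) (Fin n) R) (ρ : T → Fin n) (W : T → Fin n → R) (w0 s0 : T)
    (c : Matrix (Fin n) (Fin n) R) (r : T) :
    ∑ a : Fin n, M r (ρ r) a * ((tr_G M ρ W w0 s0).updateRow r
      (fun w => if w = w0 then 0 else (c *ᵥ W w) a)).det =
      if r = s0 then 0 else (tr_G (Function.update M r (M r * c)) ρ W w0 s0).det := by
  have h1 : ∑ a : Fin n, M r (ρ r) a * ((tr_G M ρ W w0 s0).updateRow r
      (fun w => if w = w0 then 0 else (c *ᵥ W w) a)).det =
      ((tr_G M ρ W w0 s0).updateRow r (∑ a : Fin n, M r (ρ r) a •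
        (fun w => if w = w0 then 0 else (c *ᵥ W w) a))).det := by
    rw [tr_det_sum]
    refine Finset.sum_congr rfl fun a _ => ?_
    rw [det_updateRow_smul]
  have h2 : (∑ a : Fin n, M r (ρ r) a • (fun w => if w = w0 then 0 else (c *ᵥ W w) a)) =
      fun w => if w = w0 then 0 else ((M r * c) *ᵥ W w) (ρ r) := by
    ext w
    rw [Finset.sum_apply]
    by_cases h3 : w = w0
    · simp [h3]
    · simp only [h3, if_false, Pi.smul_apply, smul_eq_mul]
      rw [← mulVec_mulVec]
      rfl
  rw [h1, h2]
  by_cases h4 : r = s0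
  · rw [if_pos h4]
    apply det_eq_zero_of_column_eq_zero w0
    intro r'
    rw [updateRow_apply]
    by_cases h5 : r' = r
    · rw [if_pos h5]
      simp
    · rw [if_neg h5]
      unfold tr_G
      rw [if_pos rfl, Pi.single_apply, if_neg]
      rw [← h4]
      exact h5
  · rw [if_neg h4]
    congr 1
    ext r' w
    rw [updateRow_apply]
    unfold tr_G
    by_cases h5 : r' = r
    · subst h5
      rw [if_pos rfl]
      by_cases h6 : w = w0
      · rw [if_pos h6, if_pos h6, Pi.single_apply, if_neg h4]
      · rw [if_neg h6, if_neg h6, Function.update_self]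
    · rw [if_neg h5, Function.update_of_ne h5]

/-- the identity for fixed `α'` -/
theorem tr_fix (M : T → Matrix (Fin n) (Fin n) R) (ρ : T → Fin n) (W : T → Fin n → R) (w0 s0 : T)
    (c : Matrix (Fin n) (Fin n) R) :
    ∑ a : Fin n, (fromBlocks (fun _ _ : Unit => c a a)
      (fun _ w => if w = w0 then 0 else (c *ᵥ W w) a) (fun r _ => M r (ρ r) a)
        (tr_G M ρ W w0 s0)).det =
      c.trace * (tr_G M ρ W w0 s0).det -
        ∑ r, if r = s0 then 0 else (tr_G (Function.update M r (M r * c)) ρ W w0 s0).det := by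
  have h1 : ∀ a : Fin n, (fromBlocks (fun _ _ : Unit => c a a)
      (fun _ w => if w = w0 then 0 else (c *ᵥ W w) a) (fun r _ => M r (ρ r) a)
        (tr_G M ρ W w0 s0)).det =
      c a a * (tr_G M ρ W w0 s0).det - ∑ r, M r (ρ r) a * ((tr_G M ρ W w0 s0).updateRow r
        (fun w => if w = w0 then 0 else (c *ᵥ W w) a)).det := fun a =>
    tr_border (c a a) (fun w => if w = w0 then 0 else (c *ᵥ W w) a) (fun r => M r (ρ r) a) _
  simp only [h1]
  rw [Finset.sum_sub_distrib, ← Finset.sum_mul, Finset.sum_comm]
  congr 1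
  exact Finset.sum_congr rfl fun r _ => tr_row M ρ W w0 s0 c r

end gen

/-- the indices with a first element -/
def tr_e (k l : ℕ) : Unit ⊕ (Fin k ⊕ Fin l) ≃ Fin (k + 1) ⊕ Fin l where
  toFun x := Sum.elim (fun _ => Sum.inl 0) (Sum.elim (fun t => Sum.inl t.succ) Sum.inr) x
  invFun x := Sum.elim (Fin.cases (Sum.inl ()) (fun t => Sum.inr (Sum.inl t)))
    (fun r => Sum.inr (Sum.inr r)) x
  left_inv x := by
    rcases x with x | x | x <;> simp
  right_inv x := by
    rcases x with x | x
    · refine Fin.cases ?_ (fun t => ?_) x <;> simp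
    · simp

theorem tr_Mt {n k q : ℕ} {R : Type} [CommRing R] (a : Fin k → Matrix (Fin n) (Fin n) R)
    (m : Fin (q + 1) → Matrix (Fin n) (Fin n) R) (i : Fin (q + 1) → Fin n)
    (v : Fin (q + 1) → Fin n → R) (s : Fin (q + 1)) (α : Fin k → Fin n) :
    (Mt a m i v α).updateCol (Sum.inr 0) (Pi.single (Sum.inr s) 1) =
      tr_G (Sum.elim a m) (Sum.elim α i) (Sum.elim (fun t => Pi.single (α t) 1) v) (Sum.inr 0)
        (Sum.inr s) := by
  ext r w
  rw [updateCol_apply]
  rfl

theorem tr_cons {n k q : ℕ} {R : Type} [CommRing R] (c : Matrix (Fin n) (Fin n) R)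
    (a : Fin k → Matrix (Fin n) (Fin n) R)
    (m : Fin (q + 1) → Matrix (Fin n) (Fin n) R) (i : Fin (q + 1) → Fin n)
    (v : Fin (q + 1) → Fin n → R) (s : Fin (q + 1)) (b : Fin n) (α : Fin k → Fin n) :
    ((Mt (Fin.cons c a : Fin (k + 1) → Matrix (Fin n) (Fin n) R) m i v
      (Fin.cons b α : Fin (k + 1) → Fin n)).updateCol (Sum.inr 0)
        (Pi.single (Sum.inr s) 1)).det =
      (fromBlocks (fun _ _ : Unit => c b b)
      (fun _ w => if w = (Sum.inr 0 : Fin k ⊕ Fin (q + 1)) then 0 else
        (c *ᵥ Sum.elim (fun t => Pi.single (α t) 1) v w) b)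
      (fun r _ => Sum.elim a m r (Sum.elim α i r) b)
        (tr_G (Sum.elim a m) (Sum.elim α i) (Sum.elim (fun t => Pi.single (α t) 1) v)
          (Sum.inr 0) (Sum.inr s))).det := by
  rw [← det_submatrix_equiv_self (tr_e k (q + 1))]
  congr 1
  ext r w
  rw [submatrix_apply, updateCol_apply]
  rcases r with r | r | r
  · rcases w with w | w | w
    · simp [tr_e, Mt]
    · simp [tr_e, Mt]
    · by_cases h : w = 0
      · simp [tr_e, Mt, h]
      · simp [tr_e, Mt, h]
  · rcases w with w | w | w
    · simp [tr_e, Mt]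
    · simp [tr_e, Mt, tr_G]
    · by_cases h : w = 0
      · simp [tr_e, Mt, tr_G, h]
      · simp [tr_e, Mt, tr_G, h]
  · rcases w with w | w | w
    · simp [tr_e, Mt]
    · simp [tr_e, Mt, tr_G]
    · by_cases h : w = 0
      · simp [tr_e, Mt, tr_G, h, Pi.single_apply]
      · simp [tr_e, Mt, tr_G, h]

theorem thm_Tr : St_Tr := by
  intro n k q R _ c a m i v s
  have h1 : CO (Fin.cons c a : Fin (k + 1) → Matrix (Fin n) (Fin n) R) m i v s =
      ∑ α : Fin k → Fin n, ∑ b : Fin n,
        ((Mt (Fin.cons c a : Fin (k + 1) → Matrix (Fin n) (Fin n) R) m i v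
          (Fin.cons b α : Fin (k + 1) → Fin n)).updateCol (Sum.inr 0)
            (Pi.single (Sum.inr s) 1)).det := by
    unfold CO
    rw [Finset.sum_comm, ← Fintype.sum_prod_type',
      ← (Fin.consEquiv (fun _ : Fin (k + 1) => Fin n)).sum_comp]
    rfl
  have h2 : ∀ α : Fin k → Fin n, ∑ b : Fin n,
        ((Mt (Fin.cons c a : Fin (k + 1) → Matrix (Fin n) (Fin n) R) m i v
          (Fin.cons b α : Fin (k + 1) → Fin n)).updateCol (Sum.inr 0)
            (Pi.single (Sum.inr s) 1)).det =
      c.trace * ((Mt a m i v α).updateCol (Sum.inr 0) (Pi.single (Sum.inr s) 1)).det -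
        (∑ t, ((Mt (Function.update a t (a t * c)) m i v α).updateCol (Sum.inr 0)
          (Pi.single (Sum.inr s) 1)).det +
        ∑ r ∈ Finset.univ.erase s, ((Mt a (Function.update m r (m r * c)) i v α).updateCol
          (Sum.inr 0) (Pi.single (Sum.inr s) 1)).det) := by
    intro α
    simp only [tr_cons]
    simp only [tr_Mt]
    rw [tr_fix, Fintype.sum_sum_type]
    congr 2
    · refine Finset.sum_congr rfl fun t _ => ?_
      rw [if_neg (by simp), Sum.elim_inl, ← Sum.update_elim_inl]
    · rw [← Finset.sum_erase_add _ _ (Finset.mem_univ s)]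
      rw [if_pos rfl, add_zero]
      refine Finset.sum_congr rfl fun r hr => ?_
      have hr' : r ≠ s := (Finset.mem_erase.1 hr).1
      rw [if_neg (by simpa using hr'), Sum.elim_inr, ← Sum.update_elim_inr]
  rw [h1]
  simp only [h2]
  rw [Finset.sum_sub_distrib, Finset.sum_add_distrib, ← Finset.mul_sum, Finset.sum_comm,
    Finset.sum_comm (s := Finset.univ) (t := Finset.univ.erase s)]
  unfold CO
  ring

end Pool.Agent.AVH
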