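import Pool.Agent.AVH.Lfa
import Pool.Agent.AVH.Lfb
import Pool.Agent.AVH.Hc
import Pool.Agent.AVH.Cm
import Pool.Agent.AVH.Cd
import Pool.Agent.AVH.Fft
import Pool.Agent.AVH.Red
import Pool.Agent.AVH.Alt
import Pool.Agent.AVH.P0
import Pool.Agent.AVH.Ind
import Pool.Agent.AVH.Exp
import Pool.Agent.AVH.Tr
import Pool.Agent.AVH.Spn
import Pool.Agent.AVH.Rel
import Pool.Agent.AVH.Sym
import Pool.Agent.AVH.Nat
import Pool.Agent.AVH.Ev
import Pool.Agent.AVH.Pts
import Pool.Agent.AVH.Elm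
import Pool.Agent.AVH.Mai

/-!
# AVH: assembly
-/

set_option autoImplicit false

namespace Pool.Agent.AVH

/-- Equivariant families which are alternating in the inputs `1, .., q` and vanish on commuting pairs have their
coordinates in the ideal generated by the entries of `x y - y x`. -/
theorem all_Mai : St_Mai :=
  thm_Mai (thm_Fft thm_Lfa thm_Hc (thm_Cm thm_Lfb) thm_Cd) thm_Red thm_Alt (thm_Spn thm_P0 thm_Tr)
    thm_Sym thm_Nat (thm_Elm (thm_Rel thm_P0 thm_Ind thm_Exp) (thm_Pts thm_Ev))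

end Pool.Agent.AVH
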