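import Mathlib

/-!
# AVH: definitions

Equivariant polynomial maps from pairs of matrices to `Hom(V ⊗ Λ^q V, V^{⊗ (q + 1)})` (MP_c67a3f_ag).
-/

set_option autoImplicit false

noncomputable section

namespace Pool.Agent.AVH

open Matrix

/-- The variables: `(0, a, b)` is `x_ab`, `(1, a, b)` is `y_ab`. -/
abbrev Vr (n : ℕ) : Type := Fin 2 × Fin n × Fin n

/-- The polynomials in the entries of two matrices. -/
abbrev Sn (n : ℕ) : Type := MvPolynomial (Vr n) ℂ

/-- The matrix of the variables `(c, a, b)`. -/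
def zM (n : ℕ) (c : Fin 2) : Matrix (Fin n) (Fin n) (Sn n) := fun a b => MvPolynomial.X (c, a, b)

/-- The ideal generated by the entries of `x y - y x`. -/
def comI (n : ℕ) : Ideal (Sn n) :=
  Ideal.span {f | ∃ a b, f = (zM n 0 * zM n 1 - zM n 1 * zM n 0) a b}

/-- The value at two matrices over a complex algebra. -/
def evR {n : ℕ} {R : Type} [CommRing R] [Algebra ℂ R] (A B : Matrix (Fin n) (Fin n) R) :
    Sn n →ₐ[ℂ] R :=
  MvPolynomial.aeval fun t => if t.1 = 0 then A t.2.1 t.2.2 else B t.2.1 t.2.2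

/-- Tensors, that is, families `F i j`, `i` the index of the output, `j` the index of the input. -/
abbrev Ten (n l : ℕ) (R : Type) : Type := (Fin l → Fin n) → (Fin l → Fin n) → R

/-- Equivariance: `F (g A g⁻¹, g B g⁻¹) = g^{⊗ l} F (A, B) (g⁻¹)^{⊗ l}`. -/
def Equi {n l : ℕ} (F : Ten n l (Sn n)) : Prop :=
  ∀ g h A B : Matrix (Fin n) (Fin n) ℂ, g * h = 1 → ∀ i j,
    evR (g * A * h) (g * B * h) (F i j) =
      ∑ i', ∑ j', (∏ s, g (i s) (i' s)) * evR A B (F i' j') * ∏ s, h (j' s) (j s)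

/-- `F` is alternating in the inputs `1, .., q`. -/
def AltIn {n q : ℕ} {R : Type} [CommRing R] (F : Ten n (q + 1) R) : Prop :=
  ∀ σ : Equiv.Perm (Fin (q + 1)), σ 0 = 0 → ∀ i j,
    F i (j ∘ σ) = ((Equiv.Perm.sign σ : ℤ) : R) * F i j

/-! ### monomials, traces, permutations -/

/-- `X^a Y^b`. -/
def mon {n : ℕ} {R : Type} [CommRing R] (X Y : Matrix (Fin n) (Fin n) R) (e : ℕ × ℕ) :
    Matrix (Fin n) (Fin n) R := X ^ e.1 * Y ^ e.2

/-- The product of the traces of monomials. -/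
def trs {n : ℕ} {R : Type} [CommRing R] (X Y : Matrix (Fin n) (Fin n) R) (ts : List (ℕ × ℕ)) : R :=
  (ts.map fun e => (mon X Y e).trace).prod

/-- The contraction given by a permutation: `∑_a ∏_r (M_r)_(α_(π r), β_r)` with `α = (a, i)`, `β = (a, j)`. -/
def Gam {k n l : ℕ} {R : Type} [CommRing R] (π : Equiv.Perm (Fin k ⊕ Fin l))
    (M : Fin k ⊕ Fin l → Matrix (Fin n) (Fin n) R) : Ten n l R :=
  fun i j => ∑ a : Fin k → Fin n, ∏ r, M r (Sum.elim a i (π r)) (Sum.elim a j r)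

/-- The basic tensors. -/
def PsiSet {n : ℕ} {R : Type} [CommRing R] (X Y : Matrix (Fin n) (Fin n) R) (l : ℕ) :
    Set (Ten n l R) :=
  {G | ∃ (ts : List (ℕ × ℕ)) (σ : Equiv.Perm (Fin l)) (m : Fin l → ℕ × ℕ),
    G = fun i j => trs X Y ts * ∏ s, mon X Y (m s) (i s) (j (σ s))}

/-! ### determinants -/

/-- The matrix with rows `(a_t; α_t)`, `(m_r; i_r)` and columns the vectors `e_(α_t)`, `v_r`; its entry in the row
`(M; ρ)` and the column `w` is `(M w)_ρ`. -/
def Mt {n k l : ℕ} {R : Type} [CommRing R] (a : Fin k → Matrix (Fin n) (Fin n) R)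
    (m : Fin l → Matrix (Fin n) (Fin n) R) (i : Fin l → Fin n) (v : Fin l → Fin n → R)
    (α : Fin k → Fin n) : Matrix (Fin k ⊕ Fin l) (Fin k ⊕ Fin l) R :=
  fun r c => (Sum.elim a m r *ᵥ Sum.elim (fun t => Pi.single (α t) 1) v c) (Sum.elim α i r)

/-- The sum over `α` of the determinants. -/
def XI {n k l : ℕ} {R : Type} [CommRing R] (a : Fin k → Matrix (Fin n) (Fin n) R)
    (m : Fin l → Matrix (Fin n) (Fin n) R) (i : Fin l → Fin n) (v : Fin l → Fin n → R) : R :=
  ∑ α : Fin k → Fin n, (Mt a m i v α).det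

/-- The sum over `α` of the cofactors of the row `inr s` and the column `inr 0`. -/
def CO {n k q : ℕ} {R : Type} [CommRing R] (a : Fin k → Matrix (Fin n) (Fin n) R)
    (m : Fin (q + 1) → Matrix (Fin n) (Fin n) R) (i : Fin (q + 1) → Fin n)
    (v : Fin (q + 1) → Fin n → R) (s : Fin (q + 1)) : R :=
  ∑ α : Fin k → Fin n, ((Mt a m i v α).updateCol (Sum.inr 0) (Pi.single (Sum.inr s) 1)).det

/-- The standard vectors. -/
def bs {n l : ℕ} {R : Type} [CommRing R] (j : Fin l → Fin n) : Fin l → Fin n → R :=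
  fun t => Pi.single (j t) 1

/-- The tensor with `u` in the slot `s`. -/
def GT {n k q : ℕ} {R : Type} [CommRing R] (s : Fin (q + 1)) (a : Fin k → Matrix (Fin n) (Fin n) R)
    (m : Fin (q + 1) → Matrix (Fin n) (Fin n) R) : Ten n (q + 1) R :=
  fun i j => m s (i s) (j 0) * CO a m i (bs j) s

/-! ### coefficients -/

/-- Polynomials in points `R_p`, `Q_r` of the plane: `(inl p, c)` and `(inr r, c)` are their coordinates. -/
abbrev Cf (K l : ℕ) : Type := MvPolynomial ((Fin K ⊕ Fin l) × Fin 2) ℂ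

/-- The tensors with monomial matrices, extended linearly to all polynomials. -/
def GG {n K q : ℕ} {R : Type} [CommRing R] [Algebra ℂ R] (X Y : Matrix (Fin n) (Fin n) R)
    (s : Fin (q + 1)) : Cf K (q + 1) →ₗ[ℂ] Ten n (q + 1) R :=
  (MvPolynomial.basisMonomials _ ℂ).constr ℂ fun d =>
    GT s (fun t => mon X Y (d (Sum.inl t, 0), d (Sum.inl t, 1)))
      (fun r => mon X Y (d (Sum.inr r, 0), d (Sum.inr r, 1)))

/-- The diagonal matrix of the coordinates number `c` of the points `P`. -/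
def dg {n : ℕ} (P : Fin n → Fin 2 → ℂ) (c : Fin 2) : Matrix (Fin n) (Fin n) ℂ :=
  Matrix.diagonal fun a => P a c

/-- The substitution of points. -/
def sb {ι κ : Type} (f : ι → κ) : MvPolynomial (ι × Fin 2) ℂ →ₐ[ℂ] MvPolynomial (κ × Fin 2) ℂ :=
  MvPolynomial.rename fun o => (f o.1, o.2)

/-- `h` is symmetric in the points `R_p`. -/
def SymR {K l : ℕ} (h : Cf K l) : Prop := ∀ π : Equiv.Perm (Fin K), sb (Sum.map π id) h = h

end Pool.Agent.AVH
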