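import Mathlib

/-!
# Equivariant polynomial maps from pairs of traceless matrices to `Hom(V ⊗ Λ^q V, V^{⊗ (q + 1)})`: definitions
-/

set_option autoImplicit false

noncomputable section

namespace Pool.Agent.AVH.E

open Matrix

/-- The polynomial functions of two matrices of size `n`: the variable `(0, a, b)` is the entry `x_ab` of the first
matrix, `(1, a, b)` is the entry `y_ab` of the second one. -/
abbrev Poly (n : ℕ) : Type := MvPolynomial (Fin 2 × Fin n × Fin n) ℂ

/-- The value of a polynomial function at the pair `(A, B)`. -/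
def value {n : ℕ} (f : Poly n) (A B : Matrix (Fin n) (Fin n) ℂ) : ℂ :=
  MvPolynomial.eval (fun t => if t.1 = 0 then A t.2.1 t.2.2 else B t.2.1 t.2.2) f

/-- Polynomial maps from pairs of matrices to the endomorphisms of `V^{⊗ l}`, `V = ℂ^n`, given by their matrix
coefficients: `F i j` is the coefficient of `e_(i 0) ⊗ .. ⊗ e_(i (l - 1))` in the image of
`e_(j 0) ⊗ .. ⊗ e_(j (l - 1))`. -/
abbrev PolyMap (n l : ℕ) : Type := (Fin l → Fin n) → (Fin l → Fin n) → Poly n

/-- Equivariance under `GL_n`, for pairs of traceless matrices: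
`F (g A g⁻¹, g B g⁻¹) = g^{⊗ l} ∘ F (A, B) ∘ (g⁻¹)^{⊗ l}`. -/
def Equivariant {n l : ℕ} (F : PolyMap n l) : Prop :=
  ∀ (g : (Matrix (Fin n) (Fin n) ℂ)ˣ) (A B : Matrix (Fin n) (Fin n) ℂ), A.trace = 0 → B.trace = 0 →
    ∀ i j, value (F i j) (g.val * A * g.inv) (g.val * B * g.inv) =
      ∑ i', ∑ j', (∏ s, g.val (i s) (i' s)) * value (F i' j') A B * ∏ s, g.inv (j' s) (j s)

/-- `F` is alternating in the inputs `1, .., q` (the input number `0` is not involved): it is a map to
`Hom(V ⊗ Λ^q V, V^{⊗ (q + 1)})`. -/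
def AltInputs {n q : ℕ} (F : PolyMap n (q + 1)) : Prop :=
  ∀ σ : Equiv.Perm (Fin (q + 1)), σ 0 = 0 → ∀ i j, F i (j ∘ σ) = (Equiv.Perm.sign σ : ℤ) • F i j

/-- `F` is alternating in the outputs `1, .., q`: it is a map to `Hom(V^{⊗ (q + 1)}, V ⊗ Λ^q V)`. -/
def AltOutputs {n q : ℕ} (F : PolyMap n (q + 1)) : Prop :=
  ∀ σ : Equiv.Perm (Fin (q + 1)), σ 0 = 0 → ∀ i j, F (i ∘ σ) j = (Equiv.Perm.sign σ : ℤ) • F i j

/-- The first matrix, with indeterminate entries. -/
def x (n : ℕ) : Matrix (Fin n) (Fin n) (Poly n) := fun a b => MvPolynomial.X (0, a, b)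

/-- The second matrix, with indeterminate entries. -/
def y (n : ℕ) : Matrix (Fin n) (Fin n) (Poly n) := fun a b => MvPolynomial.X (1, a, b)

/-- The ideal generated by the entries of `x y - y x` and the traces of `x` and `y`: the ideal of the commuting scheme
`C(sl_n)` in the space of pairs of matrices. -/
def idealSl (n : ℕ) : Ideal (Poly n) :=
  Ideal.span {f | ∃ a b, f = (x n * y n - y n * x n) a b} ⊔ Ideal.span {(x n).trace, (y n).trace}

end Pool.Agent.AVH.E
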