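import Pool.Agent.AVH.All
import Pool.Agent.AVH.EDefs

/-!
# Equivariant polynomial maps from pairs of traceless matrices to `Hom(V ⊗ Λ^q V, V^{⊗ (q + 1)})`: proof
-/

set_option autoImplicit false

noncomputable section

namespace Pool.Agent.AVH.E

open Matrix

variable {n q : ℕ}

/-! ### traceless matrices -/

/-- The traceless part of a matrix of polynomials. -/
def tl (Z : Matrix (Fin n) (Fin n) (Poly n)) : Matrix (Fin n) (Fin n) (Poly n) :=
  fun i j => Z i j - if i = j then MvPolynomial.C ((n : ℂ)⁻¹) * Z.trace else 0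

/-- The traceless part of a complex matrix. -/
def tc (Z : Matrix (Fin n) (Fin n) ℂ) : Matrix (Fin n) (Fin n) ℂ :=
  fun i j => Z i j - if i = j then (n : ℂ)⁻¹ * Z.trace else 0

theorem tc_eq (Z : Matrix (Fin n) (Fin n) ℂ) : tc Z = Z - ((n : ℂ)⁻¹ * Z.trace) • 1 := by
  ext i j
  simp only [tc, Matrix.sub_apply, Matrix.smul_apply, Matrix.one_apply, smul_eq_mul]
  split_ifs <;> simp

theorem tc_trace (Z : Matrix (Fin n) (Fin n) ℂ) : (tc Z).trace = 0 := by
  rw [tc_eq, Matrix.trace_sub, Matrix.trace_smul, Matrix.trace_one, Fintype.card_fin]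
  rcases Nat.eq_zero_or_pos n with h | h
  · subst h
    simp [Matrix.trace]
  · have h1 : (n : ℂ) ≠ 0 := by exact_mod_cast h.ne'
    rw [smul_eq_mul]
    field_simp
    ring

theorem tc_comm (A B : Matrix (Fin n) (Fin n) ℂ) (h : A * B = B * A) :
    tc A * tc B = tc B * tc A := by
  rw [tc_eq, tc_eq]
  have h1 : Commute A B := h
  have h2 : ∀ (Z : Matrix (Fin n) (Fin n) ℂ) (c : ℂ), Commute Z (c • 1) := fun Z c =>
    (Commute.one_right Z).smul_right c
  exact ((h1.sub_right (h2 A _)).sub_left ((h2 _ _).symm)).eq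

theorem tc_conj (g h Z : Matrix (Fin n) (Fin n) ℂ) (hg : g * h = 1) :
    tc (g * Z * h) = g * tc Z * h := by
  have hh : h * g = 1 := mul_eq_one_comm.1 hg
  have h1 : (g * Z * h).trace = Z.trace := by
    rw [Matrix.trace_mul_comm, ← Matrix.mul_assoc, hh, Matrix.one_mul]
  rw [tc_eq, tc_eq, h1, mul_sub, sub_mul, mul_smul_comm, smul_mul_assoc, mul_one, hg]

/-- The substitution `x ↦ x - tr x / n`, `y ↦ y - tr y / n`. -/
def pr (n : ℕ) : Poly n →ₐ[ℂ] Poly n :=
  MvPolynomial.aeval fun t => if t.1 = 0 then tl (x n) t.2.1 t.2.2 else tl (y n) t.2.1 t.2.2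

theorem evR_value (f : Poly n) (A B : Matrix (Fin n) (Fin n) ℂ) : evR A B f = value f A B := rfl

theorem value_pr (f : Poly n) (A B : Matrix (Fin n) (Fin n) ℂ) :
    value (pr n f) A B = value f (tc A) (tc B) := by
  have h : (evR A B).comp (pr n) = evR (tc A) (tc B) := by
    apply MvPolynomial.algHom_ext
    rintro ⟨c, i, j⟩
    have hc : c = 0 ∨ c = 1 := by
      fin_cases c <;> simp
    rcases hc with rfl | rfl
    · simp only [AlgHom.comp_apply, pr, evR, MvPolynomial.aeval_X, if_true, tl, map_sub, tc, x]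
      congr 1
      split_ifs
      · simp [Matrix.trace, x]
      · simp
    · simp only [AlgHom.comp_apply, pr, evR, MvPolynomial.aeval_X, one_ne_zero, if_false, tl,
        map_sub, tc, y]
      congr 1
      split_ifs
      · simp [Matrix.trace, y]
      · simp
  exact DFunLike.congr_fun h f

theorem pr_sub (f : Poly n) : pr n f - f ∈ idealSl n := by
  set T : Ideal (Poly n) := Ideal.span {(x n).trace, (y n).trace} with hT
  have hX : (x n).trace ∈ T := Ideal.subset_span (by simp)
  have hY : (y n).trace ∈ T := Ideal.subset_span (by simp)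
  have h : (Ideal.Quotient.mkₐ ℂ T).comp (pr n) = Ideal.Quotient.mkₐ ℂ T := by
    apply MvPolynomial.algHom_ext
    have h2 : ∀ (Z : Matrix (Fin n) (Fin n) (Poly n)) (i j : Fin n), Z.trace ∈ T →
        tl Z i j - Z i j ∈ T := by
      intro Z i j hZ
      have h3 : tl Z i j - Z i j = -(if i = j then MvPolynomial.C ((n : ℂ)⁻¹) * Z.trace else 0) := by
        simp only [tl]
        ring
      rw [h3]
      split_ifs
      · exact T.neg_mem (T.mul_mem_left _ hZ)
      · simp
    rintro ⟨c, i, j⟩
    rw [AlgHom.comp_apply, Ideal.Quotient.mkₐ_eq_mk, Ideal.Quotient.eq]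
    have hc : c = 0 ∨ c = 1 := by
      fin_cases c <;> simp
    rcases hc with rfl | rfl
    · simpa [pr, x] using h2 (x n) i j hX
    · simpa [pr, y] using h2 (y n) i j hY
  have h3 : pr n f - f ∈ T := by
    rw [← Ideal.Quotient.eq]
    exact DFunLike.congr_fun h f
  exact (le_sup_right : T ≤ idealSl n) h3

/-! ### all pairs of matrices, alternating inputs -/

theorem glIn (F : PolyMap n (q + 1)) (hF : Equi F) (ha : AltInputs F)
    (hv : ∀ A B : Matrix (Fin n) (Fin n) ℂ, A * B = B * A → ∀ i j, value (F i j) A B = 0)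
    (i j : Fin (q + 1) → Fin n) : F i j ∈ comI n := by
  refine all_Mai n q F hF (fun σ hσ i j => ?_) (fun A B h i j => hv A B h i j) i j
  rw [ha σ hσ i j, zsmul_eq_mul]

/-! ### transposition -/

/-- The substitution of the transposed matrices. -/
def tp (n : ℕ) : Poly n →ₐ[ℂ] Poly n := MvPolynomial.rename fun t => (t.1, t.2.2, t.2.1)

theorem tp_tp (f : Poly n) : tp n (tp n f) = f := by
  unfold tp
  rw [MvPolynomial.rename_rename]
  exact MvPolynomial.rename_id_apply f

theorem value_tp (f : Poly n) (A B : Matrix (Fin n) (Fin n) ℂ) :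
    value (tp n f) A B = value f A.transpose B.transpose := by
  unfold value tp
  rw [MvPolynomial.eval_rename]
  rfl

theorem tp_comI (f : Poly n) (hf : f ∈ comI n) : tp n f ∈ comI n := by
  have h : comI n ≤ (comI n).comap (tp n) := by
    unfold comI
    rw [Ideal.span_le]
    rintro g ⟨i, j, rfl⟩
    rw [SetLike.mem_coe, Ideal.mem_comap]
    have h1 : tp n ((zM n 0 * zM n 1 - zM n 1 * zM n 0) i j) =
        -((zM n 0 * zM n 1 - zM n 1 * zM n 0) j i) := by
      simp only [Matrix.sub_apply, Matrix.mul_apply, zM, map_sub, map_sum, map_mul, tp,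
        MvPolynomial.rename_X, neg_sub]
      congr 1 <;> exact Finset.sum_congr rfl fun k _ => mul_comm _ _
    rw [h1]
    exact (Ideal.neg_mem_iff _).2 (Ideal.subset_span ⟨j, i, rfl⟩)
  exact h hf

theorem glOut (F : PolyMap n (q + 1)) (hF : Equi F) (ha : AltOutputs F)
    (hv : ∀ A B : Matrix (Fin n) (Fin n) ℂ, A * B = B * A → ∀ i j, value (F i j) A B = 0)
    (i j : Fin (q + 1) → Fin n) : F i j ∈ comI n := by
  have h1 : Equi fun i j => tp n (F j i) := by
    intro g h A B hgh i j
    have hhg : h * g = 1 := mul_eq_one_comm.1 hgh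
    have h2 : h.transpose * g.transpose = 1 := by
      rw [← Matrix.transpose_mul, hgh, Matrix.transpose_one]
    have h3 := hF h.transpose g.transpose A.transpose B.transpose h2 j i
    rw [evR_value, value_tp, Matrix.transpose_mul, Matrix.transpose_mul, Matrix.transpose_mul,
      Matrix.transpose_mul, ← Matrix.mul_assoc, ← Matrix.mul_assoc, ← evR_value, h3,
      Finset.sum_comm]
    refine Finset.sum_congr rfl fun i' _ => Finset.sum_congr rfl fun j' _ => ?_
    rw [evR_value, evR_value, value_tp]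
    simp only [Matrix.transpose_apply]
    ring
  have h4 : AltInputs fun i j => tp n (F j i) := by
    intro σ hσ i j
    show tp n (F (j ∘ σ) i) = _
    rw [ha σ hσ j i, map_zsmul]
  have h5 := glIn (fun i j => tp n (F j i)) h1 h4 (fun A B h i j => by
    rw [value_tp]
    refine hv _ _ ?_ _ _
    rw [← Matrix.transpose_mul, ← Matrix.transpose_mul, h]) j i
  have h6 := tp_comI _ h5
  rwa [tp_tp] at h6

/-! ### the theorem -/

/-- Let `F` be a polynomial map from pairs of traceless matrices of size `n` to `Hom(V ⊗ Λ^q V, V^{⊗ (q + 1)})` or to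
`Hom(V^{⊗ (q + 1)}, V ⊗ Λ^q V)`, equivariant under `GL_n`, which vanishes on the commuting pairs. Then its matrix
coefficients are in the ideal of the commuting scheme. -/
theorem main (n q : ℕ) (F : PolyMap n (q + 1)) (hF : Equivariant F)
    (ha : AltInputs F ∨ AltOutputs F)
    (hv : ∀ A B : Matrix (Fin n) (Fin n) ℂ, A * B = B * A → A.trace = 0 → B.trace = 0 →
      ∀ i j, value (F i j) A B = 0) (i j : Fin (q + 1) → Fin n) : F i j ∈ idealSl n := by
  have h1 : Equi fun i j => pr n (F i j) := by
    intro g h A B hgh i j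
    have hhg : h * g = 1 := mul_eq_one_comm.1 hgh
    have h2 := hF ⟨g, h, hgh, hhg⟩ (tc A) (tc B) (tc_trace A) (tc_trace B) i j
    simp only [evR_value, value_pr] at h2 ⊢
    rw [tc_conj g h A hgh, tc_conj g h B hgh]
    exact h2
  have h2 : ∀ A B : Matrix (Fin n) (Fin n) ℂ, A * B = B * A →
      ∀ i j, value (pr n (F i j)) A B = 0 := fun A B h i j => by
    rw [value_pr]
    exact hv _ _ (tc_comm _ _ h) (tc_trace _) (tc_trace _) i j
  have h3 : pr n (F i j) ∈ comI n := by
    rcases ha with ha | ha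
    · refine glIn (fun i j => pr n (F i j)) h1 (fun σ hσ i j => ?_) h2 i j
      show pr n (F i (j ∘ σ)) = _
      rw [ha σ hσ i j, map_zsmul]
    · refine glOut (fun i j => pr n (F i j)) h1 (fun σ hσ i j => ?_) h2 i j
      show pr n (F (i ∘ σ) j) = _
      rw [ha σ hσ i j, map_zsmul]
  have h4 : comI n ≤ idealSl n := le_sup_left
  have h5 : F i j = pr n (F i j) - (pr n (F i j) - F i j) := by ring
  rw [h5]
  exact Ideal.sub_mem _ (h4 h3) (pr_sub _)

end Pool.Agent.AVH.E
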