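import Pool.Agent.AVH.St

/-!
# AVH [Elm]: elimination
-/

set_option autoImplicit false

noncomputable section

namespace Pool.Agent.AVH

open Matrix

private theorem elm_mon {n : ℕ} (P : Fin n → Fin 2 → ℂ) (e : ℕ × ℕ) :
    mon (dg P 0) (dg P 1) e = Matrix.diagonal fun a => P a 0 ^ e.1 * P a 1 ^ e.2 := by
  unfold mon dg
  rw [Matrix.diagonal_pow, Matrix.diagonal_pow, Matrix.diagonal_mul_diagonal]
  rfl

private theorem elm_comm {n : ℕ} (P : Fin n → Fin 2 → ℂ) :
    dg P 0 * dg P 1 = dg P 1 * dg P 0 := by
  unfold dg
  rw [Matrix.diagonal_mul_diagonal, Matrix.diagonal_mul_diagonal]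
  congr 1
  funext a
  exact mul_comm _ _

private theorem elm_zero {n K q : ℕ} (P : Fin n → Fin 2 → ℂ) (s : Fin (q + 1))
    (h : Cf K (q + 1)) (i j : Fin (q + 1) → Fin n) (hij : i s ≠ j 0) :
    GG (dg P 0) (dg P 1) s h i j = 0 := by
  let L : Cf K (q + 1) →ₗ[ℂ] ℂ :=
    (LinearMap.proj j ∘ₗ LinearMap.proj i) ∘ₗ GG (dg P 0) (dg P 1) s
  have hL : L = 0 := by
    refine (MvPolynomial.basisMonomials ((Fin K ⊕ Fin (q + 1)) × Fin 2) ℂ).ext fun d => ?_
    change GG (dg P 0) (dg P 1) s
      ((MvPolynomial.basisMonomials ((Fin K ⊕ Fin (q + 1)) × Fin 2) ℂ) d) i j = 0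
    unfold GG
    rw [Module.Basis.constr_basis]
    change mon (dg P 0) (dg P 1) _ (i s) (j 0) * _ = 0
    rw [elm_mon, Matrix.diagonal_apply_ne _ hij, zero_mul]
  exact LinearMap.congr_fun hL h

private theorem elm_sb {ι κ μ : Type} (g : κ → μ) (f : ι → κ) (p : MvPolynomial (ι × Fin 2) ℂ) :
    sb g (sb f p) = sb (g ∘ f) p := by
  unfold sb
  rw [MvPolynomial.rename_rename]
  rfl

private theorem elm_sb_id {ι : Type} (p : MvPolynomial (ι × Fin 2) ℂ) : sb (fun x => x) p = p := by
  unfold sb
  exact MvPolynomial.rename_id_apply p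

/-- the renaming of the point number `s` -/
private def elm_f {K q : ℕ} (s s' : Fin (q + 1)) (x : Fin K ⊕ Fin (q + 1)) :
    Fin K ⊕ Fin (q + 1) := if x = Sum.inr s then Sum.inr s' else x

private theorem elm_sym {K q : ℕ} (s s' : Fin (q + 1)) (h : Cf K (q + 1)) (hs : SymR h) :
    SymR (sb (elm_f s s') h) := by
  intro π
  rw [elm_sb]
  have h1 : (Sum.map π id : Fin K ⊕ Fin (q + 1) → Fin K ⊕ Fin (q + 1)) ∘ elm_f s s' =
      elm_f s s' ∘ Sum.map π id := by
    funext x
    rcases x with p | r
    · rfl
    · by_cases hr : r = s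
      · subst hr
        simp [elm_f]
      · have h2 : (Sum.inr r : Fin K ⊕ Fin (q + 1)) ≠ Sum.inr s := fun h => hr (Sum.inr.inj h)
        simp [elm_f, h2]
  rw [h1, ← elm_sb, hs π]

theorem thm_Elm (hRel : St_Rel) (hPts : St_Pts) : St_Elm := by
  intro n K q hn
  have key : ∀ u : ℕ, ∀ h : Fin (q + 1) → Cf K (q + 1), (∀ s, SymR (h s)) →
      (∀ (P : Fin n → Fin 2 → ℂ) (i j : Fin (q + 1) → Fin n),
        ∑ s, GG (dg P 0) (dg P 1) s (h s) i j = 0) →
      (∀ s : Fin (q + 1), s.val + u < q + 1 → h s = 0) →
      ∀ (R : Type) [CommRing R] [Algebra ℂ R] (X Y : Matrix (Fin n) (Fin n) R), X * Y = Y * X →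
        ∑ s, GG X Y s (h s) = 0 := by
    intro u
    induction u with
    | zero =>
      intro h _ _ h0 R _ _ X Y _
      refine Finset.sum_eq_zero fun s _ => ?_
      rw [h0 s (by have := s.isLt; omega), map_zero]
    | succ u ih =>
      intro h hsym hev h0 R _ _ X Y hXY
      by_cases hu : q < u
      · exact ih h hsym hev (fun s hs => by omega) R X Y hXY
      push Not at hu
      obtain ⟨s, hs⟩ : ∃ s : Fin (q + 1), s.val + u = q := ⟨⟨q - u, by omega⟩, by simp; omega⟩
      have hlt : ∀ s' : Fin (q + 1), s' < s → h s' = 0 := fun s' h1 => by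
        refine h0 s' ?_
        have h2 : s'.val < s.val := h1
        omega
      obtain ⟨hA, hB⟩ := hPts n K q hn s (h s) (hsym s) (by
        intro P i _ hi2
        have h1 := hev P i (fun r => i (Equiv.swap 0 s r))
        rw [Finset.sum_eq_single s] at h1
        · exact h1
        · intro s' _ hne
          rcases lt_or_gt_of_ne hne with h2 | h2
          · rw [hlt s' h2, map_zero]
            rfl
          · refine elm_zero P s' (h s') i _ ?_
            rw [Equiv.swap_apply_left]
            exact hi2 s' h2
        · exact fun h2 => absurd (Finset.mem_univ s) h2)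
      let H : MvPolynomial (Option (Fin K ⊕ Fin (q + 1)) × Fin 2) ℂ :=
        sb (fun x : Fin K ⊕ Fin (q + 1) => if x = Sum.inr s then none else some x) (h s)
      have hH : ∀ p : Fin K, sb (fun o : Option (Fin K ⊕ Fin (q + 1)) =>
          if o = some (Sum.inl p) then none else o) H = 0 := by
        intro p
        have h1 : (fun o : Option (Fin K ⊕ Fin (q + 1)) =>
            if o = some (Sum.inl p) then none else o) ∘
            (fun x : Fin K ⊕ Fin (q + 1) => if x = Sum.inr s then none else some x) =
            (fun x : Fin K ⊕ Fin (q + 1) => if x = Sum.inl p then none else some x) ∘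
            fun x : Fin K ⊕ Fin (q + 1) => if x = Sum.inr s then Sum.inl p else x := by
          funext x
          by_cases h2 : x = Sum.inr s
          · subst h2
            simp
          · simp [h2]
        change sb _ (sb _ (h s)) = 0
        rw [elm_sb, h1, ← elm_sb, hA p, map_zero]
      have hk : ∀ s' : Fin (q + 1), sb (fun o : Option (Fin K ⊕ Fin (q + 1)) =>
          o.getD (Sum.inr s')) H = sb (elm_f s s') (h s) := by
        intro s'
        change sb _ (sb _ (h s)) = _
        rw [elm_sb]
        congr 2
        funext x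
        by_cases h2 : x = Sum.inr s
        · subst h2
          simp [elm_f]
        · simp [elm_f, h2]
      have hks : sb (elm_f s s) (h s) = h s := by
        have h1 : (elm_f s s : Fin K ⊕ Fin (q + 1) → _) = fun x => x := by
          funext x
          unfold elm_f
          split_ifs with h2
          · exact h2.symm
          · rfl
        rw [h1, elm_sb_id]
      have hrel : ∀ (R : Type) [CommRing R] [Algebra ℂ R] (X Y : Matrix (Fin n) (Fin n) R),
          X * Y = Y * X → ∑ s', GG X Y s' (sb (elm_f s s') (h s)) = 0 := by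
        intro R _ _ X Y hXY
        have h1 := hRel n K q hn R X Y hXY H hH
        simp only [hk] at h1
        exact h1
      have h1 := ih (fun s' => h s' - sb (elm_f s s') (h s)) (fun s' π => by
          rw [map_sub, hsym s' π, elm_sym s s' (h s) (hsym s) π]) (fun P i j => by
          have h2 := hrel ℂ (dg P 0) (dg P 1) (elm_comm P)
          have h3 := congrFun (congrFun h2 i) j
          rw [Finset.sum_apply, Finset.sum_apply] at h3
          simp only [map_sub, Pi.sub_apply, Finset.sum_sub_distrib]
          rw [hev P i j]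
          have h4 : ∑ s', GG (dg P 0) (dg P 1) s' (sb (elm_f s s') (h s)) i j = 0 := h3
          rw [h4, sub_zero]) (fun s' hs' => by
          have h2 : s'.val ≤ s.val := by omega
          rcases lt_or_eq_of_le h2 with h3 | h3
          · change h s' - sb (elm_f s s') (h s) = 0
            rw [hlt s' h3]
            have h4 := hB s' h3
            change 0 - sb (fun x : Fin K ⊕ Fin (q + 1) =>
              if x = Sum.inr s then Sum.inr s' else x) (h s) = 0
            rw [h4, sub_zero]
          · have h4 : s' = s := Fin.ext h3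
            subst h4
            change h s' - sb (elm_f s' s') (h s') = 0
            rw [hks, sub_self]) R X Y hXY
      simp only [map_sub, Finset.sum_sub_distrib] at h1
      rw [hrel R X Y hXY, sub_zero] at h1
      exact h1
  intro h hsym hev R _ _ X Y hXY
  exact key (q + 1) h hsym hev (fun s hs => by omega) R X Y hXY

end Pool.Agent.AVH
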