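import Pool.Agent.AVH.St

/-!
# AVH: symmetric lifts of homogeneous polynomials, existence (Lfa)
-/

set_option autoImplicit false

noncomputable section

namespace Pool.Agent.AVH

/-- The exponent of the monomial `∏ X (u r)`. -/
def lfa_d {V : Type} {D : ℕ} (u : Fin D → V) : V →₀ ℕ := ∑ r, Finsupp.single (u r) 1

theorem lfa_d_perm {V : Type} {D : ℕ} (π : Equiv.Perm (Fin D)) (u : Fin D → V) :
    lfa_d (u ∘ π) = lfa_d u := by
  unfold lfa_d
  exact Equiv.sum_comp π fun r => Finsupp.single (u r) 1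

theorem lfa_prod {V : Type} {D : ℕ} (u : Fin D → V) :
    ∏ r, (MvPolynomial.X (u r) : MvPolynomial V ℂ) = MvPolynomial.monomial (lfa_d u) 1 := by
  unfold lfa_d
  rw [MvPolynomial.monomial_sum_one]
  rfl

theorem lfa_enum {V : Type} (D : ℕ) : ∀ m : V →₀ ℕ, m.degree = D →
    ∃ u : Fin D → V, lfa_d u = m := by
  induction D with
  | zero =>
    intro m hm
    refine ⟨Fin.elim0, ?_⟩
    rw [Finsupp.degree_eq_zero_iff] at hm
    rw [hm]
    rfl
  | succ D ih =>
    intro m hm
    have hne : m ≠ 0 := by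
      rintro rfl
      rw [map_zero] at hm
      omega
    obtain ⟨v, hv⟩ := Finsupp.ne_iff.mp hne
    have hle : Finsupp.single v 1 ≤ m := by
      rw [Finsupp.single_le_iff]
      exact Nat.one_le_iff_ne_zero.mpr hv
    obtain ⟨m', hm'⟩ := exists_add_of_le hle
    have hdeg : m'.degree = D := by
      rw [hm', map_add, Finsupp.degree_single] at hm
      omega
    obtain ⟨u, hu⟩ := ih m' hdeg
    refine ⟨Fin.cons v u, ?_⟩
    unfold lfa_d at hu ⊢
    rw [Fin.sum_univ_succ, Fin.cons_zero]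
    simp only [Fin.cons_succ]
    rw [hu, hm']

theorem thm_Lfa : St_Lfa := by
  intro V _ _ D f hf
  classical
  let N : (V →₀ ℕ) → ℕ := fun m => (Finset.univ.filter fun u : Fin D → V => lfa_d u = m).card
  refine ⟨fun u => MvPolynomial.coeff (lfa_d u) f / (N (lfa_d u) : ℂ), fun π u => ?_, ?_⟩
  · show MvPolynomial.coeff (lfa_d (u ∘ π)) f / (N (lfa_d (u ∘ π)) : ℂ) = _
    rw [lfa_d_perm]
  · refine MvPolynomial.ext _ _ fun m => ?_
    rw [MvPolynomial.coeff_sum]
    have h1 : ∀ u : Fin D → V, MvPolynomial.coeff m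
        (MvPolynomial.C (MvPolynomial.coeff (lfa_d u) f / (N (lfa_d u) : ℂ)) *
          ∏ r, (MvPolynomial.X (u r) : MvPolynomial V ℂ)) =
        if lfa_d u = m then MvPolynomial.coeff m f / (N m : ℂ) else 0 := by
      intro u
      rw [lfa_prod, MvPolynomial.coeff_C_mul, MvPolynomial.coeff_monomial]
      by_cases h : lfa_d u = m
      · rw [if_pos h, if_pos h, mul_one, h]
      · rw [if_neg h, if_neg h, mul_zero]
    rw [Finset.sum_congr rfl fun u _ => h1 u, ← Finset.sum_filter, Finset.sum_const, nsmul_eq_mul]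
    show _ = (N m : ℂ) * (MvPolynomial.coeff m f / (N m : ℂ))
    by_cases hN : N m = 0
    · have hdeg : m.degree ≠ D := by
        intro h
        obtain ⟨u, hu⟩ := lfa_enum D m h
        have : u ∈ Finset.univ.filter fun u : Fin D → V => lfa_d u = m :=
          Finset.mem_filter.mpr ⟨Finset.mem_univ _, hu⟩
        exact absurd (Finset.card_eq_zero.mp hN ▸ this) (Finset.notMem_empty _)
      rw [hN, Nat.cast_zero, zero_mul]
      exact hf.coeff_eq_zero hdeg
    · have hN' : (N m : ℂ) ≠ 0 := Nat.cast_ne_zero.mpr hN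
      rw [mul_div_cancel₀ _ hN']

end Pool.Agent.AVH
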