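import Pool.Agent.AVH.Defs

/-!
# AVH: statements

THEOREM (MP_c67a3f_ag). Let `F` be a `GL_n`-equivariant polynomial map from pairs `(x, y)` of complex matrices of size `n`
to `Hom(V ⊗ Λ^q V, V^{⊗ (q + 1)})`, `V = ℂ^n`, which vanishes on all commuting pairs. Then the coordinates of `F` are in
the ideal generated by the entries of `x y - y x`.

PLAN. (1) First fundamental theorem (Lfa, Lfb, Hc, Cm, Cd, Fft). (2) Modulo `x y = y x` all words are monomials, so `F` is a
combination of the tensors `trs * ∏_s m_s (i_s, j_(σ s))` (Red). `F` is alternating in the inputs `1, .., q`, so it is a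
combination of the tensors `trs * m_s (i_s, j_0) * det (m_r (i_r, j_c))_(r ≠ s, c ≠ 0)` (Alt). (3) With `CO` (sums of
determinants over `α`) the traces can be absorbed: `F` is a combination of the tensors `GT s a m` with exactly
`K = n - q` matrices `a` (P0, Ind, Exp, Tr, Spn). So `F = ∑_s GG s (h_s)` with polynomials `h_s` in `K + q + 1` points of
the plane. (4) Relations between the `GG s` (Rel), values at diagonal pairs (Ev, Pts); elimination of
`h_0, h_1, ..` one after the other (Elm).
-/

set_option autoImplicit false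
set_option linter.unusedVariables false

noncomputable section

namespace Pool.Agent.AVH

open Matrix

/-! ### the first fundamental theorem -/

/-- **Lfa.** Symmetric lifts, existence.

Proof. For `u : Fin D → V` let `d u = ∑_r single (u r) 1`. `T u` is the coefficient of `d u` in `f`, divided by the number
of the `u'` with `d u' = d u`. Every monomial of degree `D` is `d u` for some `u` (enumerate the multiset), and the
other coefficients of `f` are zero. `d (u ∘ π) = d u`. -/
def St_Lfa : Prop := ∀ (V : Type) [Fintype V] [DecidableEq V] (D : ℕ) (f : MvPolynomial V ℂ),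
  f.IsHomogeneous D → ∃ T : (Fin D → V) → ℂ, (∀ (π : Equiv.Perm (Fin D)) (u : Fin D → V),
    T (u ∘ π) = T u) ∧ f = ∑ u : Fin D → V, MvPolynomial.C (T u) * ∏ r, MvPolynomial.X (u r)

/-- **Lfb.** Symmetric lifts, uniqueness.

Proof. Let `d u = ∑_r single (u r) 1`. The coefficient of `d u` is the sum of the `T u'` with `d u' = d u`. Such `u'` are
`u ∘ π` for a permutation `π` (same multiset of values), so `T u' = T u`, and a positive multiple of `T u` is zero. -/
def St_Lfb : Prop := ∀ (V : Type) [Fintype V] [DecidableEq V] (D : ℕ) (T : (Fin D → V) → ℂ),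
  (∀ (π : Equiv.Perm (Fin D)) (u : Fin D → V), T (u ∘ π) = T u) →
  ∑ u : Fin D → V, MvPolynomial.C (T u) * ∏ r, (MvPolynomial.X (u r) : MvPolynomial V ℂ) = 0 →
  ∀ u, T u = 0

/-- **Hc.** Homogeneous components of equivariant families are equivariant.

Proof. Apply the hypothesis to `t A`, `t B`, `t : ℂ`: `g (t A) h = t (g A h)` and `evR (t A) (t B) f` is the sum over `D` of
`t ^ D` times `evR A B` of the component of degree `D` of `f`. Both sides are polynomials in `t` which agree for all `t`,
so the coefficients agree. -/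
def St_Hc : Prop := ∀ (n l D : ℕ) (F : Ten n l (Sn n)), Equi F →
  Equi fun i j => MvPolynomial.homogeneousComponent D (F i j)

/-- **Cm.** The symmetric lift commutes with `g^{⊗}`. (`u r = (c r, b r, a r)` is the variable `z_(b a)`, `z = x` or `y`.)

Proof. The value of `∏_r X (c r, b r, a r)` at `(g A h, g B h)` is
`∑_(b', a') ∏_r g (b_r, b'_r) Z_(c r) (b'_r, a'_r) h (a'_r, a_r)`. So equivariance says that for all `i`, `j` the symmetric
functions `T1 (c, b', a') = ∑_(b, a) T i j (c, b, a) ∏ g (b_r, b'_r) ∏ h (a'_r, a_r)` and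
`T2 (c, b', a') = ∑_(i', j') ∏ g (i_s, i'_s) T i' j' (c, b', a') ∏ h (j'_s, j_s)` of `u = (c, b', a')` give polynomials with
the same values, hence the same polynomials (`MvPolynomial.funext`), so `T1 = T2` by hLfb. Multiply by
`∏_r g (a_r, a'_r)` and by `∏_s g (j_s, j'_s)`, sum over `a'` and over `j`, and use `g h = 1 = h g`
(`Finset.prod_univ_sum`). -/
def St_Cm : Prop := ∀ (n l D : ℕ)
  (T : (Fin l → Fin n) → (Fin l → Fin n) → (Fin D → Vr n) → ℂ),
  (∀ i j (π : Equiv.Perm (Fin D)) (u : Fin D → Vr n), T i j (u ∘ π) = T i j u) →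
  (Equi fun i j => ∑ u : Fin D → Vr n, MvPolynomial.C (T i j u) * ∏ r, MvPolynomial.X (u r)) →
  ∀ g h : Matrix (Fin n) (Fin n) ℂ, g * h = 1 → ∀ (c : Fin D → Fin 2) (i j' : Fin l → Fin n)
    (a b' : Fin D → Fin n),
    ∑ b : Fin D → Fin n, ∑ j : Fin l → Fin n,
      T i j (fun r => (c r, b r, a r)) * ((∏ r, g (b r) (b' r)) * ∏ s, g (j s) (j' s)) =
    ∑ a' : Fin D → Fin n, ∑ i' : Fin l → Fin n,
      ((∏ r, g (a r) (a' r)) * ∏ s, g (i s) (i' s)) * T i' j' (fun r => (c r, b' r, a' r))

/-- **Cd.** A matrix commuting with all `g^{⊗ κ}`, `g` invertible, is a combination of permutations.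

Proof. `κ = Fin m` (`Fintype.equivFin`). Take `g = 1 + t E`, `E` the matrix unit `single p q 1`; it is invertible for
`t ≠ -1`. Both sides are polynomials in `t`, so they are equal for all `t`, and the coefficients of `t` are equal: this
is the hypothesis of `Pool.Agent.Helper7.fft_gl` in `Pool/Agent/Helper71/W4/FFTgl.lean` (with `i = q`, `j = p` there): the
coefficient of `t` in `∏_r g (t_r, t'_r)` is `∑_r [t_r = p, t'_r = q, t_r' = t'_r' for r' ≠ r]`. -/
def St_Cd : Prop := ∀ (κ : Type) [Fintype κ] [DecidableEq κ] (n : ℕ)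
  (G : (κ → Fin n) → (κ → Fin n) → ℂ),
  (∀ g h : Matrix (Fin n) (Fin n) ℂ, g * h = 1 → ∀ s t' : κ → Fin n,
    ∑ t : κ → Fin n, G s t * ∏ r, g (t r) (t' r) =
      ∑ s' : κ → Fin n, (∏ r, g (s r) (s' r)) * G s' t') →
  ∃ c : Equiv.Perm κ → ℂ, ∀ s t, G s t = ∑ π : Equiv.Perm κ, c π * ∏ r, (if s r = t (π r) then 1 else 0)

/-- **Fft** (from Lfa, Hc, Cm, Cd).

Proof. `F` is the sum of its homogeneous components, which are equivariant (hHc); so let all `F i j` be homogeneous of
degree `D`, `F i j = ∑_u C (T i j u) ∏ X (u r)` with symmetric `T i j` (hLfa). For `c : Fin D → Fin 2` let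
`G s t = T (s ∘ inr) (t ∘ inr) (fun r => (c r, t (inl r), s (inl r)))`, `κ = Fin D ⊕ Fin l`; hCm is the hypothesis of hCd
(sums over `κ → Fin n` are double sums, `Equiv.sumArrowEquivProdArrow`). So
`T i j (c, b, a) = ∑_π c_π ∏_r [(a, i)_r = (b, j)_(π r)]`, and
`F i j = ∑_c ∑_π c_π ∑_(a, b) ∏_r [(b, j)_r = (a, i)_(π⁻¹ r)] ∏_r X (c r, b r, a r)`, where the inner sum is
`∑_a ∏_r z_(c r) ((a, i)_(π⁻¹ (inl r)), a_r) ∏_s [(a, i)_(π⁻¹ (inr s)) = j_s]`, which is `Gam π⁻¹`. -/
def St_Fft : Prop := ∀ (n l : ℕ) (F : Ten n l (Sn n)), Equi F →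
  F ∈ Submodule.span ℂ {G : Ten n l (Sn n) | ∃ (D : ℕ) (π : Equiv.Perm (Fin D ⊕ Fin l))
    (c : Fin D → Fin 2), G = Gam π (Sum.elim (fun r => zM n (c r)) fun _ => 1)}

/-! ### monomials -/

/-- **Red.** Contractions of monomials.

Proof. Induction on `K` (for all `π`, `e`; or prove it for all finite types instead of `Fin K` and use
`Finite.induction_empty_option`). `K = 0`: `σ = π⁻¹`. Step: sum over the value `b` of `a` at one element `k` of `Fin K`. If
`π (inl k) = inl k` the factor of `inl k` is `mon (e (inl k)) (b, b)`, and the sum is a trace; the rest is a contraction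
for the permutation with `inl k` removed. Otherwise let `r = π⁻¹ (inl k) ≠ inl k`. The factors of `inl k` and `r` are
`mon (e (inl k)) (row of π (inl k), b)` and `mon (e r) (b, column of r)`; the sum over `b` is the entry
(row of `π (inl k)`, column of `r`) of `mon (e (inl k)) * mon (e r) = mon (e (inl k) + e r)`; this is the contraction for the
permutation of the other elements which sends `r` to `π (inl k)`. -/
def St_Red : Prop := ∀ (n l K : ℕ) (R : Type) [CommRing R] (X Y : Matrix (Fin n) (Fin n) R),
  X * Y = Y * X → ∀ (π : Equiv.Perm (Fin K ⊕ Fin l)) (e : Fin K ⊕ Fin l → ℕ × ℕ),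
  Gam π (fun r => mon X Y (e r)) ∈ PsiSet X Y l

/-- **Alt.** Alternation.

Proof. Let `H` be the group of the permutations of `Fin (q + 1)` fixing `0`. `F i j` is the average over `τ ∈ H` of
`sign τ * F i (j ∘ τ)`. For `F = trs * ∏_s m_s (i_s, j_(σ s))` put `s₀ = σ⁻¹ 0`; the average is, up to a rational factor,
`trs * m_(s₀) (i_(s₀), j_0) * ∑_τ sign τ ∏_(s ≠ s₀) m_s (i_s, j_(τ (σ s)))`. On the other hand
`CO Fin.elim0 m i (bs j) s₀` is the determinant of the matrix `m_r (i_r, j_c)` with the column `0` replaced by `e_(s₀)`, that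
is `∑_(ρ, ρ 0 = s₀) sign ρ ∏_(c ≠ 0) m_(ρ c) (i_(ρ c), j_c)` (`Fin 0 ⊕ Fin (q + 1) ≃ Fin (q + 1)`), and `ρ = σ⁻¹ τ⁻¹`
gives the sum above times `sign σ`. -/
def St_Alt : Prop := ∀ (n q : ℕ) (R : Type) [CommRing R] [Algebra ℂ R]
  (X Y : Matrix (Fin n) (Fin n) R) (F : Ten n (q + 1) R),
  F ∈ Submodule.span ℂ (PsiSet X Y (q + 1)) → AltIn F →
  F ∈ Submodule.span ℂ {G : Ten n (q + 1) R | ∃ (ts : List (ℕ × ℕ)) (s : Fin (q + 1))
    (m : Fin (q + 1) → ℕ × ℕ), G = fun i j => trs X Y ts *
      GT s (fun t : Fin 0 => t.elim0) (fun r => mon X Y (m r)) i j}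

/-! ### determinants -/

/-- **P0.** The sums of determinants vanish if the size is bigger than `n`.

Proof. The matrix `Mt a m i v α` is the product of the matrix with `n` columns, whose row `r` is the row `ρ_r` of the
matrix `M_r`, and the matrix with `n` rows, whose column `c` is the vector `w_c`; so its determinant is zero if
`n < k + l` (rank, `Matrix.rank_mul_le_left`, `Matrix.rank_le_width`, or `Matrix.exists_mulVec_eq_zero_iff`). For `CO`
expand along the column `inr 0`, which is a standard vector: the remaining minor of size `k + q` is such a product. -/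
def St_P0 : Prop := ∀ (n k : ℕ) (R : Type) [CommRing R] (a : Fin k → Matrix (Fin n) (Fin n) R),
  (∀ (l : ℕ) (m : Fin l → Matrix (Fin n) (Fin n) R) (i : Fin l → Fin n) (v : Fin l → Fin n → R),
    n < k + l → XI a m i v = 0) ∧
  ∀ (q : ℕ) (m : Fin (q + 1) → Matrix (Fin n) (Fin n) R) (i : Fin (q + 1) → Fin n)
    (v : Fin (q + 1) → Fin n → R) (s : Fin (q + 1)), n < k + q → CO a m i v s = 0

/-- **Ind.** `CO a m i v s` does not depend on `m s` and `v 0`.

Proof. The column `inr 0` is replaced by `e_(inr s)`, so the determinant does not depend on the row `inr s`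
(`Matrix.det_succ_column` on `Fin`, or: subtract multiples; or `det_updateCol_single` / `det_updateRow`,
`Matrix.cramer`), and `v 0` occurs only in the column `inr 0`. -/
def St_Ind : Prop := ∀ (n k q : ℕ) (R : Type) [CommRing R] (a : Fin k → Matrix (Fin n) (Fin n) R)
  (m m' : Fin (q + 1) → Matrix (Fin n) (Fin n) R) (i : Fin (q + 1) → Fin n)
  (v v' : Fin (q + 1) → Fin n → R) (s : Fin (q + 1)), (∀ r, r ≠ s → m r = m' r) →
  (∀ r, r ≠ 0 → v r = v' r) → CO a m i v s = CO a m' i v' s

/-- **Exp.** Expansion along the column `inr 0`.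

Proof. Expand `det (Mt a m i v α)` along the column `inr 0`: it is the sum over the rows `r` of the entry `(r, inr 0)` times
the determinant of the matrix with the column `inr 0` replaced by `e_r` (`Matrix.cramer`, `det_updateCol`). The row
`inr s` gives the first sum. For the row `inl t` the entry is `(a_t v_0)_(α_t)`; in the other determinant the row `inl t`
does not matter, so `α_t` occurs only in the column `inl t`, whose entries are `(M_r)_(ρ_r, α_t)`. The sum over `α_t` of
`(a_t v_0)_(α_t)` times this column is the column of the vector `a_t v_0`. Exchange the columns `inl t` and `inr 0`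
(a sign), now the column `inl t` is `e_(inl t)`, and remove the row and the column `inl t`: the result is
`- det (Mt (a without t) m i (update v 0 (a_t v_0)) α')`. -/
def St_Exp : Prop := ∀ (n k q : ℕ) (R : Type) [CommRing R]
  (m : Fin (q + 1) → Matrix (Fin n) (Fin n) R) (i : Fin (q + 1) → Fin n)
  (v : Fin (q + 1) → Fin n → R),
  (∀ a : Fin 0 → Matrix (Fin n) (Fin n) R,
    XI a m i v = ∑ s, (m s *ᵥ v 0) (i s) * CO a m i v s) ∧
  ∀ a : Fin (k + 1) → Matrix (Fin n) (Fin n) R,
    XI a m i v = ∑ s, (m s *ᵥ v 0) (i s) * CO a m i v s -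
      ∑ t : Fin (k + 1), XI (fun t' => a (t.succAbove t')) m i (Function.update v 0 (a t *ᵥ v 0))

/-- **Tr.** Absorption of a trace.

Proof. In `CO (Fin.cons c a) m i v s` expand the determinant along the column `inl 0` (the vector `e_(α_0)`), `α_0` the first
index. The row `inl 0` gives `c (α_0, α_0)` times the determinant for `a`; the sum over `α_0` is the trace. A row
`r ≠ inl 0`, `r ≠ inr s`, with the matrix `M_r` gives `(M_r)_(ρ_r, α_0)` times the determinant with the column `inl 0`
replaced by `e_r`; in this determinant the row `r` does not matter and the row `inl 0` has the entries `(c w)_(α_0)`.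
Exchange the rows `inl 0` and `r` (a sign): the column `inl 0` is now `e_(inl 0)`, and the row in the place `r` has, after
the sum over `α_0`, the entries `(M_r c w)_(ρ_r)`; so one gets `-` the determinant with `M_r` replaced by `M_r c`. The row
`inr s` gives `0`, as then the columns `inl 0` and `inr 0` are both `e_(inr s)`. -/
def St_Tr : Prop := ∀ (n k q : ℕ) (R : Type) [CommRing R] (c : Matrix (Fin n) (Fin n) R)
  (a : Fin k → Matrix (Fin n) (Fin n) R) (m : Fin (q + 1) → Matrix (Fin n) (Fin n) R)
  (i : Fin (q + 1) → Fin n) (v : Fin (q + 1) → Fin n → R) (s : Fin (q + 1)),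
  c.trace * CO a m i v s = CO (Fin.cons c a : Fin (k + 1) → Matrix (Fin n) (Fin n) R) m i v s +
    ∑ t, CO (Function.update a t (a t * c)) m i v s +
    ∑ r ∈ Finset.univ.erase s, CO a (Function.update m r (m r * c)) i v s

/-- **Spn** (from P0, Tr).

Proof. (i) For `c = 1` hTr is `(n - k - q) CO a = CO (cons 1 a)`; so for `k < K` a tensor `GT s a m` with `k` matrices
`a` is a complex multiple of the one with `cons 1 a`, `1 = mon (0, 0)`. So start with `K` matrices `a` which are monomials.
(ii) For `k = K` and `c = mon e`, hTr and `CO (cons c a) = 0` (hP0, as `K + 1 + q > n`) write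
`c.trace * GT s a m` as a sum of tensors `GT s a' m'`, where one of the `a_t` or of the `m_r`, `r ≠ s`, is multiplied by
`c`; `mon e * mon e' = mon (e + e')`. The factor `m s (i s) (j 0)` of `GT` does not change. Induction on the list `ts`. -/
def St_Spn : Prop := ∀ (n K q : ℕ), K + q = n → ∀ (R : Type) [CommRing R] [Algebra ℂ R]
  (X Y : Matrix (Fin n) (Fin n) R), X * Y = Y * X → ∀ (ts : List (ℕ × ℕ)) (s : Fin (q + 1))
  (m : Fin (q + 1) → ℕ × ℕ),
  (fun i j => trs X Y ts * GT s (fun t : Fin 0 => t.elim0) (fun r => mon X Y (m r)) i j) ∈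
    Submodule.span ℂ {G : Ten n (q + 1) R | ∃ (a : Fin K → ℕ × ℕ) (m' : Fin (q + 1) → ℕ × ℕ),
      G = GT s (fun t => mon X Y (a t)) (fun r => mon X Y (m' r))}

/-! ### relations -/

/-- **Rel** (from P0, Ind, Exp). `none` is an additional point `z`.

Proof. Both sides are linear in `H`. Fix `i`, `j`. For a monomial `H = ∏ R_p^(a_p) ∏ Q_r^(m_r) z^c` (exponents in `ℕ × ℕ`)
the substitution `z = Q_s` multiplies the matrix number `s` by `mon c` (on the right, as `X Y = Y X`), so the sum on the
left is `∑_s (m_s c e_(j_0))_(i_s) CO a m i (bs j) s`. By hInd (with `v = update (bs j) 0 (c e_(j_0))`) and hExp it is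
`XI a m i v + ∑_t XI (a without t) m i (update v 0 (a_t c e_(j_0)))`, and `XI a m i v = 0` by hP0, as
`K + (q + 1) > n`. The term number `t` is the value at `H` of a linear map `L_t` with `L_t H = L_t H'`, if `H'` is `H` with
`R_t` replaced by `z` (as `a_t c = mon (a_t + c)`): write `L_t = L'_t ∘ sb (..)`, where `L'_t` is defined on monomials, in
which `z` has the exponent `c`, by the same formula with `a_t = 1`. So the hypothesis gives `L_t H = 0`. -/
def St_Rel : Prop := ∀ (n K q : ℕ), K + q = n → ∀ (R : Type) [CommRing R] [Algebra ℂ R]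
  (X Y : Matrix (Fin n) (Fin n) R), X * Y = Y * X →
  ∀ H : MvPolynomial (Option (Fin K ⊕ Fin (q + 1)) × Fin 2) ℂ,
  (∀ p : Fin K, sb (fun o : Option (Fin K ⊕ Fin (q + 1)) =>
    if o = some (Sum.inl p) then none else o) H = 0) →
  ∑ s : Fin (q + 1), GG X Y s (sb (fun o : Option (Fin K ⊕ Fin (q + 1)) => o.getD (Sum.inr s)) H) = 0

/-- **Sym.** `GG` is invariant under permutations of the `R_p`.

Proof. It is enough to show this for monomials, that is `GT s (a ∘ π) m = GT s a m`. In the sum over `α` substitute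
`α ∘ π`; the matrix is obtained by permuting the rows and the columns by `Sum.map π id` (`Matrix.det_reindex_self`,
`Matrix.det_submatrix_equiv_self`). -/
def St_Sym : Prop := ∀ (n K q : ℕ) (R : Type) [CommRing R] [Algebra ℂ R]
  (X Y : Matrix (Fin n) (Fin n) R) (s : Fin (q + 1)) (h : Cf K (q + 1)) (π : Equiv.Perm (Fin K)),
  GG X Y s (sb (Sum.map π id) h) = GG X Y s h

/-- **Nat.** Naturality.

Proof. Linearity and the case of a monomial: `(mon X Y e).map φ = mon (X.map φ) (Y.map φ) e`, and `φ` commutes with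
determinants (`RingHom.map_det`), sums and products. -/
def St_Nat : Prop := ∀ (n K q : ℕ) (R S : Type) [CommRing R] [Algebra ℂ R] [CommRing S]
  [Algebra ℂ S] (φ : R →ₐ[ℂ] S) (X Y : Matrix (Fin n) (Fin n) R) (s : Fin (q + 1))
  (h : Cf K (q + 1)) (i j : Fin (q + 1) → Fin n),
  φ (GG X Y s h i j) = GG (X.map φ) (Y.map φ) s h i j

/-! ### diagonal pairs -/

/-- **Ev.** Values at diagonal pairs.

Proof. For all `h`, `GG s h i j` (`j = i ∘ swap 0 s`) is `ε ∑_τ h (R_p = P (b (τ p)), Q_r = P (i_r))`, the sum over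
`τ : Perm (Fin K)`, `ε = 1` if `s = 0` and `-1` otherwise; for symmetric `h` this is `ε K! h (R = P ∘ b, Q = P ∘ i)`. By
linearity let `h` be a monomial with the exponents `a_p`, `m_r`. The monomials of the diagonal matrices are diagonal, so
the row `r` of the determinant in `CO` is `P_(ρ_r)^(e_r)` times the row `[ρ_r = w_c]`, where `ρ = (α, i)`, `w = (α, j)`, except
for the column `inr 0`, which is `e_(inr s)`, and the row `inr s` does not matter. If two of the `α_t`, `i_r` (`r ≠ s`) are
equal, two rows are proportional and the determinant is zero. Otherwise `α` is a permutation `b ∘ τ` of `b`, because `b` and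
the `i_r`, `r ≠ s`, are all `n = K + q` elements; then (with the row `inr s` replaced by the standard vector) the `0-1`
matrix is the permutation matrix of the swap of `inr 0` and `inr s`, as `j_c = i_(swap 0 s c)` and `swap 0 s c ≠ s` for
`c ≠ 0`. The other factor `m_s (i_s, j_0)` is `P_(i_s)^(m_s)`, as `j_0 = i_s`. -/
def St_Ev : Prop := ∀ (n K q : ℕ), K + q = n → ∀ (s : Fin (q + 1)) (i : Fin (q + 1) → Fin n)
  (b : Fin K → Fin n), (∀ r r', r ≠ s → r' ≠ s → i r = i r' → r = r') →
  Function.Injective b → (∀ p r, r ≠ s → b p ≠ i r) →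
  ∃ c : ℂ, c ≠ 0 ∧ ∀ (P : Fin n → Fin 2 → ℂ) (h : Cf K (q + 1)), SymR h →
    GG (dg P 0) (dg P 1) s h i (fun r => i (Equiv.swap 0 s r)) =
      c * MvPolynomial.eval (fun o => P (Sum.elim b i o.1) o.2) h

/-- **Pts** (from Ev).

Proof. Let `e : Fin K ⊕ {r // r ≠ s} ≃ Fin n` (both have `n` elements). (1) Let `i_r = e (inr r)` for `r ≠ s`,
`i_s = e (inl p)`, `b = e ∘ inl`. By hEv and the hypothesis the value of `h` at `P ∘ (b, i)` is zero for all `P`, so
`sb (Sum.elim b i) h = 0` (`MvPolynomial.funext`). `Sum.elim b i` is the composition of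
`fun x => if x = inr s then inl p else x` with a map which is injective outside `inr s`, namely `e` there; compose with a
left inverse. (2) For `s' < s` the same with `i_s = e (inr s')`. -/
def St_Pts : Prop := ∀ (n K q : ℕ), K + q = n → ∀ (s : Fin (q + 1)) (h : Cf K (q + 1)), SymR h →
  (∀ (P : Fin n → Fin 2 → ℂ) (i : Fin (q + 1) → Fin n),
    (∀ r r', r ≠ s → r' ≠ s → i r = i r' → r = r') → (∀ s', s < s' → i s' ≠ i s) →
    GG (dg P 0) (dg P 1) s h i (fun r => i (Equiv.swap 0 s r)) = 0) →
  (∀ p : Fin K, sb (fun x : Fin K ⊕ Fin (q + 1) => if x = Sum.inr s then Sum.inl p else x) h = 0) ∧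
  ∀ s' : Fin (q + 1), s' < s →
    sb (fun x : Fin K ⊕ Fin (q + 1) => if x = Sum.inr s then Sum.inr s' else x) h = 0

/-- **Elm** (from Rel, Pts).

Proof. (i) `GG (dg P 0) (dg P 1) s' h i j = 0` if `i s' ≠ j 0` (the factor `m s' (i s') (j 0)` of a diagonal matrix; linearity).
(ii) Induction on `u ≤ q + 1`: the claim holds if `h s = 0` for all `s` with `s + u < q + 1`. `u = 0`: all `h s = 0`. Step:
let `s` be the index with `s + (u + 1) = q + 1`, `h s' = 0` for `s' < s`. Let `i` be injective outside `s`, `i s' ≠ i s` for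
`s' > s`, `j = i ∘ swap 0 s`, `j 0 = i s`. By (i) only the term of `s` in the hypothesis is not zero, so it vanishes, and
hPts applies to `h s`. Let `H = sb (fun x => if x = inr s then none else some x) (h s)` (`Q_s` renamed to `z`). The
first part of hPts gives the hypothesis of hRel for `H` (`MvPolynomial.rename_rename`). `H` with `z = Q_s` is `h s`, with
`z = Q_s'` for `s' < s` it is zero by the second part of hPts. So by hRel, for all commuting pairs over all algebras,
`GG s (h s) = - ∑_(s' > s) GG s' (H with z = Q_s')`. Apply the induction hypothesis to `h'` with `h' s' = 0` for `s' ≤ s` and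
`h' s' = h s' - (H with z = Q_s')` for `s' > s`, which is symmetric in the `R_p`. -/
def St_Elm : Prop := ∀ (n K q : ℕ), K + q = n → ∀ h : Fin (q + 1) → Cf K (q + 1),
  (∀ s, SymR (h s)) →
  (∀ (P : Fin n → Fin 2 → ℂ) (i j : Fin (q + 1) → Fin n),
    ∑ s, GG (dg P 0) (dg P 1) s (h s) i j = 0) →
  ∀ (R : Type) [CommRing R] [Algebra ℂ R] (X Y : Matrix (Fin n) (Fin n) R), X * Y = Y * X →
    ∑ s, GG X Y s (h s) = 0

/-- **Mai** (from Fft, Red, Alt, Spn, Sym, Nat, Elm).

Proof. If `n < q`, two of the `j_1, .., j_q` are equal for every `j`, so `F i j = - F i j` and `F = 0`. Let `K = n - q`,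
`R = Sn n ⧸ comI n`, `X`, `Y` the images of the matrices of variables, which commute. Let `F'` be the image of `F`. By
hFft it is a combination of images of `Gam π (..)`, which are `Gam π (mon X Y ..)` with `X = mon (1, 0)`, `Y = mon (0, 1)`,
`1 = mon (0, 0)`; hRed, hAlt, hSpn: `F' = ∑_s GG X Y s (h s)` for some `h` (`GT s (mon a) (mon m)` is the value of `GG` at a
monomial). Replace `h s` by its average over the permutations of the `R_p` (hSym). A pair of diagonal matrices commutes, so
`evR` factors over `R` (`Ideal.Quotient.liftₐ`), and hNat gives the hypothesis of hElm. So `F' = 0`. -/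
def St_Mai : Prop := ∀ (n q : ℕ) (F : Ten n (q + 1) (Sn n)), Equi F → AltIn F →
  (∀ A B : Matrix (Fin n) (Fin n) ℂ, A * B = B * A → ∀ i j, evR A B (F i j) = 0) →
  ∀ i j, F i j ∈ comI n

end Pool.Agent.AVH
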